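import Pool.Agent.H8.CDW.D2

/-!
# [H8 CDW D3] parabolic subgroups are Coxeter groups

Let `G = (resM M J).Group`, `cJ = (resM M J).toCoxeterSystem`, `φ : G →* W` the lift of `j ↦ cs.simple j` (`cJ.lift`; the relations hold by
`cs.simple_mul_simple_pow`).  Its range is `par cs J`.
INJECTIVE: let `φ x = 1` and let `ω` be a reduced word of `x` in `G` (letters in `J`, a `List J`).  CLAIM: `ω.map (↑)` is reduced in `W`.  Otherwise take the
shortest prefix that is not reduced in `W`: `ω = α ++ j :: β`, `α` reduced in `W`, `α.concat j` not, so `j` is a right descent of `π α`, and by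
`exchange_right` `π α * s_j = π (α.eraseIdx k)`, i.e. `π α = π ((α.eraseIdx k).concat j)`, both reduced in `W`, with letters in `J`; by `matsumoto`
with `N = G`, `f i = if h : i ∈ J then cJ.simple ⟨i, h⟩ else 1` (`hf`: `wordProd_braidWord_eq` in `G`), the products in `G` agree:
`x = π_G (α.eraseIdx k ++ [j] ++ [j] ++ β) = π_G (α.eraseIdx k ++ β)`, shorter than `ω`: contradiction.  So `ℓ_W(φ x) = length ω`, and `φ x = 1` gives
`ω = []`, `x = 1`.
`card_res_res`: `resM (resM M σ) {x | ↑x ∈ ρ}` is the reindexing of `resM M ρ` along the obvious equivalence of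
`{x : σ | ↑x ∈ ρ}` with `ρ` (for `ρ ⊆ σ`), use `CoxeterMatrix.reindexGroupEquiv`, then `card_res`.
-/

set_option autoImplicit false

namespace Pool.H8.CDW

open CoxeterSystem

variable {B : Type*} {W : Type*} [Group W] {M : CoxeterMatrix B}

/-- alternating words are natural -/
private lemma d3_map_alt {A : Type*} {C : Type*} (g : A → C) (i j : A) (n : ℕ) :
    (alternatingWord i j n).map g = alternatingWord (g i) (g j) n := by
  induction n generalizing i j with
  | zero => rfl
  | succ n ih =>
    rw [alternatingWord_succ, alternatingWord_succ, List.concat_eq_append, List.concat_eq_append,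
      List.map_append, ih]
    rfl

/-- the homomorphism from the Coxeter group of the restricted matrix -/
private lemma d3_liftable (cs : CoxeterSystem M W) (J : Set B) :
    (resM M J).IsLiftable (fun j : J => cs.simple (j : B)) := by
  intro i j
  exact cs.simple_mul_simple_pow _ _

/-- the homomorphism from the Coxeter group of the restricted matrix -/
private noncomputable def d3_phi (cs : CoxeterSystem M W) (J : Set B) : (resM M J).Group →* W :=
  (resM M J).toCoxeterSystem.lift ⟨fun j : J => cs.simple (j : B), d3_liftable cs J⟩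

private lemma d3_phi_simple (cs : CoxeterSystem M W) (J : Set B) (j : J) :
    d3_phi cs J ((resM M J).toCoxeterSystem.simple j) = cs.simple (j : B) :=
  (resM M J).toCoxeterSystem.lift_apply_simple (d3_liftable cs J) j

private lemma d3_phi_word (cs : CoxeterSystem M W) (J : Set B) (ω : List J) :
    d3_phi cs J ((resM M J).toCoxeterSystem.wordProd ω) = cs.wordProd (ω.map (fun j : J => (j : B))) := by
  induction ω with
  | nil => simp
  | cons i ω ih =>
    rw [wordProd_cons, List.map_cons, wordProd_cons, map_mul, ih, d3_phi_simple]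

private lemma d3_range (cs : CoxeterSystem M W) (J : Set B) :
    (d3_phi cs J).range = par cs J := by
  rw [MonoidHom.range_eq_map, ← (resM M J).toCoxeterSystem.subgroup_closure_range_simple,
    MonoidHom.map_closure]
  unfold par
  congr 1
  ext w
  constructor
  · rintro ⟨_, ⟨j, rfl⟩, rfl⟩
    exact ⟨j, j.2, (d3_phi_simple cs J j).symm⟩
  · rintro ⟨j, hj, rfl⟩
    exact ⟨_, ⟨⟨j, hj⟩, rfl⟩, d3_phi_simple cs J ⟨j, hj⟩⟩

open Classical in
/-- the function used with Matsumoto's theorem -/
private noncomputable def d3_f (M : CoxeterMatrix B) (J : Set B) (i : B) : (resM M J).Group :=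
  if h : i ∈ J then (resM M J).toCoxeterSystem.simple ⟨i, h⟩ else 1

private lemma d3_f_val (M : CoxeterMatrix B) (J : Set B) (j : J) :
    d3_f M J (j : B) = (resM M J).toCoxeterSystem.simple j := by
  unfold d3_f
  rw [dif_pos j.2]

private lemma d3_f_word (M : CoxeterMatrix B) (J : Set B) (ω : List J) :
    ((ω.map (fun j : J => (j : B))).map (d3_f M J)).prod = (resM M J).toCoxeterSystem.wordProd ω := by
  rw [List.map_map]
  unfold wordProd
  congr 1
  apply List.map_congr_left
  intro j _
  exact d3_f_val M J j

private lemma d3_braid (M : CoxeterMatrix B) (J : Set B) : ∀ i ∈ J, ∀ j ∈ J, i ≠ j →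
      ((braidWord M i j).map (d3_f M J)).prod = ((braidWord M j i).map (d3_f M J)).prod := by
  intro i hi j hj _
  have h1 : braidWord M i j =
      (braidWord (resM M J) ⟨i, hi⟩ ⟨j, hj⟩).map (fun j : J => (j : B)) := by
    unfold braidWord
    rw [d3_map_alt, resM_apply]
  have h2 : braidWord M j i =
      (braidWord (resM M J) ⟨j, hj⟩ ⟨i, hi⟩).map (fun j : J => (j : B)) := by
    unfold braidWord
    rw [d3_map_alt, resM_apply]
  rw [h1, h2, d3_f_word, d3_f_word]
  exact (resM M J).toCoxeterSystem.wordProd_braidWord_eq _ _

/-- reduced words of the restricted group are reduced -/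
private lemma d3_reduced (cs : CoxeterSystem M W) (hM : ∀ i j, M i j ≠ 0) (J : Set B) (ω : List J)
    (hω : (resM M J).toCoxeterSystem.IsReduced ω) :
    cs.IsReduced (ω.map (fun j : J => (j : B))) := by
  induction ω using List.reverseRecOn with
  | nil => simp [CoxeterSystem.IsReduced]
  | append_singleton α j ih =>
    have hα : (resM M J).toCoxeterSystem.IsReduced α := by
      have := hω.take α.length
      rwa [List.take_left] at this
    have ih := ih hα
    rw [List.map_append, List.map_singleton]
    rcases cs.length_mul_simple (cs.wordProd (α.map (fun j : J => (j : B)))) (j : B) with h | h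
    · unfold CoxeterSystem.IsReduced
      rw [wordProd_append, wordProd_singleton, h, ih.eq, List.length_append, List.length_singleton]
    · exfalso
      have hd : cs.IsRightDescent (cs.wordProd (α.map (fun j : J => (j : B)))) (j : B) := by
        unfold IsRightDescent; omega
      obtain ⟨k, hk, he⟩ := exchange_right cs ih hd
      rw [List.eraseIdx_map] at he
      rw [List.length_map] at hk
      have hlen : (α.eraseIdx k).length + 1 = α.length := List.length_eraseIdx_add_one hk
      have he2 : cs.wordProd ((α.eraseIdx k ++ [j]).map (fun j : J => (j : B))) =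
          cs.wordProd (α.map (fun j : J => (j : B))) := by
        rw [List.map_append, List.map_singleton, wordProd_append, wordProd_singleton, ← he,
          cs.simple_mul_simple_cancel_right]
      have hred : cs.IsReduced ((α.eraseIdx k ++ [j]).map (fun j : J => (j : B))) := by
        unfold CoxeterSystem.IsReduced
        rw [he2, ih.eq]
        simp only [List.length_map, List.length_append, List.length_singleton]
        omega
      have hm := matsumoto cs hM J (d3_f M J) (d3_braid M J) hred ih
        (by intro i hi; simp only [List.mem_map] at hi; obtain ⟨a, _, rfl⟩ := hi; exact a.2)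
        (by intro i hi; simp only [List.mem_map] at hi; obtain ⟨a, _, rfl⟩ := hi; exact a.2)
        he2
      rw [d3_f_word, d3_f_word, wordProd_append, wordProd_singleton] at hm
      have h3 : (resM M J).toCoxeterSystem.wordProd (α ++ [j]) =
          (resM M J).toCoxeterSystem.wordProd (α.eraseIdx k) := by
        rw [wordProd_append, wordProd_singleton, ← hm,
          (resM M J).toCoxeterSystem.simple_mul_simple_cancel_right]
      have h4 := hω.eq
      rw [h3] at h4
      have h5 := (resM M J).toCoxeterSystem.length_wordProd_le (α.eraseIdx k)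
      rw [h4, List.length_append, List.length_singleton] at h5
      omega

private lemma d3_injective (cs : CoxeterSystem M W) (hM : ∀ i j, M i j ≠ 0) (J : Set B) :
    Function.Injective (d3_phi cs J) := by
  rw [injective_iff_map_eq_one]
  intro x hx
  obtain ⟨ω, hω, rfl⟩ := (resM M J).toCoxeterSystem.exists_isReduced x
  rw [d3_phi_word] at hx
  have h1 := (d3_reduced cs hM J ω hω).eq
  rw [hx, cs.length_one, List.length_map] at h1
  have h2 : ω = [] := List.length_eq_zero_iff.1 h1.symm
  rw [h2, wordProd_nil]

theorem card_res (cs : CoxeterSystem M W) (hM : ∀ i j, M i j ≠ 0) (J : Set B) :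
    Nat.card (resM M J).Group = Nat.card (par cs J) := by
  rw [← d3_range cs J]
  exact Nat.card_congr (MonoidHom.ofInjective (d3_injective cs hM J)).toEquiv

/-- `W_ρ` inside `W_σ` for `ρ ⊆ σ` -/
theorem card_res_res (M : CoxeterMatrix B) {ρ σ : Set B} (h : ρ ⊆ σ)
    (hM : ∀ i ∈ σ, ∀ j ∈ σ, M i j ≠ 0) :
    Nat.card (resM M ρ).Group =
      Nat.card (par (resM M σ).toCoxeterSystem {x : σ | (x : B) ∈ ρ}) := by
  rw [← card_res (resM M σ).toCoxeterSystem (fun i j => hM i i.2 j j.2) {x : σ | (x : B) ∈ ρ}]
  let e : ρ ≃ {x : σ | (x : B) ∈ ρ} :=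
    { toFun := fun x => ⟨⟨x.1, h x.2⟩, x.2⟩
      invFun := fun x => ⟨x.1.1, x.2⟩
      left_inv := fun _ => rfl
      right_inv := fun _ => rfl }
  have he : (resM M ρ).reindex e = resM (resM M σ) {x : σ | (x : B) ∈ ρ} := by
    apply CoxeterMatrix.ext
    rfl
  rw [← he]
  exact (Nat.card_congr ((resM M ρ).reindexGroupEquiv e).toEquiv).symm

end Pool.H8.CDW
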