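import Pool.Agent.H8.CDW.D1

/-!
# [H8 CDW D2] Matsumoto's theorem for words in `J`

PROOF. Strong induction on the length of `ω` (`ω`, `ω'` have the same length `ℓ(w)`).  Both empty: trivial.  `ω = i :: α`, `ω' = j :: β`.  If `i = j` cancel and
use induction.  If `i ≠ j`: `i` and `j` are left descents of `w = π ω`, so `w = π (braidWord M i j) * u`, `ℓ(w) = M i j + ℓ(u)` (`two_descents`);
`u ∈ par J` (all other factors are), let `ν` be a reduced word of `u` in `J` (`mem_par_iff`).  Of the two words `braidWord M i j ++ ν`,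
`braidWord M j i ++ ν` (both reduced words of `w` in `J`, `wordProd_braidWord_eq`, `M.symmetric`) one begins with `i` and the other with
`j` (see `alternatingWord_succ'`; `M i j ≥ 2`).  Compare `ω` with the one beginning with `i` (case `i = j` above), `ω'` with the other one, and
the two with each other by `hf`.
-/

set_option autoImplicit false

namespace Pool.H8.CDW

open CoxeterSystem

variable {B : Type*} {W : Type*} [Group W] {M : CoxeterMatrix B}

theorem d2_mem_alt (i j : B) (m : ℕ) : ∀ x ∈ alternatingWord i j m, x = i ∨ x = j := by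
  induction m generalizing i j with
  | zero => intro x hx; simp [alternatingWord] at hx
  | succ m ih =>
    intro x hx
    rw [alternatingWord_succ', List.mem_cons] at hx
    rcases hx with hx | hx
    · split_ifs at hx
      · exact Or.inr hx
      · exact Or.inl hx
    · exact ih i j x hx

theorem d2_prod_mem (cs : CoxeterSystem M W) {J : Set B} (ω : List B) (h : ∀ i ∈ ω, i ∈ J) :
    cs.wordProd ω ∈ par cs J := by
  induction ω with
  | nil => rw [wordProd_nil]; exact one_mem _
  | cons i ω ih =>
    rw [wordProd_cons]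
    exact mul_mem (simple_mem_par cs (h i List.mem_cons_self))
      (ih fun j hj => h j (List.mem_cons_of_mem _ hj))

theorem d2_red_tail (cs : CoxeterSystem M W) {i : B} {ω : List B} (h : cs.IsReduced (i :: ω)) :
    cs.IsReduced ω := by
  have := h.drop 1
  simpa using this

theorem d2_left (cs : CoxeterSystem M W) {i : B} {ω : List B} (h : cs.IsReduced (i :: ω)) :
    cs.IsLeftDescent (cs.wordProd (i :: ω)) i := by
  unfold IsLeftDescent
  rw [h.eq, wordProd_cons, simple_mul_simple_cancel_left]
  have := cs.length_wordProd_le ω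
  rw [List.length_cons]
  omega

/-- one of the two braid words begins with `i`, the other one with `j` -/
theorem d2_begin (M : CoxeterMatrix B) {i j : B} (hij : i ≠ j) (hM : M i j ≠ 0) :
    (∃ p q, braidWord M i j = i :: p ∧ braidWord M j i = j :: q) ∨
      ∃ p q, braidWord M j i = i :: p ∧ braidWord M i j = j :: q := by
  obtain ⟨m, hm⟩ := Nat.exists_eq_succ_of_ne_zero hM
  have h1 : braidWord M i j = (if Even m then j else i) :: alternatingWord i j m := by
    unfold braidWord
    rw [hm, Nat.succ_eq_add_one, alternatingWord_succ']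
  have h2 : braidWord M j i = (if Even m then i else j) :: alternatingWord j i m := by
    unfold braidWord
    rw [M.symmetric j i, hm, Nat.succ_eq_add_one, alternatingWord_succ']
  by_cases he : Even m
  · rw [if_pos he] at h1 h2
    exact Or.inr ⟨_, _, h2, h1⟩
  · rw [if_neg he] at h1 h2
    exact Or.inl ⟨_, _, h1, h2⟩

theorem matsumoto (cs : CoxeterSystem M W) (hM : ∀ i j, M i j ≠ 0) (J : Set B) {N : Type*} [Monoid N] (f : B → N)
    (hf : ∀ i ∈ J, ∀ j ∈ J, i ≠ j →
      ((braidWord M i j).map f).prod = ((braidWord M j i).map f).prod)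
    {ω ω' : List B} (hω : cs.IsReduced ω) (hω' : cs.IsReduced ω') (hJ : ∀ i ∈ ω, i ∈ J)
    (hJ' : ∀ i ∈ ω', i ∈ J) (h : cs.wordProd ω = cs.wordProd ω') :
    (ω.map f).prod = (ω'.map f).prod := by
  suffices H : ∀ n : ℕ, ∀ ω ω' : List B, ω.length = n → cs.IsReduced ω → cs.IsReduced ω' →
      (∀ i ∈ ω, i ∈ J) → (∀ i ∈ ω', i ∈ J) → cs.wordProd ω = cs.wordProd ω' →
      (ω.map f).prod = (ω'.map f).prod from H _ ω ω' rfl hω hω' hJ hJ' h
  intro n
  induction n with
  | zero =>
    intro ω ω' hn hω hω' _ _ h
    have h1 : ω = [] := List.length_eq_zero_iff.1 hn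
    have h2 : ω'.length = 0 := by
      rw [← hω'.eq, ← h, hω.eq, hn]
    rw [h1, List.length_eq_zero_iff.1 h2]
  | succ n ih =>
    intro ω ω' hn hω hω' hJ hJ' h
    have hn' : ω'.length = n + 1 := by rw [← hω'.eq, ← h, hω.eq, hn]
    -- the case of equal first letters
    have case1 : ∀ (i : B) (α β : List B), (i :: α).length = n + 1 → cs.IsReduced (i :: α) →
        cs.IsReduced (i :: β) → (∀ k ∈ i :: α, k ∈ J) → (∀ k ∈ i :: β, k ∈ J) →
        cs.wordProd (i :: α) = cs.wordProd (i :: β) →
        ((i :: α).map f).prod = ((i :: β).map f).prod := by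
      intro i α β hl h1 h2 h3 h4 h5
      rw [List.map_cons, List.map_cons, List.prod_cons, List.prod_cons]
      congr 1
      refine ih α β (by simpa using hl) (d2_red_tail cs h1) (d2_red_tail cs h2)
        (fun k hk => h3 k (List.mem_cons_of_mem _ hk))
        (fun k hk => h4 k (List.mem_cons_of_mem _ hk)) ?_
      rw [wordProd_cons, wordProd_cons] at h5
      exact mul_left_cancel h5
    obtain ⟨i, α, rfl⟩ : ∃ i α, ω = i :: α := List.exists_cons_of_length_eq_add_one hn
    obtain ⟨j, β, rfl⟩ : ∃ j β, ω' = j :: β := List.exists_cons_of_length_eq_add_one hn'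
    by_cases hij : i = j
    · subst hij
      exact case1 i α β hn hω hω' hJ hJ' h
    have hiJ : i ∈ J := hJ i List.mem_cons_self
    have hjJ : j ∈ J := hJ' j List.mem_cons_self
    set w := cs.wordProd (i :: α) with hw
    have hlw : cs.length w = n + 1 := by rw [hw, hω.eq, hn]
    have hdi : cs.IsLeftDescent w i := d2_left cs hω
    have hdj : cs.IsLeftDescent w j := by rw [h]; exact d2_left cs hω'
    obtain ⟨u, hu1, hu2⟩ := two_descents cs hij (hM i j) hdi hdj
    have hbJ : ∀ k ∈ braidWord M i j, k ∈ J := by
      intro k hk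
      rcases d2_mem_alt i j _ k hk with rfl | rfl <;> assumption
    have hbJ' : ∀ k ∈ braidWord M j i, k ∈ J := by
      intro k hk
      rcases d2_mem_alt j i _ k hk with rfl | rfl <;> assumption
    have huJ : u ∈ par cs J := by
      have e1 : u = (cs.wordProd (braidWord M i j))⁻¹ * w := by
        rw [hu1, inv_mul_cancel_left]
      rw [e1]
      exact mul_mem (inv_mem (d2_prod_mem cs _ hbJ)) (d2_prod_mem cs _ hJ)
    obtain ⟨ν, hν1, hν2, hν3⟩ := (mem_par_iff cs).1 huJ
    have hlen1 : (braidWord M i j).length = M i j := by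
      unfold braidWord
      rw [length_alternatingWord]
    have hlen2 : (braidWord M j i).length = M i j := by
      unfold braidWord
      rw [length_alternatingWord, M.symmetric j i]
    have hp1 : cs.wordProd (braidWord M i j ++ ν) = w := by
      rw [wordProd_append, hν3, hu1]
    have hp2 : cs.wordProd (braidWord M j i ++ ν) = w := by
      rw [wordProd_append, hν3, cs.wordProd_braidWord_eq j i, hu1]
    have hνl : ν.length = cs.length u := by rw [← hν3, hν2.eq]
    have hr1 : cs.IsReduced (braidWord M i j ++ ν) := by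
      unfold CoxeterSystem.IsReduced
      rw [hp1, List.length_append, hlen1, hνl, hu2]
    have hr2 : cs.IsReduced (braidWord M j i ++ ν) := by
      unfold CoxeterSystem.IsReduced
      rw [hp2, List.length_append, hlen2, hνl, hu2]
    have hJ1 : ∀ k ∈ braidWord M i j ++ ν, k ∈ J := by
      intro k hk
      rcases List.mem_append.1 hk with hk | hk
      · exact hbJ k hk
      · exact hν1 k hk
    have hJ2 : ∀ k ∈ braidWord M j i ++ ν, k ∈ J := by
      intro k hk
      rcases List.mem_append.1 hk with hk | hk
      · exact hbJ' k hk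
      · exact hν1 k hk
    have hcmp : ((braidWord M i j ++ ν).map f).prod = ((braidWord M j i ++ ν).map f).prod := by
      rw [List.map_append, List.map_append, List.prod_append, List.prod_append,
        hf i hiJ j hjJ hij]
    rcases d2_begin M hij (hM i j) with ⟨p, q, hp, hq⟩ | ⟨p, q, hp, hq⟩
    · have e1 : ((i :: α).map f).prod = ((braidWord M i j ++ ν).map f).prod := by
        rw [hp] at hr1 hJ1 hp1 ⊢
        exact case1 i α (p ++ ν) hn hω hr1 hJ hJ1 hp1.symm
      have e2 : ((j :: β).map f).prod = ((braidWord M j i ++ ν).map f).prod := by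
        rw [hq] at hr2 hJ2 hp2 ⊢
        exact case1 j β (q ++ ν) hn' hω' hr2 hJ' hJ2 (h.symm.trans hp2.symm)
      rw [e1, e2, hcmp]
    · have e1 : ((i :: α).map f).prod = ((braidWord M j i ++ ν).map f).prod := by
        rw [hp] at hr2 hJ2 hp2 ⊢
        exact case1 i α (p ++ ν) hn hω hr2 hJ hJ2 hp2.symm
      have e2 : ((j :: β).map f).prod = ((braidWord M i j ++ ν).map f).prod := by
        rw [hq] at hr1 hJ1 hp1 ⊢
        exact case1 j β (q ++ ν) hn' hω' hr1 hJ' hJ1 (h.symm.trans hp1.symm)
      rw [e1, e2, hcmp]

end Pool.H8.CDW
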