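import Mathlib

/-!
# Mod 2 homology spheres among flag complexes

`Link G t` : the faces of the link of `t` in the clique complex of `G` (finite sets `s` disjoint from `t` with
`s ∪ t` a clique).  `cob g s = ∑ v ∈ s, g (s - v)` is the mod 2 coboundary of a cochain `g`.
`Sphere G N` : for every clique `t` the augmented mod 2 cochain complex of the link of `t` is exact
except on the faces with `N - |t|` vertices, where its cohomology is one dimensional, and no clique has more
than `N` vertices.
-/

set_option autoImplicit false

namespace Pool.H8.CDW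

variable {V : Type*}

/-- `s` is a face of the link of `t` -/
def Link (G : SimpleGraph V) (t s : Finset V) : Prop :=
  Disjoint s t ∧ G.IsClique (↑s ∪ ↑t : Set V)

/-- mod 2 coboundary -/
def cob [DecidableEq V] (g : Finset V → ZMod 2) (s : Finset V) : ZMod 2 := ∑ v ∈ s, g (s.erase v)

/-- `g` is, on the faces of the link of `t` with `k` vertices, a coboundary -/
def IsCob [DecidableEq V] (G : SimpleGraph V) (t : Finset V) (k : ℕ) (g : Finset V → ZMod 2) : Prop :=
  ∃ h : Finset V → ZMod 2, ∀ s, Link G t s → s.card = k → g s = cob h s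

/-- mod 2 homology sphere of dimension `N - 1` all of whose links are spheres -/
structure Sphere [DecidableEq V] (G : SimpleGraph V) (N : ℕ) : Prop where
  card_le : ∀ t : Finset V, G.IsClique (↑t : Set V) → t.card ≤ N
  exact : ∀ t : Finset V, G.IsClique (↑t : Set V) → ∀ k, k + t.card < N →
    ∀ g : Finset V → ZMod 2, (∀ s, Link G t s → s.card = k + 1 → cob g s = 0) → IsCob G t k g
  top : ∀ t : Finset V, G.IsClique (↑t : Set V) → ∃ k, k + t.card = N ∧
    ∃ g : Finset V → ZMod 2, ¬ IsCob G t k g ∧ ∀ g' : Finset V → ZMod 2,
      IsCob G t k g' ∨ IsCob G t k (fun s => g' s + g s)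

open Classical in
/-- `∑ (-1/2)^|s|` over the faces `s` of the link of `t` -/
noncomputable def kap [Fintype V] (G : SimpleGraph V) (t : Finset V) : ℚ :=
  ∑ s ∈ Finset.univ.filter (fun s : Finset V => Link G t s), (-1 / 2 : ℚ) ^ s.card

open Classical in
/-- `∑ (-1)^|s|` over the faces `s` of the link of `t` -/
noncomputable def eul [Fintype V] (G : SimpleGraph V) (t : Finset V) : ℚ :=
  ∑ s ∈ Finset.univ.filter (fun s : Finset V => Link G t s), (-1 : ℚ) ^ s.card

end Pool.H8.CDW
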