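import Pool.Agent.H8.CDW.Par

/-!
# [H8 CDW A1] the parity of the number of inversions is well defined

PROOF. Let `T = {t // cs.IsReflection t}`.  For `i : B` let `p i : Equiv.Perm (T × ZMod 2)`,
`p i (t, z) = (s_i t s_i, z + (if t = s_i then 1 else 0))`, an involution.  For a word `ω = i_1 :: ... :: i_k`, applying
first `p i_1`, then `p i_2`, ..., gives on `(t, z)` the value
`((π ω)⁻¹ t (π ω), z + count t (leftInvSeq ω))`: induction on `ω`,
`leftInvSeq (i :: ω) = s i :: map (MulAut.conj (s i)) (leftInvSeq ω)`, and the count of `t` in the mapped list is the count of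
`s_i t s_i` in `leftInvSeq ω`.  `(p i * p j) ^ M i j = 1`: apply the formula to the alternating word of length `2 * M i j`
(`prod_alternatingWord_eq_mul_pow`, its product is `1`); its left inversion sequence has `k`-th entry
`π (alternatingWord j i (2 k + 1))` (`getElem_leftInvSeq_alternatingWord`), which is the same for `k` and `k + M i j`, so every
count is even (if `M i j = 0` there is nothing to prove).  So `i ↦ p i` is liftable (`CoxeterSystem.lift`), and the permutation attached to a word
depends only on its product (up to inversion of the order of composition).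
-/

set_option autoImplicit false

namespace Pool.H8.CDW

open CoxeterSystem

variable {B : Type*} {W : Type*} [Group W] {M : CoxeterMatrix B}

lemma a1_conj_eq_iff (cs : CoxeterSystem M W) (i : B) (t u : W) :
    cs.simple i * t * cs.simple i = u ↔ t = cs.simple i * u * cs.simple i := by
  constructor
  · rintro rfl
    simp [mul_assoc]
  · rintro rfl
    simp [mul_assoc]

/-- the permutation attached to a generator -/
def a1_p [DecidableEq W] (cs : CoxeterSystem M W) (i : B) : Equiv.Perm (W × ZMod 2) where
  toFun x := (cs.simple i * x.1 * cs.simple i, x.2 + if x.1 = cs.simple i then 1 else 0)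
  invFun x := (cs.simple i * x.1 * cs.simple i, x.2 + if x.1 = cs.simple i then 1 else 0)
  left_inv x := by
    rcases x with ⟨t, z⟩
    have h1 : (cs.simple i * t * cs.simple i = cs.simple i) ↔ t = cs.simple i := by
      rw [a1_conj_eq_iff]
      simp [mul_assoc]
    have h2 : cs.simple i * (cs.simple i * t * cs.simple i) * cs.simple i = t := by
      simp [mul_assoc]
    refine Prod.ext h2 ?_
    simp only [h1]
    split_ifs
    · rw [add_assoc, show (1 : ZMod 2) + 1 = 0 from rfl, add_zero]
    · simp
  right_inv x := by
    rcases x with ⟨t, z⟩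
    have h1 : (cs.simple i * t * cs.simple i = cs.simple i) ↔ t = cs.simple i := by
      rw [a1_conj_eq_iff]
      simp [mul_assoc]
    have h2 : cs.simple i * (cs.simple i * t * cs.simple i) * cs.simple i = t := by
      simp [mul_assoc]
    refine Prod.ext h2 ?_
    simp only [h1]
    split_ifs
    · rw [add_assoc, show (1 : ZMod 2) + 1 = 0 from rfl, add_zero]
    · simp

lemma a1_p_inv [DecidableEq W] (cs : CoxeterSystem M W) (i : B) : (a1_p cs i)⁻¹ = a1_p cs i := rfl

lemma a1_p_apply [DecidableEq W] (cs : CoxeterSystem M W) (i : B) (t : W) (z : ZMod 2) :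
    a1_p cs i (t, z) =
      (cs.simple i * t * cs.simple i, z + if t = cs.simple i then 1 else 0) := rfl

lemma a1_count_map [DecidableEq W] (cs : CoxeterSystem M W) (i : B) (t : W) (l : List W) :
    (l.map (MulAut.conj (cs.simple i))).count t = l.count (cs.simple i * t * cs.simple i) := by
  induction l with
  | nil => simp
  | cons a l ih =>
    rw [List.map_cons, List.count_cons, List.count_cons, ih]
    congr 1
    have : (MulAut.conj (cs.simple i) a = t) ↔ (a = cs.simple i * t * cs.simple i) := by
      rw [MulAut.conj_apply, cs.inv_simple, a1_conj_eq_iff]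
    simp only [beq_iff_eq, this]

lemma a1_formula [DecidableEq W] (cs : CoxeterSystem M W) (ω : List B) (t : W) (z : ZMod 2) :
    ((ω.map (a1_p cs)).prod)⁻¹ (t, z) =
      ((cs.wordProd ω)⁻¹ * t * cs.wordProd ω, z + ((cs.leftInvSeq ω).count t : ℕ)) := by
  induction ω generalizing t z with
  | nil => simp
  | cons i ω ih =>
    rw [List.map_cons, List.prod_cons, mul_inv_rev, Equiv.Perm.mul_apply, a1_p_inv, a1_p_apply,
      ih]
    refine Prod.ext ?_ ?_
    · simp [cs.wordProd_cons, mul_assoc]
    · simp only [leftInvSeq, List.count_cons, a1_count_map, beq_iff_eq]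
      rw [add_assoc]
      congr 1
      rw [Nat.cast_add, add_comm]
      congr 1
      by_cases h : t = cs.simple i
      · simp [h]
      · have h' : ¬ cs.simple i = t := fun e => h e.symm
        simp [h, h']

lemma a1_alt_succ (i j : B) (n : ℕ) :
    alternatingWord i j (2 * (n + 1)) = i :: j :: alternatingWord i j (2 * n) := by
  rw [show 2 * (n + 1) = (2 * n + 1) + 1 by ring, alternatingWord_succ', alternatingWord_succ']
  have h1 : ¬ Even (2 * n + 1) := by
    rw [Nat.not_even_iff_odd]
    exact ⟨n, rfl⟩
  have h2 : Even (2 * n) := ⟨n, by ring⟩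
  rw [if_neg h1, if_pos h2]

lemma a1_map_alt {G : Type*} [Monoid G] (f : B → G) (i j : B) (n : ℕ) :
    ((alternatingWord i j (2 * n)).map f).prod = (f i * f j) ^ n := by
  induction n with
  | zero => simp [alternatingWord]
  | succ n ih =>
    rw [a1_alt_succ, List.map_cons, List.map_cons, List.prod_cons, List.prod_cons, ih, pow_succ',
      mul_assoc]

lemma a1_leftInvSeq_alt (cs : CoxeterSystem M W) (i j : B) (n : ℕ) :
    cs.leftInvSeq (alternatingWord i j (2 * n)) =
      (List.range (2 * n)).map (fun k => cs.simple i * (cs.simple j * cs.simple i) ^ k) := by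
  apply List.ext_getElem
  · simp
  · intro k h1 h2
    have hk : k < 2 * n := by simpa using h1
    rw [cs.getElem_leftInvSeq_alternatingWord i j n k hk, List.getElem_map, List.getElem_range,
      cs.prod_alternatingWord_eq_mul_pow]
    have h1 : ¬ Even (2 * k + 1) := by
      rw [Nat.not_even_iff_odd]
      exact ⟨k, rfl⟩
    rw [if_neg h1]
    congr 2
    omega

lemma a1_count_alt [DecidableEq W] (cs : CoxeterSystem M W) (i j : B) (t : W) :
    (((cs.leftInvSeq (alternatingWord i j (2 * M i j))).count t : ℕ) : ZMod 2) = 0 := by
  rw [a1_leftInvSeq_alt, two_mul, List.range_add, List.map_append, List.map_map]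
  have : (List.map ((fun k => cs.simple i * (cs.simple j * cs.simple i) ^ k) ∘ fun x => M i j + x)
      (List.range (M i j))) =
      List.map (fun k => cs.simple i * (cs.simple j * cs.simple i) ^ k) (List.range (M i j)) := by
    apply List.map_congr_left
    intro k _
    simp only [Function.comp]
    rw [pow_add]
    have h := cs.simple_mul_simple_pow' i j
    rw [h, one_mul]
  rw [this, List.count_append, ← two_mul]
  push_cast
  rw [show (2 : ZMod 2) = 0 from rfl, zero_mul]

lemma a1_liftable [DecidableEq W] (cs : CoxeterSystem M W) :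
    M.IsLiftable (a1_p cs) := by
  intro i j
  rw [← a1_map_alt, ← inv_inj, inv_one]
  ext1 x
  rcases x with ⟨t, z⟩
  rw [a1_formula, a1_count_alt]
  have h : cs.wordProd (alternatingWord i j (2 * M i j)) = 1 := by
    unfold wordProd
    rw [a1_map_alt, cs.simple_mul_simple_pow]
  rw [h]
  simp

theorem count_parity [DecidableEq W] (cs : CoxeterSystem M W) {ω ω' : List B}
    (h : cs.wordProd ω = cs.wordProd ω') {t : W} (ht : cs.IsReflection t) :
    (cs.leftInvSeq ω).count t % 2 = (cs.leftInvSeq ω').count t % 2 := by
  have key : ∀ ω : List B, ((ω.map (a1_p cs)).prod) =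
      cs.lift ⟨a1_p cs, a1_liftable cs⟩ (cs.wordProd ω) := by
    intro ω
    unfold wordProd
    rw [map_list_prod, List.map_map]
    congr 1
    apply List.map_congr_left
    intro i _
    simp [cs.lift_apply_simple (a1_liftable cs)]
  have h1 := a1_formula cs ω t 0
  have h2 := a1_formula cs ω' t 0
  rw [key, h, ← key, h2] at h1
  have h3 := congrArg Prod.snd h1
  simp only [zero_add] at h3
  rw [ZMod.natCast_eq_natCast_iff'] at h3
  exact h3.symm

end Pool.H8.CDW
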