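import Pool.Agent.H8.CDW.A1

/-!
# [H8 CDW A2] exchange condition

PROOF (left). `w = π ω`, `ℓ(s_i w) < ℓ(w)`.  Let `ν` be a reduced word of `s_i w`; then `i :: ν` is a word of `w` of length
`ℓ(w)`, so it is reduced, its left inversion sequence `s_i :: ...` has no repetitions (`IsReduced.nodup_leftInvSeq`), so the
count of `s_i` in it is `1`.  By `count_parity` the count of `s_i` in `leftInvSeq ω` is odd, so `s_i` is its `j`-th entry for some
`j < ω.length`, and `getD_leftInvSeq_mul_wordProd` gives `s_i * π ω = π (ω.eraseIdx j)`.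
Right: apply the left form to `ω.reverse` (`wordProd_reverse`, `isReduced_reverse_iff`).
-/

set_option autoImplicit false

namespace Pool.H8.CDW

open CoxeterSystem

variable {B : Type*} {W : Type*} [Group W] {M : CoxeterMatrix B}

theorem exchange_left (cs : CoxeterSystem M W) {ω : List B} (hω : cs.IsReduced ω) {i : B}
    (h : cs.IsLeftDescent (cs.wordProd ω) i) :
    ∃ j < ω.length, cs.simple i * cs.wordProd ω = cs.wordProd (ω.eraseIdx j) := by
  classical
  obtain ⟨ν, hν, hνw⟩ := cs.exists_isReduced (cs.simple i * cs.wordProd ω)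
  have hw : cs.wordProd ω = cs.wordProd (i :: ν) := by
    rw [cs.wordProd_cons, ← hνw]
    simp
  have hlen : cs.length (cs.wordProd ω) = ν.length + 1 := by
    have h1 := cs.isLeftDescent_iff.1 h
    rw [← h1, hνw, hν]
  have hred : cs.IsReduced (i :: ν) := by
    unfold CoxeterSystem.IsReduced
    rw [← hw, hlen]
    simp
  have hcount : (cs.leftInvSeq (i :: ν)).count (cs.simple i) = 1 :=
    List.count_eq_one_of_mem hred.nodup_leftInvSeq (by simp [leftInvSeq])
  have hpar := count_parity cs hw (cs.isReflection_simple i)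
  rw [hcount] at hpar
  have hmem : cs.simple i ∈ cs.leftInvSeq ω := by
    by_contra hn
    rw [List.count_eq_zero_of_not_mem hn] at hpar
    simp at hpar
  obtain ⟨j, hj, hje⟩ := List.mem_iff_getElem.1 hmem
  have hj' : j < ω.length := by simpa using hj
  refine ⟨j, hj', ?_⟩
  rw [← cs.getD_leftInvSeq_mul_wordProd ω j, List.getD_eq_getElem _ _ hj, hje]

theorem exchange_right (cs : CoxeterSystem M W) {ω : List B} (hω : cs.IsReduced ω) {i : B}
    (h : cs.IsRightDescent (cs.wordProd ω) i) :
    ∃ j < ω.length, cs.wordProd ω * cs.simple i = cs.wordProd (ω.eraseIdx j) := by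
  have hω' : cs.IsReduced ω.reverse := (cs.isReduced_reverse_iff ω).2 hω
  have h' : cs.IsLeftDescent (cs.wordProd ω.reverse) i := by
    rw [cs.wordProd_reverse, cs.isLeftDescent_inv_iff]
    exact h
  obtain ⟨j, hj, e⟩ := exchange_left cs hω' h'
  rw [List.length_reverse] at hj
  refine ⟨ω.length - 1 - j, by omega, ?_⟩
  have e2 := congrArg (fun x => x⁻¹) e
  simp only [cs.wordProd_reverse, mul_inv_rev, inv_inv, cs.inv_simple] at e2
  rw [e2, ← cs.wordProd_reverse, List.eraseIdx_eq_take_drop_succ, List.eraseIdx_eq_take_drop_succ,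
    List.reverse_append, List.drop_reverse, List.take_reverse, List.reverse_reverse,
    List.reverse_reverse]
  congr 3
  all_goals omega

end Pool.H8.CDW
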