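import Pool.Agent.H8.CDW.A2

/-!
# [H8 CDW B1] deletion, words in parabolic subgroups

`deletion`: induction on the length of `ω` from the right: `ω = ν.concat i`; take a reduced sublist `ν'` of `ν` with the same product;
if `π ν' * s_i` is longer than `π ν'` then `ν'.concat i` is reduced, otherwise `exchange_right` deletes a letter of `ν'`,
`π ν' * s_i = π (ν'.eraseIdx j)`, which has length `ℓ(π ν') - 1 = length (ν'.eraseIdx j)`, so it is reduced.
`mem_par_iff`: an element of the subgroup is a product of letters of `J` (inverse of `s_i` is `s_i`; `Subgroup.closure_induction`),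
then `deletion`.
`letters_of_reduced`: induction on `ω = i :: ω'`: `w = π ω` has also a reduced word `ν` in `J`; `i` is a left descent of `w`, so
`s_i w = π (ν.eraseIdx j)` and `s_i = π (ν.eraseIdx j) w⁻¹ ∈ par J`; a reduced word in `J` of `s_i` has length `1` (`length_simple`), so
`s_i = s_j`, `j ∈ J`, and `i = j` by injectivity; then `π ω' = s_i w ∈ par J`, `ω'` is reduced.
`par_inter`: from `letters_of_reduced`.
-/

set_option autoImplicit false

namespace Pool.H8.CDW

open CoxeterSystem

variable {B : Type*} {W : Type*} [Group W] {M : CoxeterMatrix B}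

theorem deletion (cs : CoxeterSystem M W) (ω : List B) :
    ∃ ω' : List B, ω'.Sublist ω ∧ cs.IsReduced ω' ∧ cs.wordProd ω' = cs.wordProd ω := by
  induction ω using List.reverseRecOn with
  | nil =>
    refine ⟨[], List.Sublist.refl _, ?_, rfl⟩
    show cs.length (cs.wordProd []) = 0
    rw [wordProd_nil, length_one]
  | append_singleton ν i ih =>
    obtain ⟨ν', h1, h2, h3⟩ := ih
    have h2' := h2.eq
    rcases cs.length_mul_simple (cs.wordProd ν') i with h | h
    · refine ⟨ν' ++ [i], h1.append (List.Sublist.refl _), ?_, ?_⟩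
      · show cs.length (cs.wordProd (ν' ++ [i])) = (ν' ++ [i]).length
        rw [wordProd_append, wordProd_singleton, h, h2', List.length_append, List.length_singleton]
      · rw [wordProd_append, wordProd_append, h3]
    · have hd : cs.IsRightDescent (cs.wordProd ν') i := (cs.isRightDescent_iff).2 h
      obtain ⟨j, hj, he⟩ := exchange_right cs h2 hd
      refine ⟨ν'.eraseIdx j, ((List.eraseIdx_sublist _ _).trans h1).trans
        (List.sublist_append_left _ _), ?_, ?_⟩
      · show cs.length (cs.wordProd (ν'.eraseIdx j)) = (ν'.eraseIdx j).length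
        rw [← he, List.length_eraseIdx_of_lt hj]
        omega
      · rw [← he, h3, wordProd_append, wordProd_singleton]

theorem b1_word_mem (cs : CoxeterSystem M W) {J : Set B} (ω : List B) (h : ∀ i ∈ ω, i ∈ J) :
    cs.wordProd ω ∈ par cs J := by
  induction ω with
  | nil =>
    rw [wordProd_nil]
    exact one_mem _
  | cons i ω ih =>
    rw [wordProd_cons]
    exact mul_mem (simple_mem_par cs (h i List.mem_cons_self))
      (ih fun k hk => h k (List.mem_cons_of_mem _ hk))

theorem b1_exists_word (cs : CoxeterSystem M W) {J : Set B} {w : W} (hw : w ∈ par cs J) :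
    ∃ ω : List B, (∀ i ∈ ω, i ∈ J) ∧ cs.wordProd ω = w := by
  unfold par at hw
  induction hw using Subgroup.closure_induction with
  | mem x hx =>
    obtain ⟨i, hi, rfl⟩ := hx
    exact ⟨[i], by simpa using hi, by simp⟩
  | one => exact ⟨[], by simp, by simp⟩
  | mul x y _ _ hx hy =>
    obtain ⟨a, ha, rfl⟩ := hx
    obtain ⟨b, hb, rfl⟩ := hy
    refine ⟨a ++ b, fun i hi => ?_, by rw [wordProd_append]⟩
    rcases List.mem_append.1 hi with h | h
    · exact ha i h
    · exact hb i h
  | inv x _ hx =>
    obtain ⟨a, ha, rfl⟩ := hx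
    exact ⟨a.reverse, fun i hi => ha i (List.mem_reverse.1 hi), by rw [wordProd_reverse]⟩

theorem mem_par_iff (cs : CoxeterSystem M W) {J : Set B} {w : W} :
    w ∈ par cs J ↔ ∃ ω : List B, (∀ i ∈ ω, i ∈ J) ∧ cs.IsReduced ω ∧ cs.wordProd ω = w := by
  constructor
  · intro hw
    obtain ⟨ω, h1, h2⟩ := b1_exists_word cs hw
    obtain ⟨ω', h3, h4, h5⟩ := deletion cs ω
    exact ⟨ω', fun i hi => h1 i (h3.subset hi), h4, h5.trans h2⟩
  · rintro ⟨ω, h1, _, rfl⟩
    exact b1_word_mem cs ω h1

theorem b1_simple (cs : CoxeterSystem M W) (hinj : Function.Injective cs.simple)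
    {J : Set B} {i : B} (h : cs.simple i ∈ par cs J) : i ∈ J := by
  obtain ⟨ω, h1, h2, h3⟩ := (mem_par_iff cs).1 h
  have h4 : ω.length = 1 := by rw [← h2.eq, h3, cs.length_simple]
  obtain ⟨j, rfl⟩ := List.length_eq_one_iff.1 h4
  rw [wordProd_singleton] at h3
  have := hinj h3
  rw [← this]
  exact h1 j (by simp)

theorem letters_of_reduced (cs : CoxeterSystem M W) (hinj : Function.Injective cs.simple)
    {J : Set B} {ω : List B} (hω : cs.IsReduced ω) (h : cs.wordProd ω ∈ par cs J) :
    ∀ i ∈ ω, i ∈ J := by
  induction ω with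
  | nil => intro i hi; exact absurd hi (List.not_mem_nil)
  | cons i ω ih =>
    have hω' : cs.IsReduced ω := by
      have := hω.drop 1
      simpa using this
    obtain ⟨ν, h1, h2, h3⟩ := (mem_par_iff cs).1 h
    have e1 := hω.eq
    have e2 := hω'.eq
    have e3 : cs.simple i * cs.wordProd (i :: ω) = cs.wordProd ω := by
      rw [wordProd_cons, cs.simple_mul_simple_cancel_left]
    have hd : cs.IsLeftDescent (cs.wordProd ν) i := by
      show cs.length (cs.simple i * cs.wordProd ν) < cs.length (cs.wordProd ν)
      rw [h3, e3, e1, e2]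
      simp
    obtain ⟨j, hj, he⟩ := exchange_left cs h2 hd
    have h4 : cs.wordProd ω ∈ par cs J := by
      rw [← e3, ← h3, he]
      exact b1_word_mem cs _ (fun k hk => h1 k ((List.eraseIdx_sublist _ _).subset hk))
    have h5 : cs.simple i ∈ par cs J := by
      have : cs.simple i = cs.wordProd (i :: ω) * (cs.wordProd ω)⁻¹ := by
        rw [wordProd_cons, mul_assoc, mul_inv_cancel, mul_one]
      rw [this]
      exact mul_mem h (inv_mem h4)
    intro k hk
    rcases List.mem_cons.1 hk with e | e
    · rw [e]
      exact b1_simple cs hinj h5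
    · exact ih hω' h4 k e

theorem par_inter (cs : CoxeterSystem M W) (hinj : Function.Injective cs.simple) (I J : Set B) :
    par cs I ⊓ par cs J = par cs (I ∩ J) := by
  apply le_antisymm
  · rintro w ⟨h1, h2⟩
    obtain ⟨ω, h3, h4, rfl⟩ := (mem_par_iff cs).1 h1
    exact b1_word_mem cs ω fun i hi => ⟨h3 i hi, letters_of_reduced cs hinj h4 h2 i hi⟩
  · exact le_inf (par_mono cs Set.inter_subset_left) (par_mono cs Set.inter_subset_right)

/-- intersection of all the maximal parabolic subgroups of types in a finite set -/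
theorem par_compl (cs : CoxeterSystem M W) (hinj : Function.Injective cs.simple) (A : Finset B) {w : W} :
    w ∈ par cs ((↑A : Set B)ᶜ) ↔ ∀ v ∈ A, w ∈ par cs ({v}ᶜ : Set B) := by
  constructor
  · intro h v hv
    refine par_mono cs ?_ h
    intro x hx e
    rw [Set.mem_singleton_iff] at e
    exact hx (by rw [e]; exact hv)
  · intro h
    obtain ⟨ω, h1, rfl⟩ := cs.exists_isReduced w
    refine b1_word_mem cs ω fun i hi hA => ?_
    exact letters_of_reduced cs hinj h1 (h i hA) i hi rfl

end Pool.H8.CDW
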