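import Pool.Agent.H8.CDW.B1

/-!
# [H8 CDW B2] shortest coset representatives

`IsMin cs J u`: no `j ∈ J` is a right descent of `u`.
FIRST for `u` of minimal length in the coset `u * par J` show `ℓ(u y) = ℓ(u) + ℓ(y)` for `y ∈ par J`: take a reduced word of `y` in `J`
(`mem_par_iff`), induction on it from the right, `y = y' s_j`, `ℓ(y) = ℓ(y') + 1`; with reduced words `α` of `u`, `β` of `y'`,
`α ++ β` is reduced by induction; if `ℓ(u y' s_j) < ℓ(u y')` then `exchange_right` deletes a letter of `α ++ β`: a letter of `β` gives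
`y' s_j` shorter than `y'` (contradiction), a letter of `α` gives `u (y' s_j y'⁻¹) = π (α.eraseIdx k)` shorter than `u` in the same coset.
THEN: if `IsMin cs J u` and `u₀` is of minimal length in `u * par J`, `u = u₀ y`; if `y ≠ 1` then `y` has a right descent `j ∈ J`
(last letter of a reduced word in `J`) and `ℓ(u s_j) = ℓ(u₀) + ℓ(y s_j) < ℓ(u)`, contradiction; so `u = u₀`.
-/

set_option autoImplicit false

namespace Pool.H8.CDW

open CoxeterSystem

variable {B : Type*} {W : Type*} [Group W] {M : CoxeterMatrix B}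

/-- no element of `J` is a right descent -/
def IsMin (cs : CoxeterSystem M W) (J : Set B) (u : W) : Prop := ∀ j ∈ J, ¬ cs.IsRightDescent u j

private lemma b2_word_mem (cs : CoxeterSystem M W) {J : Set B} {ω : List B}
    (h : ∀ i ∈ ω, i ∈ J) : cs.wordProd ω ∈ par cs J := by
  induction ω with
  | nil => rw [cs.wordProd_nil]; exact one_mem _
  | cons i ω ih =>
    rw [cs.wordProd_cons]
    exact mul_mem (simple_mem_par cs (h i (by simp))) (ih (fun j hj => h j (by simp [hj])))

/-- minimal length in the coset -/
private def B2Low (cs : CoxeterSystem M W) (J : Set B) (u : W) : Prop :=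
  ∀ y ∈ par cs J, cs.length u ≤ cs.length (u * y)

private lemma b2_low_word (cs : CoxeterSystem M W) {J : Set B} {u : W} (hu : B2Low cs J u)
    (ω : List B) : (∀ i ∈ ω, i ∈ J) → cs.IsReduced ω →
      cs.length (u * cs.wordProd ω) = cs.length u + ω.length := by
  induction ω using List.reverseRecOn with
  | nil => intro _ _; simp
  | append_singleton ν j ih =>
    intro hJ hred
    have hνJ : ∀ i ∈ ν, i ∈ J := fun i hi => hJ i (by simp [hi])
    have hjJ : j ∈ J := hJ j (by simp)
    have hν : cs.IsReduced ν := by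
      have := hred.take ν.length
      simpa using this
    have h1 := ih hνJ hν
    have hprod : cs.wordProd (ν ++ [j]) = cs.wordProd ν * cs.simple j := by
      rw [cs.wordProd_append, cs.wordProd_singleton]
    rw [hprod, ← mul_assoc]
    rcases cs.length_mul_simple (u * cs.wordProd ν) j with h2 | h2
    · rw [h2, h1, List.length_append, List.length_singleton]; ring
    · exfalso
      obtain ⟨α, hα, hαu⟩ := cs.exists_isReduced u
      have hαν : cs.IsReduced (α ++ ν) := by
        unfold CoxeterSystem.IsReduced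
        rw [cs.wordProd_append, ← hαu, h1, hαu, hα.eq, List.length_append]
      have hdesc : cs.IsRightDescent (cs.wordProd (α ++ ν)) j := by
        unfold CoxeterSystem.IsRightDescent
        rw [cs.wordProd_append, ← hαu]
        omega
      obtain ⟨k, hk, hk2⟩ := exchange_right cs hαν hdesc
      by_cases hkα : k < α.length
      · rw [List.eraseIdx_append_of_lt_length hkα, cs.wordProd_append, cs.wordProd_append,
          ← hαu] at hk2
        have h3 : u * (cs.wordProd ν * cs.simple j * (cs.wordProd ν)⁻¹) =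
            cs.wordProd (α.eraseIdx k) := by
          rw [← mul_assoc, ← mul_assoc, hk2, mul_assoc, mul_inv_cancel, mul_one]
        have h4 := hu _ (mul_mem (mul_mem (b2_word_mem cs hνJ) (simple_mem_par cs hjJ))
          (inv_mem (b2_word_mem cs hνJ)))
        rw [h3] at h4
        have h5 := cs.length_wordProd_le (α.eraseIdx k)
        rw [List.length_eraseIdx_of_lt hkα] at h5
        have h6 : cs.length u = α.length := by rw [hαu, hα.eq]
        omega
      · have hkα' : α.length ≤ k := not_lt.1 hkα
        rw [List.eraseIdx_append_of_length_le hkα', cs.wordProd_append, cs.wordProd_append,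
          mul_assoc] at hk2
        have h3 := mul_left_cancel hk2
        have h4 : cs.length (cs.wordProd (ν ++ [j])) = (ν ++ [j]).length := hred.eq
        rw [hprod, h3] at h4
        have h5 := cs.length_wordProd_le (ν.eraseIdx (k - α.length))
        have h6 : (ν.eraseIdx (k - α.length)).length ≤ ν.length := List.length_eraseIdx_le _ _
        rw [List.length_append, List.length_singleton] at h4
        omega

private lemma b2_low_add (cs : CoxeterSystem M W) {J : Set B} {u : W} (hu : B2Low cs J u) {y : W}
    (hy : y ∈ par cs J) : cs.length (u * y) = cs.length u + cs.length y := by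
  obtain ⟨ω, hω, hred, rfl⟩ := (mem_par_iff cs).1 hy
  rw [b2_low_word cs hu ω hω hred, hred.eq]

private lemma b2_exists_low (cs : CoxeterSystem M W) (J : Set B) (w : W) :
    ∃ y ∈ par cs J, B2Low cs J (w * y) := by
  classical
  have hne : ∃ n, ∃ y ∈ par cs J, cs.length (w * y) = n := ⟨_, 1, one_mem _, rfl⟩
  obtain ⟨y, hy, hn⟩ := Nat.find_spec hne
  refine ⟨y, hy, fun z hz => ?_⟩
  rw [hn, mul_assoc]
  exact Nat.find_min' hne ⟨y * z, mul_mem hy hz, rfl⟩

private lemma b2_low_isMin (cs : CoxeterSystem M W) {J : Set B} {u : W} (hu : B2Low cs J u) :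
    IsMin cs J u := by
  intro j hj hd
  have := hu _ (simple_mem_par cs hj)
  unfold CoxeterSystem.IsRightDescent at hd
  omega

private lemma b2_isMin_low (cs : CoxeterSystem M W) {J : Set B} {u : W} (hu : IsMin cs J u) :
    B2Low cs J u := by
  obtain ⟨y₀, hy₀, hlow⟩ := b2_exists_low cs J u
  obtain ⟨ω, hω, hred, hprod⟩ := (mem_par_iff cs).1 (inv_mem hy₀)
  rcases List.eq_nil_or_concat ω with rfl | ⟨ν, j, hνj⟩
  · rw [cs.wordProd_nil] at hprod
    have : y₀ = 1 := by rw [← inv_inv y₀, ← hprod, inv_one]
    rw [this, mul_one] at hlow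
    exact hlow
  · exfalso
    rw [List.concat_eq_append] at hνj
    subst hνj
    have hjJ : j ∈ J := hω j (by simp)
    have hνJ : ∀ i ∈ ν, i ∈ J := fun i hi => hω i (by simp [hi])
    apply hu j hjJ
    have e1 : u = u * y₀ * y₀⁻¹ := by rw [mul_assoc, mul_inv_cancel, mul_one]
    have e2 : u * cs.simple j = u * y₀ * cs.wordProd ν := by
      conv_lhs => rw [e1]
      rw [← hprod, cs.wordProd_append, cs.wordProd_singleton, mul_assoc, mul_assoc, mul_assoc,
        cs.simple_mul_simple_self, mul_one, ← mul_assoc]
    unfold CoxeterSystem.IsRightDescent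
    rw [e2, b2_low_add cs hlow (b2_word_mem cs hνJ)]
    have e3 : cs.length u = cs.length (u * y₀) + cs.length (y₀⁻¹) := by
      conv_lhs => rw [e1]
      exact b2_low_add cs hlow (inv_mem hy₀)
    rw [e3, ← hprod, hred.eq, List.length_append, List.length_singleton]
    have := cs.length_wordProd_le ν
    omega

theorem length_add (cs : CoxeterSystem M W) {J : Set B} {u : W} (hu : IsMin cs J u) {y : W}
    (hy : y ∈ par cs J) : cs.length (u * y) = cs.length u + cs.length y :=
  b2_low_add cs (b2_isMin_low cs hu) hy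

theorem exists_isMin (cs : CoxeterSystem M W) (J : Set B) (w : W) :
    ∃ u, IsMin cs J u ∧ w⁻¹ * u ∈ par cs J := by
  obtain ⟨y, hy, hlow⟩ := b2_exists_low cs J w
  exact ⟨w * y, b2_low_isMin cs hlow, by rwa [inv_mul_cancel_left]⟩

/-- the shortest element of the coset `w * par J` -/
noncomputable def mrep (cs : CoxeterSystem M W) (J : Set B) (w : W) : W := (exists_isMin cs J w).choose

lemma mrep_isMin (cs : CoxeterSystem M W) (J : Set B) (w : W) : IsMin cs J (mrep cs J w) :=
  (exists_isMin cs J w).choose_spec.1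

lemma mrep_mem (cs : CoxeterSystem M W) (J : Set B) (w : W) : w⁻¹ * mrep cs J w ∈ par cs J :=
  (exists_isMin cs J w).choose_spec.2

theorem isMin_unique (cs : CoxeterSystem M W) {J : Set B} {u u' : W} (hu : IsMin cs J u)
    (hu' : IsMin cs J u') (h : u⁻¹ * u' ∈ par cs J) : u = u' := by
  have h1 := length_add cs hu h
  have h2 := length_add cs hu' (inv_mem h)
  rw [mul_inv_cancel_left] at h1
  rw [mul_inv_rev, inv_inv, mul_inv_cancel_left] at h2
  have h3 : cs.length (u⁻¹ * u') = 0 := by
    have h4 : cs.length ((u'⁻¹ * u)) = cs.length (u⁻¹ * u') := by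
      rw [← cs.length_inv (u'⁻¹ * u), mul_inv_rev, inv_inv]
    omega
  rw [cs.length_eq_zero_iff] at h3
  exact (inv_mul_eq_one.1 h3)

theorem mrep_self (cs : CoxeterSystem M W) {J : Set B} {u : W} (hu : IsMin cs J u) :
    mrep cs J u = u :=
  (isMin_unique cs hu (mrep_isMin cs J u) (mrep_mem cs J u)).symm

theorem mrep_mul (cs : CoxeterSystem M W) {J : Set B} {w y : W} (hy : y ∈ par cs J) :
    mrep cs J (w * y) = mrep cs J w := by
  apply isMin_unique cs (mrep_isMin cs J _) (mrep_isMin cs J _)
  have h1 := mrep_mem cs J (w * y)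
  have h2 := mrep_mem cs J w
  have : (mrep cs J (w * y))⁻¹ * mrep cs J w =
      ((w * y)⁻¹ * mrep cs J (w * y))⁻¹ * (y⁻¹ * (w⁻¹ * mrep cs J w)) := by group
  rw [this]
  exact mul_mem (inv_mem h1) (mul_mem (inv_mem hy) h2)

theorem mrep_mrep (cs : CoxeterSystem M W) {I J : Set B} (h : I ⊆ J) (w : W) :
    mrep cs J (mrep cs I w) = mrep cs J w := by
  have h1 := par_mono cs h (mrep_mem cs I w)
  have : mrep cs I w = w * (w⁻¹ * mrep cs I w) := by group
  rw [this]
  exact mrep_mul cs h1

theorem length_mrep_le (cs : CoxeterSystem M W) (J : Set B) (w : W) :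
    cs.length (mrep cs J w) ≤ cs.length w := by
  have h1 := length_add cs (mrep_isMin cs J w) (inv_mem (mrep_mem cs J w))
  have : mrep cs J w * (w⁻¹ * mrep cs J w)⁻¹ = w := by group
  rw [this] at h1
  omega

theorem length_mrep_lt (cs : CoxeterSystem M W) {J : Set B} {w : W} (h : ¬ IsMin cs J w) :
    cs.length (mrep cs J w) < cs.length w := by
  have h1 := length_add cs (mrep_isMin cs J w) (inv_mem (mrep_mem cs J w))
  have h2 : mrep cs J w * (w⁻¹ * mrep cs J w)⁻¹ = w := by group
  rw [h2] at h1
  by_contra hcon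
  have h3 : cs.length ((w⁻¹ * mrep cs J w)⁻¹) = 0 := by omega
  rw [cs.length_eq_zero_iff, inv_eq_one, inv_mul_eq_one] at h3
  apply h
  rw [h3]
  exact mrep_isMin cs J w

end Pool.H8.CDW
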