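import Pool.Agent.H8.CDW.Par

/-!
# [H8 CDW C1] the geometric representation

`E = B →₀ ℝ`, `b i j = - Real.cos (π / M i j)` for `M i j ≠ 0` and `-1` for `M i j = 0` (so `b i i = 1` because `M i i = 1`), `φ_i : E →ₗ[ℝ] ℝ`,
`φ_i (e_j) = b i j`, `σ_i x = x - 2 φ_i(x) e_i`.  `σ_i² = 1`.  For `m = M i j ≥ 2` (then `i ≠ j`), `c = cos (π/m)`, `θ = 2π/m`: on
`P = span (e_i, e_j)` the operator `T = σ_i σ_j` is `T e_i = (4c² - 1) e_i + 2 c e_j`, `T e_j = - 2 c e_i - e_j`, trace
`4 c² - 2 = 2 cos θ`, determinant `1`, so `T² x = 2 cos θ T x - x` on `P`, and by induction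
`sin θ T^k x = sin (k θ) T x - sin ((k-1) θ) x` on `P`; `T^m = 1` on `P` (for `m = 2` directly, `sin θ ≠ 0` for `m ≥ 3`).  For general `x`,
`T x - x ∈ P`; `T^m x - x = ∑_{l<m} T^l (T x - x)`, and `∑_{l<m} T^l = 0` on `P` because `(T - 1) ∑ T^l = T^m - 1 = 0` and `T - 1` is injective
on `P` (determinant `2 - 2 cos θ ≠ 0`).  So `(σ_i σ_j)^(M i j) = 1` for all `i, j` (also `i = j`, and trivially if `M i j = 0`).
The second statement below is the formula for the action of `T^k` on `e_i` needed for the order.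
-/

set_option autoImplicit false

namespace Pool.H8.CDW

open CoxeterSystem

variable {B : Type*} {W : Type*} [Group W] {M : CoxeterMatrix B}

/-- the reflection `σ_i` of the geometric representation -/
noncomputable def gform (M : CoxeterMatrix B) (i : B) : (B →₀ ℝ) →ₗ[ℝ] ℝ :=
  Finsupp.lsum ℝ fun j => (LinearMap.toSpanSingleton ℝ ℝ
    (if M i j = 0 then -1 else - Real.cos (Real.pi / M i j)))

/-- the reflection `σ_i` of the geometric representation -/
noncomputable def grefl (M : CoxeterMatrix B) (i : B) : Module.End ℝ (B →₀ ℝ) :=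
  LinearMap.id - (2 : ℝ) • (LinearMap.toSpanSingleton ℝ (B →₀ ℝ) (Finsupp.single i 1)).comp (gform M i)

theorem c1_gform_single (M : CoxeterMatrix B) (i j : B) :
    gform M i (Finsupp.single j (1 : ℝ)) = if M i j = 0 then -1 else - Real.cos (Real.pi / M i j) := by
  simp [gform]

theorem c1_grefl_apply (M : CoxeterMatrix B) (i : B) (x : B →₀ ℝ) :
    grefl M i x = x - (2 * gform M i x) • Finsupp.single i (1 : ℝ) := by
  rw [mul_smul]
  rfl

theorem c1_self (M : CoxeterMatrix B) (i : B) : gform M i (Finsupp.single i (1 : ℝ)) = 1 := by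
  rw [c1_gform_single, M.diagonal]
  simp

theorem c1_sq (M : CoxeterMatrix B) (i : B) : grefl M i * grefl M i = 1 := by
  refine LinearMap.ext fun x => ?_
  rw [Module.End.mul_apply, Module.End.one_apply, c1_grefl_apply, c1_grefl_apply, map_sub, map_smul,
    c1_self, smul_eq_mul]
  module

/-- the product of two reflections -/
theorem c1_T (M : CoxeterMatrix B) {i j : B} {c : ℝ} (h : gform M i (Finsupp.single j (1 : ℝ)) = -c)
    (x : B →₀ ℝ) :
    (grefl M i * grefl M j) x = x - (2 * gform M j x) • Finsupp.single j (1 : ℝ)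
      - (2 * (gform M i x + 2 * c * gform M j x)) • Finsupp.single i (1 : ℝ) := by
  rw [Module.End.mul_apply, c1_grefl_apply, c1_grefl_apply, map_sub, map_smul, h, smul_eq_mul]
  module

section

variable {i j : B} {c : ℝ}

theorem c1_Te (h : gform M i (Finsupp.single j (1 : ℝ)) = -c)
    (h' : gform M j (Finsupp.single i (1 : ℝ)) = -c) :
    (grefl M i * grefl M j) (Finsupp.single i (1 : ℝ)) =
      (4 * c ^ 2 - 1) • Finsupp.single i (1 : ℝ) + (2 * c) • Finsupp.single j (1 : ℝ) := by
  rw [c1_T M h, h', c1_self]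
  module

theorem c1_Tf (h : gform M i (Finsupp.single j (1 : ℝ)) = -c) :
    (grefl M i * grefl M j) (Finsupp.single j (1 : ℝ)) =
      (- (2 * c)) • Finsupp.single i (1 : ℝ) + (-1 : ℝ) • Finsupp.single j (1 : ℝ) := by
  rw [c1_T M h, h, c1_self]
  module

/-- the recursion for the powers, with `t = 4 c ^ 2 - 2 = 2 cos θ` -/
theorem c1_pow {V : Type*} [AddCommGroup V] [Module ℝ V] (T : Module.End ℝ V) (x : V) (θ : ℝ)
    (hT : T (T x) = (2 * Real.cos θ) • T x - x) (k : ℕ) :
    Real.sin θ • (T ^ k) x = Real.sin (k * θ) • T x - Real.sin ((k - 1 : ℝ) * θ) • x := by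
  induction k with
  | zero =>
    simp
  | succ k ih =>
    rw [pow_succ', Module.End.mul_apply, ← map_smul, ih, map_sub, map_smul, map_smul, hT]
    have e1 : Real.sin (((k + 1 : ℕ) : ℝ) * θ) = 2 * Real.cos θ * Real.sin (k * θ)
        - Real.sin ((k - 1 : ℝ) * θ) := by
      have a1 : ((k + 1 : ℕ) : ℝ) * θ = k * θ + θ := by push_cast; ring
      have a2 : ((k - 1 : ℝ)) * θ = k * θ - θ := by ring
      rw [a1, a2, Real.sin_add, Real.sin_sub]
      ring
    have e2 : (((k + 1 : ℕ) : ℝ) - 1) = (k : ℝ) := by push_cast; ring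
    rw [e1, e2]
    module

theorem c1_rec (h : gform M i (Finsupp.single j (1 : ℝ)) = -c)
    (h' : gform M j (Finsupp.single i (1 : ℝ)) = -c) (a b : ℝ) :
    (grefl M i * grefl M j) ((grefl M i * grefl M j)
      (a • Finsupp.single i (1 : ℝ) + b • Finsupp.single j (1 : ℝ))) =
      (4 * c ^ 2 - 2) • (grefl M i * grefl M j)
      (a • Finsupp.single i (1 : ℝ) + b • Finsupp.single j (1 : ℝ)) -
      (a • Finsupp.single i (1 : ℝ) + b • Finsupp.single j (1 : ℝ)) := by
  simp only [map_add, map_smul, c1_Te h h', c1_Tf h]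
  module

end

theorem c1_form (M : CoxeterMatrix B) {i j : B} (hM : M i j ≠ 0) :
    gform M i (Finsupp.single j (1 : ℝ)) = - Real.cos (Real.pi / M i j) := by
  rw [c1_gform_single, if_neg hM]

theorem c1_form' (M : CoxeterMatrix B) {i j : B} (hM : M i j ≠ 0) :
    gform M j (Finsupp.single i (1 : ℝ)) = - Real.cos (Real.pi / M i j) := by
  rw [c1_gform_single, M.symmetric j i, if_neg hM]

theorem c1_two_cos (m : ℕ) :
    4 * Real.cos (Real.pi / m) ^ 2 - 2 = 2 * Real.cos (2 * Real.pi / m) := by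
  have : 2 * Real.pi / m = 2 * (Real.pi / m) := by ring
  rw [this, Real.cos_two_mul]
  ring

theorem c1_pow_fix {V : Type*} [AddCommGroup V] [Module ℝ V] (T : Module.End ℝ V) (x : V)
    (hT : T x = x) (k : ℕ) : (T ^ k) x = x := by
  induction k with
  | zero => rfl
  | succ k ih => rw [pow_succ', Module.End.mul_apply, ih, hT]

theorem c1_cos_sq_ne {m : ℕ} (hm : 2 ≤ m) : 1 - Real.cos (Real.pi / m) ^ 2 ≠ 0 := by
  have hm' : (0 : ℝ) < m := by positivity
  have h1 : 0 < Real.sin (Real.pi / m) := by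
    apply Real.sin_pos_of_pos_of_lt_pi
    · positivity
    · rw [div_lt_iff₀ hm']
      have : (2 : ℝ) ≤ m := by exact_mod_cast hm
      nlinarith [Real.pi_pos]
  have := Real.sin_sq_add_cos_sq (Real.pi / m)
  nlinarith

/-- the power is trivial on the plane -/
theorem c1_plane {V : Type*} [AddCommGroup V] [Module ℝ V] (T : Module.End ℝ V) (x : V) {m : ℕ}
    (hm : 3 ≤ m) (hT : T (T x) = (2 * Real.cos (2 * Real.pi / m)) • T x - x) :
    (T ^ m) x = x := by
  have hm' : (0 : ℝ) < m := by positivity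
  have h1 : 0 < Real.sin (2 * Real.pi / m) := by
    apply Real.sin_pos_of_pos_of_lt_pi
    · positivity
    · rw [div_lt_iff₀ hm']
      have : (3 : ℝ) ≤ m := by exact_mod_cast hm
      nlinarith [Real.pi_pos]
  have h2 := c1_pow T x (2 * Real.pi / m) hT m
  have e1 : (m : ℝ) * (2 * Real.pi / m) = 2 * Real.pi := by field_simp
  have e2 : ((m : ℝ) - 1) * (2 * Real.pi / m) = 2 * Real.pi - 2 * Real.pi / m := by
    rw [sub_mul, e1, one_mul]
  rw [e1, e2, Real.sin_two_pi, Real.sin_two_pi_sub, zero_smul, zero_sub, neg_smul, neg_neg] at h2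
  exact smul_right_injective V h1.ne' h2

theorem grefl_liftable (M : CoxeterMatrix B) : M.IsLiftable (grefl M) := by
  intro i j
  by_cases hij : i = j
  · subst hij
    rw [M.diagonal, pow_one]
    exact c1_sq M i
  by_cases hM : M i j = 0
  · rw [hM, pow_zero]
  have hm2 : 2 ≤ M i j := by
    have := M.off_diagonal i j hij
    omega
  have h := c1_form M hM
  have h' := c1_form' M hM
  set c : ℝ := Real.cos (Real.pi / M i j) with hc
  set T := grefl M i * grefl M j with hT
  have hc2 : 1 - c ^ 2 ≠ 0 := c1_cos_sq_ne hm2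
  have key : ∀ a b : ℝ, (T ^ (M i j)) (a • Finsupp.single i (1 : ℝ) + b • Finsupp.single j (1 : ℝ)) =
      a • Finsupp.single i (1 : ℝ) + b • Finsupp.single j (1 : ℝ) := by
    intro a b
    rcases eq_or_lt_of_le hm2 with h2 | h3
    · have hc0 : c = 0 := by
        rw [hc, ← h2]
        push_cast
        exact Real.cos_pi_div_two
      rw [← h2, pow_two, Module.End.mul_apply, hT, c1_rec h h', map_add, map_smul, map_smul,
        c1_Te h h', c1_Tf h, hc0]
      module
    · refine c1_plane T _ h3 ?_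
      rw [← c1_two_cos]
      exact c1_rec h h' a b
  refine LinearMap.ext fun x => ?_
  rw [Module.End.one_apply]
  set a : ℝ := (gform M i x + c * gform M j x) / (1 - c ^ 2) with ha
  set b : ℝ := (gform M j x + c * gform M i x) / (1 - c ^ 2) with hb
  set p : B →₀ ℝ := a • Finsupp.single i (1 : ℝ) + b • Finsupp.single j (1 : ℝ) with hp
  have hi : gform M i (x - p) = 0 := by
    rw [map_sub, hp, map_add, map_smul, map_smul, c1_self, h, ha, hb, smul_eq_mul, smul_eq_mul]
    field_simp
    ring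
  have hj : gform M j (x - p) = 0 := by
    rw [map_sub, hp, map_add, map_smul, map_smul, c1_self, h', ha, hb, smul_eq_mul, smul_eq_mul]
    field_simp
    ring
  have hq : T (x - p) = x - p := by
    rw [hT, c1_T M h, hi, hj]
    simp
  have e : x = p + (x - p) := by abel
  rw [e, map_add, c1_pow_fix T _ hq, hp, key]

/-- `(σ_i σ_j)^k e_i`, multiplied by `sin (2π/m)` -/
theorem grefl_pow (M : CoxeterMatrix B) {i j : B} (hij : i ≠ j) (hM : M i j ≠ 0) (k : ℕ) :
    Real.sin (2 * Real.pi / M i j) •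
      ((grefl M i * grefl M j) ^ k) (Finsupp.single i 1) =
    (Real.sin (k * (2 * Real.pi / M i j)) * (4 * Real.cos (Real.pi / M i j) ^ 2 - 1)
        - Real.sin ((k - 1 : ℝ) * (2 * Real.pi / M i j))) • (Finsupp.single i (1 : ℝ)) +
    (Real.sin (k * (2 * Real.pi / M i j)) * (2 * Real.cos (Real.pi / M i j))) •
      (Finsupp.single j (1 : ℝ)) := by
  have h := c1_form M hM
  have h' := c1_form' M hM
  have hr := c1_rec h h' 1 0
  simp only [one_smul, zero_smul, add_zero] at hr
  rw [c1_two_cos] at hr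
  rw [c1_pow _ _ _ hr, c1_Te h h']
  module

end Pool.H8.CDW
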