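import Pool.Agent.H8.CDW.C1

/-!
# [H8 CDW C2] the order of `s_i s_j` is exactly `M i j`

Lift `grefl` to `ρ : W →* Module.End ℝ (B →₀ ℝ)` (`cs.lift ⟨_, grefl_liftable M⟩`).  If `(s_i s_j)^k = 1`, `0 < k < m = M i j`, `i ≠ j`,
then `((σ_i σ_j)^k) e_i = e_i`; for `m ≥ 3` compare the coefficient of `e_j` in `grefl_pow`: `sin (2πk/m) * 2 cos (π/m) = 0`, and
`cos (π/m) > 0`, so `sin (2πk/m) = 0`, so `2k = m` (as `0 < 2πk/m < 2π`); then the coefficient of `e_i` gives
`- sin ((k-1) 2π/m) = sin (2π/m)`, i.e. `- sin (π - 2π/m) = sin (2π/m)`, so `sin (2π/m) = 0`, false for `m ≥ 3`.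
For `m = 2`: `k = 1`, `σ_i σ_j e_i = - e_i ≠ e_i` (compute directly, `cos (π/2) = 0`).
-/

set_option autoImplicit false

namespace Pool.H8.CDW

open CoxeterSystem

variable {B : Type*} {W : Type*} [Group W] {M : CoxeterMatrix B}

theorem pow_ne_one (cs : CoxeterSystem M W) {i j : B} (hij : i ≠ j) {k : ℕ} (hk : 0 < k)
    (hkm : k < M i j) : (cs.simple i * cs.simple j) ^ k ≠ 1 := by
  intro h1
  have hM : M i j ≠ 0 := by omega
  have hm2 : 2 ≤ M i j := by
    have := M.off_diagonal i j hij
    omega
  have h2 : (grefl M i * grefl M j) ^ k = 1 := by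
    have h3 := congrArg (cs.lift ⟨grefl M, grefl_liftable M⟩) h1
    rw [map_pow, map_mul, map_one, cs.lift_apply_simple, cs.lift_apply_simple] at h3
    exact h3
  have e1 : (Finsupp.single i (1 : ℝ)) j = 0 := Finsupp.single_eq_of_ne hij.symm
  have e2 : (Finsupp.single j (1 : ℝ)) i = 0 := Finsupp.single_eq_of_ne hij
  rcases eq_or_lt_of_le hm2 with hm | hm3
  · have hk1 : k = 1 := by omega
    subst hk1
    have hc0 : Real.cos (Real.pi / M i j) = 0 := by
      rw [← hm]
      push_cast
      exact Real.cos_pi_div_two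
    have h4 := c1_Te (c1_form M hM) (c1_form' M hM)
    rw [pow_one] at h2
    rw [h2, hc0, Module.End.one_apply] at h4
    have h5 := DFunLike.congr_fun h4 i
    simp [e2] at h5
    norm_num at h5
  · have h3 := grefl_pow M hij hM k
    rw [h2, Module.End.one_apply] at h3
    set m := M i j with hmdef
    have hm' : (0 : ℝ) < m := by
      have : 0 < m := by omega
      exact_mod_cast this
    have hm3' : (3 : ℝ) ≤ m := by exact_mod_cast hm3
    have hk' : (0 : ℝ) < k := by exact_mod_cast hk
    have hkm' : (k : ℝ) < m := by exact_mod_cast hkm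
    have hi := DFunLike.congr_fun h3 i
    have hj := DFunLike.congr_fun h3 j
    simp only [Finsupp.add_apply, Finsupp.smul_apply, Finsupp.single_eq_same, e1, e2, smul_eq_mul,
      mul_zero, mul_one, add_zero, zero_add] at hi hj
    have hcos : 0 < Real.cos (Real.pi / m) := by
      apply Real.cos_pos_of_mem_Ioo
      constructor
      · have : 0 < Real.pi / m := by positivity
        linarith [Real.pi_pos]
      · rw [div_lt_div_iff₀ hm' (by norm_num)]
        nlinarith [Real.pi_pos]
    have hs : Real.sin (k * (2 * Real.pi / m)) = 0 := by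
      have := hj.symm
      rcases mul_eq_zero.mp this with h | h
      · exact h
      · linarith
    have h2k : (k : ℝ) * (2 * Real.pi / m) = Real.pi := by
      rw [Real.sin_eq_zero_iff] at hs
      obtain ⟨n, hn⟩ := hs
      have p1 : 0 < (k : ℝ) * (2 * Real.pi / m) := by positivity
      have p2 : (k : ℝ) * (2 * Real.pi / m) < 2 * Real.pi := by
        rw [← mul_div_assoc, div_lt_iff₀ hm']
        nlinarith [Real.pi_pos]
      rw [← hn] at p1 p2
      have q1 : (0 : ℝ) < n := by
        by_contra hcon
        push Not at hcon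
        nlinarith [Real.pi_pos]
      have q2 : (n : ℝ) < 2 := by
        by_contra hcon
        push Not at hcon
        nlinarith [Real.pi_pos]
      have q1' : (0 : ℤ) < n := by exact_mod_cast q1
      have q2' : n < (2 : ℤ) := by exact_mod_cast q2
      have q3 : n = 1 := by omega
      rw [← hn, q3]
      push_cast
      ring
    have hsin : 0 < Real.sin (2 * Real.pi / m) := by
      apply Real.sin_pos_of_pos_of_lt_pi
      · positivity
      · rw [div_lt_iff₀ hm']
        nlinarith [Real.pi_pos]
    have e3 : ((k : ℝ) - 1) * (2 * Real.pi / m) = Real.pi - 2 * Real.pi / m := by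
      rw [sub_mul, h2k, one_mul]
    rw [hs, e3, Real.sin_pi_sub, zero_mul, zero_sub] at hi
    linarith

theorem simple_injective (cs : CoxeterSystem M W) (hM : ∀ i j, M i j ≠ 0) :
    Function.Injective cs.simple := by
  intro i j h
  by_contra hij
  have h1 : M i j ≠ 1 := M.off_diagonal i j hij
  have h0 := hM i j
  refine pow_ne_one cs hij (k := 1) one_pos (by omega) ?_
  rw [pow_one, h, cs.simple_mul_simple_self]

end Pool.H8.CDW
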