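import Pool.Agent.H8.CDW.B2
import Pool.Agent.H8.CDW.C2

/-!
# [H8 CDW D1] an element with two left descents

PROOF. Apply the theory of B2 on the other side (`w ↦ w⁻¹`): `w⁻¹ = u x` with `u` shortest in `w⁻¹ * par {i, j}`, `x ∈ par {i, j}`,
`ℓ(w) = ℓ(u) + ℓ(x)`; since `w⁻¹` has right descents `i`, `j`, so has `x` (by `length_add`).  Let `p = ℓ(x)`.  A reduced word of `x` in the
letters `i, j` ending with `i` (it exists: `x = (x s_i) s_i`, reduced word of `x s_i` in `{i,j}` by `mem_par_iff`, then append `i`) is alternating (a
reduced word has no two equal adjacent letters), so it is `alternatingWord j i p`; similarly `x = π (alternatingWord i j p)`.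
So `π (alternatingWord j i p) = π (alternatingWord i j p)`, hence `(s_i s_j)^p = 1`, `p ≥ M i j` by `pow_ne_one` (`p ≥ 1` as `x ≠ 1`),
and `p ≤ M i j` by `not_isReduced_alternatingWord`.
Taking inverses: `w = (π (alternatingWord i j p))⁻¹ u⁻¹`, and the inverse of the alternating word product is again the product of a braid
word (`wordProd_reverse`; use `wordProd_braidWord_eq`).
-/

set_option autoImplicit false

namespace Pool.H8.CDW

open CoxeterSystem

variable {B : Type*} {W : Type*} [Group W] {M : CoxeterMatrix B}

theorem d1_alternating (cs : CoxeterSystem M W) : ∀ (n : ℕ) (i j : B) (ω : List B),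
    (ω.concat j).length = n + 1 → cs.IsReduced (ω.concat j) → (∀ a ∈ ω, a = i ∨ a = j) →
    ω.concat j = alternatingWord i j (n + 1) := by
  intro n
  induction n with
  | zero =>
    intro i j ω hlen _ _
    rw [List.length_concat] at hlen
    have : ω = [] := List.length_eq_zero_iff.1 (by omega)
    subst this
    rfl
  | succ n ih =>
    intro i j ω hlen hred hmem
    rw [List.length_concat] at hlen
    have hne : ω ≠ [] := by
      rintro rfl
      simp at hlen
    obtain ⟨ν, a, rfl⟩ := List.eq_nil_or_concat ω |>.resolve_left hne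
    have ha : a = i ∨ a = j := hmem a (by simp)
    have hai : a = i := by
      rcases ha with h | h
      · exact h
      · exfalso
        subst h
        have h1 := hred.eq
        rw [wordProd_concat, wordProd_concat, simple_mul_simple_cancel_right] at h1
        have h2 := cs.length_wordProd_le ν
        rw [List.length_concat, List.length_concat] at h1
        omega
    subst hai
    have hred' : cs.IsReduced (ν.concat a) := by
      have := hred.take (ν.concat a).length
      rwa [List.concat_eq_append (as := ν.concat a), List.take_left] at this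
    rw [alternatingWord_succ, ← ih j a ν (by omega) hred' (fun b hb => (hmem b (by simp [hb])).symm)]

theorem d1_word (cs : CoxeterSystem M W) {i j : B} {x : W} (hx : x ∈ par cs ({i, j} : Set B))
    (h : cs.IsRightDescent x j) :
    x = cs.wordProd (alternatingWord i j (cs.length x)) ∧
      cs.IsReduced (alternatingWord i j (cs.length x)) := by
  have hxj : x * cs.simple j ∈ par cs ({i, j} : Set B) :=
    Subgroup.mul_mem _ hx (simple_mem_par cs (by simp))
  obtain ⟨β, hβ1, hβ2, hβ3⟩ := (mem_par_iff cs).1 hxj
  have hlen : cs.length (x * cs.simple j) + 1 = cs.length x := cs.isRightDescent_iff.1 h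
  have hprod : cs.wordProd (β.concat j) = x := by
    rw [wordProd_concat, hβ3, simple_mul_simple_cancel_right]
  have hblen : β.length = cs.length (x * cs.simple j) := by
    rw [← hβ3]
    exact hβ2.eq.symm
  have hred : cs.IsReduced (β.concat j) := by
    show cs.length (cs.wordProd (β.concat j)) = (β.concat j).length
    rw [hprod, List.length_concat]
    omega
  have key := d1_alternating cs β.length i j β (by rw [List.length_concat]) hred
    (fun a ha => by simpa using hβ1 a ha)
  have e : β.length + 1 = cs.length x := by omega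
  rw [e] at key
  rw [← key]
  exact ⟨hprod.symm, hred⟩

theorem d1_pow (cs : CoxeterSystem M W) {i j : B} {p : ℕ}
    (h : cs.wordProd (alternatingWord i j p) = cs.wordProd (alternatingWord j i p)) :
    (cs.simple i * cs.simple j) ^ p = 1 ∧
      cs.wordProd (alternatingWord i j p) * cs.wordProd (alternatingWord i j p) = 1 := by
  have hinv : cs.simple j * cs.simple i = (cs.simple i * cs.simple j)⁻¹ := by
    rw [mul_inv_rev, inv_simple, inv_simple]
  rw [prod_alternatingWord_eq_mul_pow, prod_alternatingWord_eq_mul_pow, hinv] at h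
  rw [prod_alternatingWord_eq_mul_pow]
  set r := cs.simple i * cs.simple j with hr
  rcases Nat.even_or_odd' p with ⟨q, rfl | rfl⟩
  · have h1 : Even (2 * q) := even_two_mul q
    have h2 : 2 * q / 2 = q := by omega
    rw [if_pos h1, if_pos h1, h2, one_mul, one_mul, inv_pow] at h
    rw [if_pos h1, h2, one_mul, ← pow_add, ← two_mul]
    have : r ^ (2 * q) = 1 := by
      rw [two_mul, pow_add]
      nth_rw 2 [h]
      rw [mul_inv_cancel]
    exact ⟨this, this⟩
  · have h1 : ¬ Even (2 * q + 1) := Nat.not_even_iff_odd.2 ⟨q, rfl⟩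
    have h2 : (2 * q + 1) / 2 = q := by omega
    rw [if_neg h1, if_neg h1, h2, inv_pow] at h
    rw [if_neg h1, h2]
    have h3 : r ^ (q + 1) = (r ^ q)⁻¹ := by
      rw [pow_succ', hr, mul_assoc, ← hr, h, simple_mul_simple_cancel_left]
    constructor
    · rw [show 2 * q + 1 = (q + 1) + q by ring, pow_add, h3, inv_mul_cancel]
    · have h4 : cs.simple j * r * cs.simple j = r⁻¹ := by
        rw [← hinv, hr, mul_assoc, mul_assoc, simple_mul_simple_self, mul_one]
      have h5 : cs.simple j * r ^ q * cs.simple j = (r ^ q)⁻¹ := by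
        have : (cs.simple j * r * (cs.simple j)⁻¹) ^ q = cs.simple j * r ^ q * (cs.simple j)⁻¹ :=
          conj_pow
        rw [inv_simple, h4, inv_pow] at this
        exact this.symm
      calc cs.simple j * r ^ q * (cs.simple j * r ^ q)
          = (cs.simple j * r ^ q * cs.simple j) * r ^ q := by group
        _ = 1 := by rw [h5, inv_mul_cancel]

theorem two_descents (cs : CoxeterSystem M W) {i j : B} (hij : i ≠ j) (hM : M i j ≠ 0) {w : W}
    (hi : cs.IsLeftDescent w i) (hj : cs.IsLeftDescent w j) :
    ∃ u, w = cs.wordProd (braidWord M i j) * u ∧ cs.length w = M i j + cs.length u := by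
  have hi' : cs.IsRightDescent w⁻¹ i := cs.isRightDescent_inv_iff.2 hi
  have hj' : cs.IsRightDescent w⁻¹ j := cs.isRightDescent_inv_iff.2 hj
  set J : Set B := {i, j} with hJ
  set u := mrep cs J w⁻¹ with hu
  have hmin : IsMin cs J u := mrep_isMin cs J _
  set x := u⁻¹ * w⁻¹ with hx
  have hxJ : x ∈ par cs J := by
    have := Subgroup.inv_mem _ (mrep_mem cs J w⁻¹)
    rwa [mul_inv_rev, inv_inv] at this
  have hux : u * x = w⁻¹ := by rw [hx, mul_inv_cancel_left]
  have hdesc : ∀ k ∈ J, cs.IsRightDescent w⁻¹ k → cs.IsRightDescent x k := by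
    intro k hk h
    unfold CoxeterSystem.IsRightDescent at h ⊢
    have h1 := length_add cs hmin hxJ
    have h2 := length_add cs hmin (Subgroup.mul_mem _ hxJ (simple_mem_par cs hk))
    rw [← mul_assoc, hux] at h2
    rw [hux] at h1
    omega
  have hxi := hdesc i (by simp [hJ]) hi'
  have hxj := hdesc j (by simp [hJ]) hj'
  obtain ⟨e1, r1⟩ := d1_word cs hxJ hxj
  obtain ⟨e2, r2⟩ := d1_word cs (by rw [hJ, Set.pair_comm] at hxJ; exact hxJ) hxi
  obtain ⟨h1, h2⟩ := d1_pow cs (e1.symm.trans e2)
  have hp : 0 < cs.length x := by
    have := cs.isRightDescent_iff.1 hxi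
    omega
  have hle : cs.length x ≤ M i j := by
    by_contra hlt
    exact cs.not_isReduced_alternatingWord i j hM (by omega) r1
  have hge : M i j ≤ cs.length x := by
    by_contra hlt
    exact pow_ne_one cs hij hp (by omega) h1
  have hpe : cs.length x = M i j := le_antisymm hle hge
  rw [← e1] at h2
  have hxinv : x⁻¹ = x := inv_eq_of_mul_eq_one_right h2
  refine ⟨u⁻¹, ?_, ?_⟩
  · rw [braidWord, ← hpe, ← e1, ← hxinv, ← mul_inv_rev, hux, inv_inv]
  · rw [← cs.length_inv w, ← hux, length_add cs hmin hxJ, hpe, cs.length_inv, add_comm]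

end Pool.H8.CDW
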