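import Pool.Agent.H8.CDW.B2
import Pool.Agent.H8.CDW.Sph

/-!
# The Coxeter complex as a graph (definitions)
-/

set_option autoImplicit false

namespace Pool.H8.CDW

open CoxeterSystem

variable {B : Type} {W : Type} [Group W] {M : CoxeterMatrix B}

/-- vertices of the Coxeter complex: cosets of the maximal parabolic subgroups -/
def CV (cs : CoxeterSystem M W) : Type := Σ v : B, W ⧸ par cs ({v}ᶜ : Set B)

/-- the vertex of type `v` of the chamber `w` -/
def cvx (cs : CoxeterSystem M W) (v : B) (w : W) : CV cs := ⟨v, (w : W ⧸ par cs ({v}ᶜ : Set B))⟩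

lemma cvx_eq_iff (cs : CoxeterSystem M W) {v v' : B} {w w' : W} :
    cvx cs v w = cvx cs v' w' ↔ v = v' ∧ w⁻¹ * w' ∈ par cs ({v}ᶜ : Set B) := by
  constructor
  · intro h
    have h1 : v = v' := congrArg Sigma.fst h
    subst h1
    refine ⟨rfl, ?_⟩
    have h2 := eq_of_heq (Sigma.mk.inj_iff.mp h).2
    exact QuotientGroup.eq.mp h2
  · rintro ⟨rfl, h⟩
    unfold cvx
    rw [QuotientGroup.eq.mpr h]

lemma exists_cvx (cs : CoxeterSystem M W) (a : CV cs) : ∃ w, a = cvx cs a.1 w := by
  obtain ⟨v, x⟩ := a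
  obtain ⟨w, rfl⟩ := QuotientGroup.mk_surjective x
  exact ⟨w, rfl⟩

/-- the 1-skeleton of the Coxeter complex -/
def CG (cs : CoxeterSystem M W) : SimpleGraph (CV cs) where
  Adj a b := a.1 ≠ b.1 ∧ ∃ w : W, a = cvx cs a.1 w ∧ b = cvx cs b.1 w
  symm := ⟨fun _ _ h => ⟨h.1.symm, h.2.choose, h.2.choose_spec.2, h.2.choose_spec.1⟩⟩
  loopless := ⟨fun _ h => h.1 rfl⟩

noncomputable instance [Finite B] [Finite W] (cs : CoxeterSystem M W) : Fintype (CV cs) := by
  classical
  haveI : Finite (CV cs) := by unfold CV; infer_instance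
  exact Fintype.ofFinite _

noncomputable instance (cs : CoxeterSystem M W) : DecidableEq (CV cs) := Classical.decEq _

/-- the face of type `A` of the chamber `w` -/
noncomputable def cface (cs : CoxeterSystem M W) (A : Finset B) (w : W) : Finset (CV cs) :=
  A.image (fun v => cvx cs v w)

lemma mem_cface (cs : CoxeterSystem M W) {A : Finset B} {w : W} {a : CV cs} :
    a ∈ cface cs A w ↔ a.1 ∈ A ∧ a = cvx cs a.1 w := by
  unfold cface
  rw [Finset.mem_image]
  constructor
  · rintro ⟨v, hv, rfl⟩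
    exact ⟨hv, rfl⟩
  · rintro ⟨h1, h2⟩
    exact ⟨a.1, h1, h2.symm⟩

lemma card_cface (cs : CoxeterSystem M W) (A : Finset B) (w : W) : (cface cs A w).card = A.card :=
  Finset.card_image_of_injective _ (fun _ _ h => (cvx_eq_iff cs).1 h |>.1)

end Pool.H8.CDW
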