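import Pool.Agent.H8.CDW.E0

/-!
# [H8 CDW E1] the Coxeter complex is a flag complex

`cface_eq_iff`: `cvx_eq_iff` and `par_compl`.
`isClique_cface`: clear (`w` itself is the common chamber).
`clique_eq_cface`: induction on the clique `s` (`Finset.induction_on`): `s = insert a s'`, `s' = cface cs A w`, `a = cvx cs u y₀`, `u ∉ A`.  Translate: put
`z = w⁻¹ y₀` and let `y` be the shortest element of `z * par {u}ᶜ` (`mrep`), so `y = z b₀`, `a = cvx cs u (w y)`.  For `v ∈ A`, `a` is adjacent to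
`cvx cs v w`: there is `w'` with `w⁻¹ w' ∈ par {v}ᶜ` and `(w y)⁻¹ w' ∈ par {u}ᶜ`; put `b = y⁻¹ (w⁻¹ w') ∈ par {u}ᶜ`, so `y b ∈ par {v}ᶜ` and
`ℓ(y b) = ℓ(y) + ℓ(b)` (`length_add`); reduced words `α` of `y`, `β` of `b` give the reduced word `α ++ β` of `y b`, whose letters are in `{v}ᶜ`
(`letters_of_reduced`), so `y = π α ∈ par {v}ᶜ`.  Hence `cvx cs v (w y) = cvx cs v w` for all `v ∈ A`, and
`s = cface cs (insert u A) (w y)`.
`link_iff`: from the two lemmas: if `s ∪ cface A w` is a clique, it is `cface C w'`; `A ⊆ C`, `w⁻¹ w' ∈ par Aᶜ`, `s = cface (C \ A) w'`.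
-/

set_option autoImplicit false

namespace Pool.H8.CDW

open CoxeterSystem

variable {B : Type} {W : Type} [Group W] {M : CoxeterMatrix B}

theorem cface_congr (cs : CoxeterSystem M W) {A : Finset B} {w w' : W}
    (h : ∀ v ∈ A, cvx cs v w = cvx cs v w') : cface cs A w = cface cs A w' := by
  ext a
  rw [mem_cface, mem_cface]
  constructor
  · rintro ⟨h1, h2⟩
    exact ⟨h1, h2.trans (h a.1 h1)⟩
  · rintro ⟨h1, h2⟩
    exact ⟨h1, h2.trans (h a.1 h1).symm⟩

theorem cface_eq_iff (cs : CoxeterSystem M W) (hinj : Function.Injective cs.simple)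
    {A A' : Finset B} {w w' : W} :
    cface cs A w = cface cs A' w' ↔ A = A' ∧ w⁻¹ * w' ∈ par cs ((↑A : Set B)ᶜ) := by
  constructor
  · intro h
    have hsub : ∀ {C C' : Finset B} {x x' : W}, cface cs C x = cface cs C' x' → C ⊆ C' := by
      intro C C' x x' h v hv
      have h1 : cvx cs v x ∈ cface cs C x := (mem_cface cs).2 ⟨hv, rfl⟩
      rw [h] at h1
      exact ((mem_cface cs).1 h1).1
    refine ⟨Finset.Subset.antisymm (hsub h) (hsub h.symm), ?_⟩
    rw [par_compl cs hinj]
    intro v hv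
    have h1 : cvx cs v w ∈ cface cs A w := (mem_cface cs).2 ⟨hv, rfl⟩
    rw [h] at h1
    exact ((cvx_eq_iff cs).1 ((mem_cface cs).1 h1).2).2
  · rintro ⟨rfl, h⟩
    rw [par_compl cs hinj] at h
    exact cface_congr cs (fun v hv => (cvx_eq_iff cs).2 ⟨rfl, h v hv⟩)

theorem isClique_cface (cs : CoxeterSystem M W) (A : Finset B) (w : W) :
    (CG cs).IsClique (↑(cface cs A w) : Set (CV cs)) := by
  intro a ha b hb hab
  rw [Finset.mem_coe, mem_cface] at ha hb
  refine ⟨?_, w, ha.2, hb.2⟩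
  intro h
  apply hab
  rw [ha.2, hb.2, h]

theorem par_of_mul (cs : CoxeterSystem M W) (hinj : Function.Injective cs.simple) {I J : Set B}
    {y b : W} (hy : IsMin cs I y) (hb : b ∈ par cs I) (hyb : y * b ∈ par cs J) : y ∈ par cs J := by
  obtain ⟨α, hα, hαy⟩ := cs.exists_isReduced y
  obtain ⟨β, hβ, hβb⟩ := cs.exists_isReduced b
  have hlen := length_add cs hy hb
  have hred : cs.IsReduced (α ++ β) := by
    rw [CoxeterSystem.IsReduced, cs.wordProd_append, ← hαy, ← hβb, hlen, List.length_append,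
      hαy, hβb, hα.eq, hβ.eq]
  have hlet : ∀ i ∈ α ++ β, i ∈ J := by
    refine letters_of_reduced cs hinj hred ?_
    rw [cs.wordProd_append, ← hαy, ← hβb]
    exact hyb
  rw [mem_par_iff]
  exact ⟨α, fun i hi => hlet i (List.mem_append_left _ hi), hα, hαy.symm⟩

theorem clique_eq_cface (cs : CoxeterSystem M W) (hinj : Function.Injective cs.simple)
    {s : Finset (CV cs)} (hs : (CG cs).IsClique (↑s : Set (CV cs))) :
    ∃ (A : Finset B) (w : W), s = cface cs A w := by
  classical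
  induction s using Finset.induction_on with
  | empty => exact ⟨∅, 1, by simp [cface]⟩
  | insert a s' ha ih =>
    rw [Finset.coe_insert] at hs
    obtain ⟨A, w, hAw⟩ := ih (hs.subset (Set.subset_insert _ _))
    obtain ⟨y₀, hy₀⟩ := exists_cvx cs a
    set u := a.1 with hu
    have hadj : ∀ v ∈ A, (CG cs).Adj a (cvx cs v w) := by
      intro v hv
      have h1 : cvx cs v w ∈ s' := by
        rw [hAw]
        exact (mem_cface cs).2 ⟨hv, rfl⟩
      refine hs (Set.mem_insert _ _) (Set.mem_insert_of_mem _ (Finset.mem_coe.2 h1)) ?_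
      rintro rfl
      exact ha h1
    have hmin := mrep_isMin cs ({u}ᶜ : Set B) (w⁻¹ * y₀)
    have hmem := mrep_mem cs ({u}ᶜ : Set B) (w⁻¹ * y₀)
    set y := mrep cs ({u}ᶜ : Set B) (w⁻¹ * y₀) with hy
    have hkey : ∀ v ∈ A, y ∈ par cs ({v}ᶜ : Set B) := by
      intro v hv
      obtain ⟨_, w', h1, h2⟩ := hadj v hv
      have h3 : w⁻¹ * w' ∈ par cs ({v}ᶜ : Set B) := ((cvx_eq_iff cs).1 h2).2
      have h4 : y₀⁻¹ * w' ∈ par cs ({u}ᶜ : Set B) :=
        ((cvx_eq_iff cs).1 (hy₀.symm.trans h1)).2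
      have h5 : y⁻¹ * (w⁻¹ * w') ∈ par cs ({u}ᶜ : Set B) := by
        have h6 := Subgroup.mul_mem _ (Subgroup.inv_mem _ hmem) h4
        have h7 : ((w⁻¹ * y₀)⁻¹ * y)⁻¹ * (y₀⁻¹ * w') = y⁻¹ * (w⁻¹ * w') := by group
        rwa [h7] at h6
      refine par_of_mul cs hinj hmin h5 ?_
      rw [mul_inv_cancel_left]
      exact h3
    refine ⟨insert u A, w * y, ?_⟩
    have h1 : cface cs A w = cface cs A (w * y) := cface_congr cs (fun v hv =>
      (cvx_eq_iff cs).2 ⟨rfl, by rw [inv_mul_cancel_left]; exact hkey v hv⟩)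
    have h2 : a = cvx cs u (w * y) := by
      rw [hy₀]
      refine (cvx_eq_iff cs).2 ⟨rfl, ?_⟩
      have h3 : y₀⁻¹ * (w * y) = (w⁻¹ * y₀)⁻¹ * y := by group
      rw [h3]
      exact hmem
    rw [hAw, h1]
    unfold cface
    rw [Finset.image_insert, ← h2]

theorem link_iff [DecidableEq B] (cs : CoxeterSystem M W) (hinj : Function.Injective cs.simple)
    {A : Finset B} {w : W} {s : Finset (CV cs)} :
    Link (CG cs) (cface cs A w) s ↔
      ∃ (C : Finset B) (y : W), Disjoint C A ∧ y ∈ par cs ((↑A : Set B)ᶜ) ∧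
        s = cface cs C (w * y) := by
  constructor
  · rintro ⟨hd, hc⟩
    rw [← Finset.coe_union] at hc
    obtain ⟨D, w', hD⟩ := clique_eq_cface cs hinj hc
    have hA : ∀ v ∈ A, v ∈ D ∧ cvx cs v w = cvx cs v w' := by
      intro v hv
      have h1 : cvx cs v w ∈ s ∪ cface cs A w :=
        Finset.mem_union_right _ ((mem_cface cs).2 ⟨hv, rfl⟩)
      rw [hD] at h1
      exact (mem_cface cs).1 h1
    refine ⟨D \ A, w⁻¹ * w', Finset.sdiff_disjoint, ?_, ?_⟩
    · rw [par_compl cs hinj]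
      intro v hv
      exact ((cvx_eq_iff cs).1 (hA v hv).2).2
    · rw [mul_inv_cancel_left]
      ext a
      rw [mem_cface, Finset.mem_sdiff]
      constructor
      · intro ha
        have h1 : a ∈ s ∪ cface cs A w := Finset.mem_union_left _ ha
        rw [hD, mem_cface] at h1
        refine ⟨⟨h1.1, fun h2 => ?_⟩, h1.2⟩
        refine Finset.disjoint_left.1 hd ha ((mem_cface cs).2 ⟨h2, ?_⟩)
        rw [(hA a.1 h2).2]
        exact h1.2
      · rintro ⟨⟨h1, h2⟩, h3⟩
        have h4 : a ∈ s ∪ cface cs A w := by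
          rw [hD]
          exact (mem_cface cs).2 ⟨h1, h3⟩
        rcases Finset.mem_union.1 h4 with h5 | h5
        · exact h5
        · exact absurd ((mem_cface cs).1 h5).1 h2
  · rintro ⟨C, y, hCA, hy, rfl⟩
    have h1 : cface cs A w = cface cs A (w * y) :=
      (cface_eq_iff cs hinj).2 ⟨rfl, by rw [inv_mul_cancel_left]; exact hy⟩
    rw [h1]
    constructor
    · rw [Finset.disjoint_left]
      intro a ha hb
      exact Finset.disjoint_left.1 hCA ((mem_cface cs).1 ha).1 ((mem_cface cs).1 hb).1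
    · refine (isClique_cface cs (C ∪ A) (w * y)).subset ?_
      intro a ha
      rw [Finset.mem_coe, mem_cface, Finset.mem_union]
      rcases ha with ha | ha
      · have := (mem_cface cs).1 (Finset.mem_coe.1 ha)
        exact ⟨Or.inl this.1, this.2⟩
      · have := (mem_cface cs).1 (Finset.mem_coe.1 ha)
        exact ⟨Or.inr this.1, this.2⟩

end Pool.H8.CDW
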