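import Pool.Agent.H8.CDW.E1

/-!
# [H8 CDW E2] counting the faces of the Coxeter complex by type

The faces (= cliques, `Link (CG cs) ∅ s`) are the `cface cs A w`, and `cface cs A w` for fixed `A` corresponds to the coset of `w` modulo
`par Aᶜ` (`cface_eq_iff`).  Sum over pairs `(A, coset)`: `Finset.sum_bij` from `Finset.univ.sigma (fun A => univ : W ⧸ par cs Aᶜ)`
(`Fintype` instances from finiteness); `Subgroup.index = Nat.card` of the quotient.
-/

set_option autoImplicit false

namespace Pool.H8.CDW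

open CoxeterSystem

variable {B : Type} {W : Type} [Group W] {M : CoxeterMatrix B}

theorem e2_link (cs : CoxeterSystem M W) (s : Finset (CV cs)) :
    Link (CG cs) ∅ s ↔ (CG cs).IsClique (↑s : Set (CV cs)) := by
  unfold Link
  rw [Finset.coe_empty, Set.union_empty]
  exact ⟨fun h => h.2, fun h => ⟨Finset.disjoint_empty_right _, h⟩⟩

theorem kap_CG [Fintype B] [Finite W] (cs : CoxeterSystem M W)
    (hinj : Function.Injective cs.simple) :
    kap (CG cs) ∅ = ∑ A : Finset B, (-1 / 2 : ℚ) ^ A.card * ((par cs ((↑A : Set B)ᶜ)).index : ℚ) := by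
  classical
  have : ∀ A : Finset B, Fintype (W ⧸ par cs ((↑A : Set B)ᶜ)) := fun A => Fintype.ofFinite _
  have h1 : kap (CG cs) ∅ =
      ∑ x : (Σ A : Finset B, W ⧸ par cs ((↑A : Set B)ᶜ)), (-1 / 2 : ℚ) ^ x.1.card := by
    unfold kap
    symm
    refine Finset.sum_nbij (fun x => cface cs x.1 x.2.out) ?_ ?_ ?_ ?_
    · intro x _
      rw [Finset.mem_filter]
      exact ⟨Finset.mem_univ _, (e2_link cs _).2 (isClique_cface cs _ _)⟩
    · rintro ⟨A, q⟩ _ ⟨A', q'⟩ _ h
      obtain ⟨h1, h2⟩ := (cface_eq_iff cs hinj).1 h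
      simp only at h1
      subst h1
      have h3 := QuotientGroup.eq.2 h2
      rw [QuotientGroup.out_eq', QuotientGroup.out_eq'] at h3
      simp only at h3
      rw [h3]
    · intro s hs
      rw [Finset.mem_coe, Finset.mem_filter, e2_link] at hs
      obtain ⟨A, w, rfl⟩ := clique_eq_cface cs hinj hs.2
      refine ⟨⟨A, (w : W ⧸ par cs ((↑A : Set B)ᶜ))⟩, Finset.mem_coe.2 (Finset.mem_univ _), ?_⟩
      rw [cface_eq_iff cs hinj]
      refine ⟨rfl, ?_⟩
      rw [← QuotientGroup.eq]
      exact QuotientGroup.out_eq' _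
    · intro x _
      rw [card_cface]
  rw [h1, Fintype.sum_sigma]
  refine Finset.sum_congr rfl fun A _ => ?_
  simp only
  rw [Finset.sum_const, Finset.card_univ, nsmul_eq_mul, mul_comm, Subgroup.index,
    Nat.card_eq_fintype_card]

end Pool.H8.CDW
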