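import Pool.Agent.H8.CDW.B2

/-!
# [H8 CDW F1] exactness of the cochain complex of the Coxeter complex

A cochain in codegree `m` is `g τ w` for `τ ⊆ ρ`, `|τ| = m`, invariant under right multiplication of `w` by `s_v`, `v ∈ τ` (function of the coset
`w W_τ`, a face with `|ρ| - m` vertices); `(δ g)(τ, w) = ∑ v ∈ ρ \ τ, g (insert v τ) w`.

PROOF of `coxeter_exact` (`m ≥ 1`).  Invariance gives `g τ (w * y) = g τ w` for `y ∈ par τ` (`Subgroup.closure_induction`).
Choose `a : W → B` with `a u ∈ ρ` not a right descent of `u` whenever some element of `ρ` is not a right descent of `u`.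
Show by induction on `n`: there is `h` (invariant, codegree `m + 1`) such that `g' = g - δ h` satisfies `g' τ u = 0` whenever `τ ⊆ ρ`, `|τ| = m`,
`IsMin cs τ u`, `ℓ(u) < n`.  (`n` larger than all lengths, `W` finite, gives the theorem: every coset `w W_τ` contains `u = mrep cs τ w` and
`g' τ w = g' τ u`.)  STEP: `g'` is a cocycle, i.e. `δ g' = 0` in codegree `m - 1` (characteristic 2: `δ δ h = 0`, each pair `{v, v'}` occurs twice, or by
`hco` for `g`).  For `τ ⊆ ρ` with `|τ| = m + 1` put `h' τ w = g' (τ.erase (a u)) u` if `u = mrep cs τ w` has length `n` and `a u ∈ τ`, else `0`; it is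
invariant because `mrep cs τ (w s_v) = mrep cs τ w`.  For `|τ| = m`, `IsMin cs τ u`, `ℓ(u) ≤ n`, `D` = right descents of `u` in `ρ`,
`τ ∩ D = ∅`: `mrep cs (insert v τ) u` is `u` if `v ∉ D`, and shorter than `u` if `v ∈ D`.  If `ℓ(u) < n` all terms of `(δ h')(τ, u)` vanish.  If `ℓ(u) = n`:
put `a = a u` (`τ ≠ ∅` consists of elements of `ρ` which are not descents, so `a u ∉ D`).  `(δ h')(τ,u) = ∑_{v ∈ ρ \ τ, v ∉ D, a ∈ insert v τ} g'((insert v τ).erase a, u)`.
If `a ∉ τ` only `v = a` contributes: `g' τ u`.  If `a ∈ τ`: the cocycle condition at `τ.erase a` is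
`g' τ u + ∑_{v ∈ ρ \ τ} g' (insert v (τ.erase a)) u = 0`, and the terms with `v ∈ D` vanish by induction
(`mrep` of `u` for `insert v (τ.erase a)` is shorter than `n`), so `(δ h')(τ,u) = g' τ u`.  So `g' - δ h'` vanishes for `ℓ(u) ≤ n`.

PROOF of `coxeter_top`: the indicator `1_w + 1_{w s_v}` (`v ∈ ρ`) is `δ h` with `h {v} = 1` on `{w, w s_v}` and `0` elsewhere, so
`1_w + 1_{w y}` is a coboundary for `y ∈ par ρ` (`Subgroup.closure_induction`); so every `g` is, modulo coboundaries, `(∑_{w ∈ par ρ} g w) 1_1` on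
`par ρ`.  We only look at `w ∈ par ρ`.
`coxeter_top_ne`: `∑_{w ∈ par ρ} (δ h)(w) = 0` because the values `h {v} w` are equal in pairs `w, w s_v`.
-/

set_option autoImplicit false

namespace Pool.H8.CDW

open CoxeterSystem

variable {B : Type} {W : Type} [Group W] {M : CoxeterMatrix B}

/-- invariance of a cochain under the generators of its type -/
def Inv (cs : CoxeterSystem M W) (ρ : Finset B) (m : ℕ) (g : Finset B → W → ZMod 2) : Prop :=
  ∀ τ ⊆ ρ, τ.card = m → ∀ v ∈ τ, ∀ w, g τ (w * cs.simple v) = g τ w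

lemma f1_two (x : ZMod 2) : x + x = 0 := CharTwo.add_self_eq_zero x

lemma f1_inv {cs : CoxeterSystem M W} {ρ : Finset B} {m : ℕ} {g : Finset B → W → ZMod 2}
    (hg : Inv cs ρ m g) {τ : Finset B} (hτ : τ ⊆ ρ) (hm : τ.card = m) {y : W}
    (hy : y ∈ par cs (↑τ : Set B)) : ∀ w, g τ (w * y) = g τ w := by
  unfold par at hy
  induction hy using Subgroup.closure_induction with
  | mem x hx =>
    obtain ⟨v, hv, rfl⟩ := hx
    exact hg τ hτ hm v (by simpa using hv)
  | one => intro w; rw [mul_one]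
  | mul x y _ _ hx hy =>
    intro w
    rw [← mul_assoc, hy, hx]
  | inv x _ hx =>
    intro w
    rw [← hx (w * x⁻¹), inv_mul_cancel_right]

lemma f1_mrep {cs : CoxeterSystem M W} {ρ : Finset B} {m : ℕ} {g : Finset B → W → ZMod 2}
    (hg : Inv cs ρ m g) {τ : Finset B} (hτ : τ ⊆ ρ) (hm : τ.card = m) (w : W) :
    g τ (mrep cs (↑τ : Set B) w) = g τ w := by
  have h := f1_inv hg hτ hm (mrep_mem cs (↑τ : Set B) w) w
  rwa [mul_inv_cancel_left] at h

lemma f1_pair [DecidableEq B] (A : Finset B) (F : B → B → ZMod 2)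
    (hF : ∀ v v', F v v' = F v' v) : ∑ v ∈ A, ∑ v' ∈ A.erase v, F v v' = 0 := by
  have h1 : ∀ v ∈ A, ∑ v' ∈ A.erase v, F v v' = ∑ v' ∈ A, if v ≠ v' then F v v' else 0 := by
    intro v _
    rw [← Finset.sum_filter]
    apply Finset.sum_congr _ (fun _ _ => rfl)
    ext x
    simp only [Finset.mem_erase, Finset.mem_filter]
    constructor
    · rintro ⟨h1, h2⟩
      exact ⟨h2, fun h => h1 h.symm⟩
    · rintro ⟨h1, h2⟩
      exact ⟨fun h => h2 h.symm, h1⟩
  rw [Finset.sum_congr rfl h1, ← Finset.sum_product', ← Finset.sum_filter]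
  apply Finset.sum_involution (fun p _ => (p.2, p.1))
  · intro p _
    rw [hF p.2 p.1]
    exact f1_two _
  · intro p hp _ h
    rw [Finset.mem_filter] at hp
    exact hp.2 (congrArg Prod.snd h)
  · intro p hp
    rw [Finset.mem_filter, Finset.mem_product] at hp ⊢
    exact ⟨⟨hp.1.2, hp.1.1⟩, fun h => hp.2 h.symm⟩
  · intro p _
    rfl

lemma f1_sdiff_insert [DecidableEq B] (ρ τ : Finset B) (v : B) :
    ρ \ insert v τ = (ρ \ τ).erase v := by
  ext x
  simp only [Finset.mem_sdiff, Finset.mem_insert, Finset.mem_erase, not_or]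
  tauto

/-- the step of the induction -/
lemma f1_step [DecidableEq B] (cs : CoxeterSystem M W) (ρ : Finset B) (m : ℕ)
    (hm : 1 ≤ m) (g : Finset B → W → ZMod 2) (hg : Inv cs ρ m g)
    (hco : ∀ τ ⊆ ρ, τ.card + 1 = m → ∀ w, ∑ v ∈ ρ \ τ, g (insert v τ) w = 0) (n : ℕ)
    (hz : ∀ τ ⊆ ρ, τ.card = m → ∀ u, IsMin cs (↑τ : Set B) u → cs.length u < n → g τ u = 0) :
    ∃ h : Finset B → W → ZMod 2, Inv cs ρ (m + 1) h ∧
      ∀ τ ⊆ ρ, τ.card = m → ∀ u, IsMin cs (↑τ : Set B) u → cs.length u < n + 1 →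
        g τ u = ∑ v ∈ ρ \ τ, h (insert v τ) u := by
  classical
  rcases ρ.eq_empty_or_nonempty with hρ | ⟨b0, hb0⟩
  · refine ⟨fun _ _ => 0, fun _ _ _ _ _ _ => rfl, ?_⟩
    intro τ hτ hcard
    rw [hρ, Finset.subset_empty] at hτ
    rw [hτ, Finset.card_empty] at hcard
    omega
  have hex : ∀ u : W, ∃ a : B, (∃ b ∈ ρ, ¬ cs.IsRightDescent u b) →
      a ∈ ρ ∧ ¬ cs.IsRightDescent u a := by
    intro u
    by_cases h : ∃ b ∈ ρ, ¬ cs.IsRightDescent u b
    · obtain ⟨b, hb⟩ := h
      exact ⟨b, fun _ => hb⟩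
    · exact ⟨b0, fun h' => absurd h' h⟩
  choose a ha using hex
  let h : Finset B → W → ZMod 2 := fun τ w =>
    if cs.length (mrep cs (↑τ : Set B) w) = n ∧ a (mrep cs (↑τ : Set B) w) ∈ τ then
      g (τ.erase (a (mrep cs (↑τ : Set B) w))) (mrep cs (↑τ : Set B) w) else 0
  have hdef : ∀ τ w, h τ w = if cs.length (mrep cs (↑τ : Set B) w) = n ∧
      a (mrep cs (↑τ : Set B) w) ∈ τ then
      g (τ.erase (a (mrep cs (↑τ : Set B) w))) (mrep cs (↑τ : Set B) w) else 0 := fun _ _ => rfl
  refine ⟨h, ?_, ?_⟩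
  · intro τ _ _ v hv w
    rw [hdef, hdef, mrep_mul cs (simple_mem_par cs (by simpa using hv))]
  intro τ hτ hcard u hu hlen
  rcases Nat.lt_or_ge (cs.length u) n with hl | hl
  · rw [hz τ hτ hcard u hu hl]
    symm
    apply Finset.sum_eq_zero
    intro v _
    rw [hdef, if_neg]
    rintro ⟨h1, _⟩
    have h2 := length_mrep_le cs (↑(insert v τ) : Set B) u
    omega
  have hl2 : cs.length u = n := by omega
  have hτne : τ.Nonempty := by
    rw [← Finset.card_pos]
    omega
  obtain ⟨t, ht⟩ := hτne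
  obtain ⟨haρ, haD⟩ := ha u ⟨t, hτ ht, hu t (by simpa using ht)⟩
  -- values of `h`
  have hD : ∀ v ∈ ρ \ τ, cs.IsRightDescent u v → h (insert v τ) u = 0 := by
    intro v _ hv
    rw [hdef, if_neg]
    rintro ⟨h1, _⟩
    have h2 := length_mrep_lt cs (J := (↑(insert v τ) : Set B)) (w := u)
      (fun hmin => hmin v (by simp) hv)
    omega
  have hN : ∀ v ∈ ρ \ τ, ¬ cs.IsRightDescent u v → h (insert v τ) u =
      if a u ∈ insert v τ then g ((insert v τ).erase (a u)) u else 0 := by
    intro v _ hv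
    have hmin : IsMin cs (↑(insert v τ) : Set B) u := by
      intro j hj
      rw [Finset.coe_insert, Set.mem_insert_iff] at hj
      rcases hj with rfl | hj
      · exact hv
      · exact hu j hj
    rw [hdef, mrep_self cs hmin]
    by_cases h1 : a u ∈ insert v τ
    · rw [if_pos ⟨hl2, h1⟩, if_pos h1]
    · rw [if_neg (fun h => h1 h.2), if_neg h1]
  by_cases haτ : a u ∈ τ
  · -- the cocycle condition at `τ.erase (a u)`
    have hsub : τ.erase (a u) ⊆ ρ := (Finset.erase_subset _ _).trans hτ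
    have hcard' : (τ.erase (a u)).card + 1 = m := by
      rw [Finset.card_erase_of_mem haτ]
      omega
    have h1 := hco (τ.erase (a u)) hsub hcard' u
    have h2 : ρ \ (τ.erase (a u)) = insert (a u) (ρ \ τ) := by
      ext x
      simp only [Finset.mem_sdiff, Finset.mem_erase, Finset.mem_insert, not_and]
      constructor
      · rintro ⟨h3, h4⟩
        by_cases hx : x = a u
        · exact Or.inl hx
        · exact Or.inr ⟨h3, h4 hx⟩
      · rintro (rfl | ⟨h3, h4⟩)
        · exact ⟨haρ, fun h => absurd rfl h⟩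
        · exact ⟨h3, fun _ => h4⟩
    rw [h2, Finset.sum_insert (by simp [haτ]), Finset.insert_erase haτ] at h1
    have h3 : g τ u = ∑ v ∈ ρ \ τ, g (insert v (τ.erase (a u))) u := by
      have h4 := f1_two (∑ v ∈ ρ \ τ, g (insert v (τ.erase (a u))) u)
      rw [← h1] at h4
      exact (add_right_cancel h4).symm
    rw [h3]
    apply Finset.sum_congr rfl
    intro v hv
    have hvτ : v ∉ τ := (Finset.mem_sdiff.mp hv).2
    have hva : v ≠ a u := fun h => hvτ (h ▸ haτ)
    by_cases hvD : cs.IsRightDescent u v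
    · rw [hD v hv hvD]
      have hτ' : insert v (τ.erase (a u)) ⊆ ρ := by
        intro x hx
        rw [Finset.mem_insert] at hx
        rcases hx with rfl | hx
        · exact (Finset.mem_sdiff.mp hv).1
        · exact hsub hx
      have hc' : (insert v (τ.erase (a u))).card = m := by
        rw [Finset.card_insert_of_notMem (fun h => hvτ (Finset.mem_of_mem_erase h))]
        exact hcard'
      rw [← f1_mrep hg hτ' hc' u]
      apply hz _ hτ' hc' _ (mrep_isMin cs _ u)
      have h5 := length_mrep_lt cs (J := (↑(insert v (τ.erase (a u))) : Set B)) (w := u)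
        (fun hmin => hmin v (by simp) hvD)
      omega
    · rw [hN v hv hvD, if_pos (Finset.mem_insert_of_mem haτ), Finset.erase_insert_of_ne hva]
  · rw [Finset.sum_eq_single (a u)]
    · rw [hN (a u) (Finset.mem_sdiff.mpr ⟨haρ, haτ⟩) haD, if_pos (Finset.mem_insert_self _ _),
        Finset.erase_insert haτ]
    · intro v hv hva
      by_cases hvD : cs.IsRightDescent u v
      · exact hD v hv hvD
      · rw [hN v hv hvD, if_neg]
        rw [Finset.mem_insert, not_or]
        exact ⟨fun h => hva h.symm, haτ⟩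
    · intro h1
      exact absurd (Finset.mem_sdiff.mpr ⟨haρ, haτ⟩) h1

theorem coxeter_exact [DecidableEq B] [Finite W] (cs : CoxeterSystem M W) (ρ : Finset B) (m : ℕ)
    (hm : 1 ≤ m) (g : Finset B → W → ZMod 2) (hg : Inv cs ρ m g)
    (hco : ∀ τ ⊆ ρ, τ.card + 1 = m → ∀ w, ∑ v ∈ ρ \ τ, g (insert v τ) w = 0) :
    ∃ h : Finset B → W → ZMod 2, Inv cs ρ (m + 1) h ∧
      ∀ τ ⊆ ρ, τ.card = m → ∀ w, g τ w = ∑ v ∈ ρ \ τ, h (insert v τ) w := by
  have key : ∀ n : ℕ, ∃ h : Finset B → W → ZMod 2, Inv cs ρ (m + 1) h ∧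
      ∀ τ ⊆ ρ, τ.card = m → ∀ u, IsMin cs (↑τ : Set B) u → cs.length u < n →
        g τ u = ∑ v ∈ ρ \ τ, h (insert v τ) u := by
    intro n
    induction n with
    | zero =>
      exact ⟨fun _ _ => 0, fun _ _ _ _ _ _ => rfl, fun _ _ _ _ _ h => absurd h (Nat.not_lt_zero _)⟩
    | succ n ih =>
      obtain ⟨h, hh, hz⟩ := ih
      have hg' : Inv cs ρ m (fun τ w => g τ w + ∑ v ∈ ρ \ τ, h (insert v τ) w) := by
        intro τ hτ hcard v hv w
        show g τ (w * cs.simple v) + ∑ v' ∈ ρ \ τ, h (insert v' τ) (w * cs.simple v) =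
          g τ w + ∑ v' ∈ ρ \ τ, h (insert v' τ) w
        rw [hg τ hτ hcard v hv w]
        congr 1
        apply Finset.sum_congr rfl
        intro v' hv'
        rw [Finset.mem_sdiff] at hv'
        apply hh (insert v' τ) (Finset.insert_subset hv'.1 hτ)
          (by rw [Finset.card_insert_of_notMem hv'.2, hcard]) v (Finset.mem_insert_of_mem hv)
      have hco' : ∀ τ ⊆ ρ, τ.card + 1 = m → ∀ w, ∑ v ∈ ρ \ τ,
          (g (insert v τ) w + ∑ v' ∈ ρ \ insert v τ, h (insert v' (insert v τ)) w) = 0 := by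
        intro τ hτ hcard w
        rw [Finset.sum_add_distrib, hco τ hτ hcard w, zero_add]
        have h1 : ∀ v ∈ ρ \ τ, ∑ v' ∈ ρ \ insert v τ, h (insert v' (insert v τ)) w =
            ∑ v' ∈ (ρ \ τ).erase v, h (insert v' (insert v τ)) w := by
          intro v _
          rw [f1_sdiff_insert]
        rw [Finset.sum_congr rfl h1]
        apply f1_pair (ρ \ τ) (fun v v' => h (insert v' (insert v τ)) w)
        intro v v'
        show h (insert v' (insert v τ)) w = h (insert v (insert v' τ)) w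
        rw [Finset.insert_comm]
      obtain ⟨h', hh', hz'⟩ := f1_step cs ρ m hm _ hg' hco' n (fun τ hτ hcard u hu hl => by
        show g τ u + ∑ v ∈ ρ \ τ, h (insert v τ) u = 0
        rw [← hz τ hτ hcard u hu hl]
        exact f1_two _)
      refine ⟨fun τ w => h τ w + h' τ w, ?_, ?_⟩
      · intro τ hτ hcard v hv w
        show h τ (w * cs.simple v) + h' τ (w * cs.simple v) = h τ w + h' τ w
        rw [hh τ hτ hcard v hv w, hh' τ hτ hcard v hv w]
      · intro τ hτ hcard u hu hl
        have h1 : g τ u + ∑ v ∈ ρ \ τ, h (insert v τ) u = ∑ v ∈ ρ \ τ, h' (insert v τ) u :=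
          hz' τ hτ hcard u hu hl
        rw [Finset.sum_add_distrib, ← h1, add_comm, add_assoc, f1_two, add_zero]
  cases nonempty_fintype W
  obtain ⟨h, hh, hz⟩ := key (Finset.univ.sup cs.length + 1)
  refine ⟨h, hh, ?_⟩
  intro τ hτ hcard w
  have h1 := hz τ hτ hcard (mrep cs (↑τ : Set B) w) (mrep_isMin cs _ w)
    (Nat.lt_succ_of_le (Finset.le_sup (f := cs.length) (Finset.mem_univ _)))
  rw [f1_mrep hg hτ hcard w] at h1
  rw [h1]
  apply Finset.sum_congr rfl
  intro v hv
  rw [Finset.mem_sdiff] at hv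
  have h2 : w⁻¹ * mrep cs (↑τ : Set B) w ∈ par cs (↑(insert v τ) : Set B) :=
    par_mono cs (by simp) (mrep_mem cs (↑τ : Set B) w)
  have h3 := f1_inv hh (Finset.insert_subset hv.1 hτ)
    (by rw [Finset.card_insert_of_notMem hv.2, hcard]) h2 w
  rwa [mul_inv_cancel_left] at h3

lemma f1_simple_ne (cs : CoxeterSystem M W) (v : B) : cs.simple v ≠ 1 := by
  intro h
  have h1 := cs.length_simple v
  rw [h, cs.length_one] at h1
  exact absurd h1 (by norm_num)

lemma f1_mul_ne (cs : CoxeterSystem M W) (v : B) (w : W) : w * cs.simple v ≠ w := by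
  intro h
  exact f1_simple_ne cs v (mul_eq_left.mp h)

/-- functions which are coboundaries modulo the point mass at `1` -/
def F1C [DecidableEq W] (cs : CoxeterSystem M W) (ρ : Finset B) (f : W → ZMod 2) : Prop :=
  ∃ (c : ZMod 2) (h : Finset B → W → ZMod 2), Inv cs ρ 1 h ∧
    ∀ w ∈ par cs (↑ρ : Set B), f w + (if w = 1 then c else 0) = ∑ v ∈ ρ, h {v} w

lemma f1_C_zero [DecidableEq W] (cs : CoxeterSystem M W) (ρ : Finset B) :
    F1C cs ρ 0 := by
  refine ⟨0, fun _ _ => 0, fun _ _ _ _ _ _ => rfl, ?_⟩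
  intro w _
  simp

lemma f1_C_add [DecidableEq W] (cs : CoxeterSystem M W) (ρ : Finset B) {f f' : W → ZMod 2}
    (hf : F1C cs ρ f) (hf' : F1C cs ρ f') : F1C cs ρ (f + f') := by
  obtain ⟨c, h, hh, e⟩ := hf
  obtain ⟨c', h', hh', e'⟩ := hf'
  refine ⟨c + c', fun τ w => h τ w + h' τ w, ?_, ?_⟩
  · intro τ hτ hcard v hv w
    show h τ (w * cs.simple v) + h' τ (w * cs.simple v) = h τ w + h' τ w
    rw [hh τ hτ hcard v hv w, hh' τ hτ hcard v hv w]
  · intro w hw
    rw [Finset.sum_add_distrib, ← e w hw, ← e' w hw, Pi.add_apply]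
    split_ifs
    · ring
    · ring

lemma f1_C_pair [DecidableEq B] [DecidableEq W] (cs : CoxeterSystem M W) (ρ : Finset B) {v : B}
    (hv : v ∈ ρ) (w : W) : F1C cs ρ (Pi.single w 1 + Pi.single (w * cs.simple v) 1) := by
  refine ⟨0, fun τ x => if τ = {v} ∧ (x = w ∨ x = w * cs.simple v) then 1 else 0, ?_, ?_⟩
  · intro τ _ _ v' hv' x
    show (if τ = {v} ∧ (x * cs.simple v' = w ∨ x * cs.simple v' = w * cs.simple v) then
      (1 : ZMod 2) else 0) = if τ = {v} ∧ (x = w ∨ x = w * cs.simple v) then 1 else 0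
    by_cases hτ : τ = {v}
    · have hvv : v' = v := by
        rw [hτ, Finset.mem_singleton] at hv'
        exact hv'
      subst hvv
      have e1 : x * cs.simple v' = w ↔ x = w * cs.simple v' := by
        constructor
        · rintro rfl
          rw [mul_assoc, cs.simple_mul_simple_self, mul_one]
        · rintro rfl
          rw [mul_assoc, cs.simple_mul_simple_self, mul_one]
      have e2 : x * cs.simple v' = w * cs.simple v' ↔ x = w := mul_left_inj _
      have e3 : (τ = {v'} ∧ (x * cs.simple v' = w ∨ x * cs.simple v' = w * cs.simple v')) ↔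
          (τ = {v'} ∧ (x = w ∨ x = w * cs.simple v')) := by
        rw [e1, e2, or_comm]
      simp only [e3]
    · rw [if_neg (fun h => hτ h.1), if_neg (fun h => hτ h.1)]
  · intro x _
    show (Pi.single w 1 + Pi.single (w * cs.simple v) 1 : W → ZMod 2) x +
      (if x = 1 then 0 else 0) = ∑ v' ∈ ρ,
        (if ({v'} : Finset B) = {v} ∧ (x = w ∨ x = w * cs.simple v) then (1 : ZMod 2) else 0)
    rw [Finset.sum_eq_single v]
    · rw [Pi.add_apply, ite_self, add_zero]
      by_cases h1 : x = w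
      · subst h1
        rw [Pi.single_eq_same, Pi.single_eq_of_ne (f1_mul_ne cs v x).symm, add_zero,
          if_pos ⟨rfl, Or.inl rfl⟩]
      · by_cases h2 : x = w * cs.simple v
        · subst h2
          rw [Pi.single_eq_same, Pi.single_eq_of_ne h1, zero_add, if_pos ⟨rfl, Or.inr rfl⟩]
        · rw [Pi.single_eq_of_ne h1, Pi.single_eq_of_ne h2, add_zero, if_neg]
          rintro ⟨_, h3 | h3⟩
          · exact h1 h3
          · exact h2 h3
    · intro v' _ hv'
      rw [if_neg]
      rintro ⟨h1, _⟩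
      exact hv' (Finset.singleton_inj.mp h1)
    · intro h1
      exact absurd hv h1

lemma f1_C_move [DecidableEq B] [DecidableEq W] (cs : CoxeterSystem M W) (ρ : Finset B) {y : W}
    (hy : y ∈ par cs (↑ρ : Set B)) :
    ∀ w, F1C cs ρ (Pi.single w 1 + Pi.single (w * y) 1) := by
  have h2 : ∀ x : W → ZMod 2, x + x = 0 := fun x => by
    funext i
    exact f1_two _
  unfold par at hy
  induction hy using Subgroup.closure_induction with
  | mem x hx =>
    obtain ⟨v, hv, rfl⟩ := hx
    exact f1_C_pair cs ρ (by simpa using hv)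
  | one =>
    intro w
    rw [mul_one, h2]
    exact f1_C_zero cs ρ
  | mul x y _ _ hx hy =>
    intro w
    have h3 := f1_C_add cs ρ (hx w) (hy (w * x))
    have h4 : (Pi.single w 1 + Pi.single (w * x) 1 +
        (Pi.single (w * x) 1 + Pi.single (w * x * y) 1) : W → ZMod 2) =
        Pi.single w 1 + Pi.single (w * (x * y)) 1 := by
      rw [add_assoc, ← add_assoc (Pi.single (w * x) 1 : W → ZMod 2), h2, zero_add, mul_assoc]
    rwa [h4] at h3
  | inv x _ hx =>
    intro w
    have h3 := hx (w * x⁻¹)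
    rwa [inv_mul_cancel_right, add_comm] at h3

/-- in the top degree the cohomology is at most one dimensional -/
theorem coxeter_top [DecidableEq B] [Finite W] (cs : CoxeterSystem M W) (ρ : Finset B)
    (g : W → ZMod 2) : ∃ (c : ZMod 2) (h : Finset B → W → ZMod 2), Inv cs ρ 1 h ∧
      (∀ w ∈ par cs (↑ρ : Set B), w ≠ 1 → g w = ∑ v ∈ ρ, h {v} w) ∧
      g 1 + c = ∑ v ∈ ρ, h {v} 1 := by
  classical
  cases nonempty_fintype W
  have h01 : ∀ x : ZMod 2, x = 0 ∨ x = 1 := by decide
  have h1 : F1C cs ρ (Pi.single 1 1) := by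
    refine ⟨1, fun _ _ => 0, fun _ _ _ _ _ _ => rfl, ?_⟩
    intro w _
    rw [Finset.sum_const_zero]
    by_cases hw : w = 1
    · subst hw
      rw [Pi.single_eq_same, if_pos rfl]
      exact f1_two 1
    · rw [Pi.single_eq_of_ne hw, if_neg hw, add_zero]
  have h2 : ∀ x : W, F1C cs ρ (Pi.single x (g x)) := by
    intro x
    rcases h01 (g x) with hx | hx
    · rw [hx, Pi.single_zero]
      exact f1_C_zero cs ρ
    · rw [hx]
      by_cases hxρ : x ∈ par cs (↑ρ : Set B)
      · have h3 := f1_C_add cs ρ h1 (f1_C_move cs ρ hxρ 1)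
        rw [one_mul, ← add_assoc] at h3
        have h4 : (Pi.single 1 1 + Pi.single 1 1 : W → ZMod 2) = 0 := by
          funext i
          exact f1_two _
        rwa [h4, zero_add] at h3
      · refine ⟨0, fun _ _ => 0, fun _ _ _ _ _ _ => rfl, ?_⟩
        intro w hw
        rw [Finset.sum_const_zero, ite_self, add_zero, Pi.single_eq_of_ne]
        rintro rfl
        exact hxρ hw
  have h3 : F1C cs ρ g := by
    have h4 : g = ∑ x, Pi.single x (g x) := (Finset.univ_sum_single g).symm
    rw [h4]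
    exact Finset.sum_induction _ (F1C cs ρ) (fun _ _ => f1_C_add cs ρ) (f1_C_zero cs ρ)
      (fun x _ => h2 x)
  obtain ⟨c, h, hh, e⟩ := h3
  refine ⟨c, h, hh, ?_, ?_⟩
  · intro w hw hw1
    have := e w hw
    rwa [if_neg hw1, add_zero] at this
  · have := e 1 (one_mem _)
    rwa [if_pos rfl] at this

/-- and not zero: the indicator function of `1` is not a coboundary -/
theorem coxeter_top_ne [DecidableEq B] [DecidableEq W] [Finite W] (cs : CoxeterSystem M W)
    (ρ : Finset B) (h : Finset B → W → ZMod 2) (hh : Inv cs ρ 1 h) :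
    ¬ (∀ w ∈ par cs (↑ρ : Set B), (if w = 1 then (1 : ZMod 2) else 0) = ∑ v ∈ ρ, h {v} w) := by
  classical
  cases nonempty_fintype W
  intro H
  have h1 : ∑ w ∈ Finset.univ.filter (fun w => w ∈ par cs (↑ρ : Set B)),
      (if w = 1 then (1 : ZMod 2) else 0) = 1 := by
    rw [Finset.sum_eq_single 1]
    · rw [if_pos rfl]
    · intro w _ hw
      rw [if_neg hw]
    · intro h2
      exact absurd (Finset.mem_filter.mpr ⟨Finset.mem_univ _, one_mem _⟩) h2
  have h2 : ∑ w ∈ Finset.univ.filter (fun w => w ∈ par cs (↑ρ : Set B)),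
      (if w = 1 then (1 : ZMod 2) else 0) =
      ∑ w ∈ Finset.univ.filter (fun w => w ∈ par cs (↑ρ : Set B)), ∑ v ∈ ρ, h {v} w := by
    apply Finset.sum_congr rfl
    intro w hw
    exact H w (Finset.mem_filter.mp hw).2
  rw [h1, Finset.sum_comm, Finset.sum_eq_zero] at h2
  · exact absurd h2 (by decide)
  intro v hv
  apply Finset.sum_involution (fun w _ => w * cs.simple v)
  · intro w _
    rw [hh {v} (by simpa using hv) (Finset.card_singleton v) v (Finset.mem_singleton_self v) w]
    exact f1_two _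
  · intro w _ _
    exact f1_mul_ne cs v w
  · intro w hw
    rw [Finset.mem_filter] at hw ⊢
    exact ⟨Finset.mem_univ _, mul_mem hw.2 (simple_mem_par cs (by simpa using hv))⟩
  · intro w _
    show w * cs.simple v * cs.simple v = w
    rw [mul_assoc, cs.simple_mul_simple_self, mul_one]

end Pool.H8.CDW
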