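import Pool.Agent.H8.CDW.E1
import Pool.Agent.H8.CDW.F1

/-!
# [H8 CDW G1] the Coxeter complex is a mod 2 sphere

Let `t = cface cs A w₀` (`clique_eq_cface`), `ρ = univ \ A`, `|ρ| + |A| = |B|` (`card_cface`).  By `link_iff` the faces of the link of `t` are the
`cface cs C (w₀ * y)`, `C ⊆ ρ`, `y ∈ par ρ` (`(↑A)ᶜ = ↑ρ`).  A face with `k` vertices corresponds to `τ = ρ \ C` with `|τ| = |ρ| - k`, and depends only on the
coset `y par τ` (`cface_eq_iff`: `y⁻¹ y' ∈ par (Cᶜ) ∩ par ρ = par τ`, `par_inter`).  For `g : Finset (CV cs) → ZMod 2` put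
`g' τ y = g (cface cs (ρ \ τ) (w₀ * y))` for `y ∈ par ρ` and `0` otherwise (decide classically; `par ρ` is stable under right multiplication by `s_v`,
`v ∈ τ ⊆ ρ`): it satisfies `Inv`.  `cob g (cface cs C x) = ∑ v ∈ C, g (cface cs (C.erase v) x)` (erase of `cvx cs v x` from the face), which is
`∑ v ∈ ρ \ τ, g' (insert v τ) y` with `τ = ρ \ C`.
`exact`: `k + |A| < |B|` means `m = |ρ| - k ≥ 1`: `coxeter_exact` gives `h'`, and `h` on faces is defined by
`h s = h' τ y` for any `C`, `y` with `s = cface cs C (w₀ * y)`, `τ = ρ \ C` (choice; well defined by `Inv` for `par τ`, only for `|C| + 1 = k` needed).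
`top`: `k = |ρ|`, faces `cface cs ρ (w₀ y)`, one for every `y ∈ par ρ`; `g` = indicator of `cface cs ρ w₀`; `coxeter_top_ne`, `coxeter_top`.
`card_le`: a clique is a `cface`, its number of vertices is `|A| ≤ |B|`.
-/

set_option autoImplicit false

namespace Pool.H8.CDW

open CoxeterSystem

variable {B : Type} {W : Type} [Group W] {M : CoxeterMatrix B}

namespace G1

lemma cface_erase [DecidableEq B] (cs : CoxeterSystem M W) (C : Finset B) (v : B) (x : W) :
    (cface cs C x).erase (cvx cs v x) = cface cs (C.erase v) x := by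
  unfold cface
  rw [Finset.image_erase]
  intro a b h
  exact ((cvx_eq_iff cs).1 h).1

lemma cob_cface [DecidableEq B] (cs : CoxeterSystem M W) (g : Finset (CV cs) → ZMod 2)
    (C : Finset B) (x : W) :
    cob g (cface cs C x) = ∑ v ∈ C, g (cface cs (C.erase v) x) := by
  unfold cob
  have h1 : cface cs C x = C.image (fun v => cvx cs v x) := rfl
  conv_lhs => rw [h1]
  rw [Finset.sum_image]
  · refine Finset.sum_congr rfl fun v _ => ?_
    rw [← h1, cface_erase]
  · intro a _ b _ h
    exact ((cvx_eq_iff cs).1 h).1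

/-- invariance of a cochain under the whole parabolic subgroup of its type -/
lemma inv_par (cs : CoxeterSystem M W) {ρ : Finset B} {m : ℕ} {h : Finset B → W → ZMod 2}
    (hh : Inv cs ρ m h) {τ : Finset B} (hτ : τ ⊆ ρ) (hm : τ.card = m) {y : W}
    (hy : y ∈ par cs (↑τ : Set B)) : ∀ w : W, h τ (w * y) = h τ w := by
  unfold par at hy
  induction hy using Subgroup.closure_induction with
  | mem x hx =>
    obtain ⟨v, hv, rfl⟩ := hx
    intro w
    exact hh τ hτ hm v hv w
  | one => intro w; rw [mul_one]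
  | mul a b _ _ iha ihb =>
    intro w
    rw [← mul_assoc, ihb, iha]
  | inv a _ iha =>
    intro w
    have := iha (w * a⁻¹)
    rw [mul_assoc, inv_mul_cancel, mul_one] at this
    exact this.symm

open Classical in
/-- pull back of a cochain on faces -/
noncomputable def up (cs : CoxeterSystem M W) (ρ : Finset B) (w₀ : W)
    (g : Finset (CV cs) → ZMod 2) (τ : Finset B) (y : W) : ZMod 2 :=
  if y ∈ par cs (↑ρ : Set B) then g (cface cs (ρ \ τ) (w₀ * y)) else 0

lemma up_mem [DecidableEq B] (cs : CoxeterSystem M W) (ρ : Finset B) (w₀ : W)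
    (g : Finset (CV cs) → ZMod 2) (τ : Finset B) {y : W} (hy : y ∈ par cs (↑ρ : Set B)) :
    up cs ρ w₀ g τ y = g (cface cs (ρ \ τ) (w₀ * y)) := by
  unfold up
  rw [if_pos hy]
  refine congrArg g (congrArg (fun s => cface cs s (w₀ * y)) ?_)
  ext x
  simp

lemma up_not_mem (cs : CoxeterSystem M W) (ρ : Finset B) (w₀ : W)
    (g : Finset (CV cs) → ZMod 2) (τ : Finset B) {y : W} (hy : y ∉ par cs (↑ρ : Set B)) :
    up cs ρ w₀ g τ y = 0 := by
  unfold up
  rw [if_neg hy]

lemma up_inv (cs : CoxeterSystem M W) (hinj : Function.Injective cs.simple) (ρ : Finset B) (w₀ : W)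
    (g : Finset (CV cs) → ZMod 2) (m : ℕ) : Inv cs ρ m (up cs ρ w₀ g) := by
  classical
  intro τ hτ _ v hv w
  have hs : cs.simple v ∈ par cs (↑ρ : Set B) := simple_mem_par cs (Finset.mem_coe.2 (hτ hv))
  by_cases hw : w ∈ par cs (↑ρ : Set B)
  · rw [up_mem cs ρ w₀ g τ hw, up_mem cs ρ w₀ g τ (mul_mem hw hs)]
    congr 1
    rw [cface_eq_iff cs hinj]
    refine ⟨rfl, ?_⟩
    have e : (w₀ * (w * cs.simple v))⁻¹ * (w₀ * w) = (cs.simple v)⁻¹ := by group
    rw [e]
    refine inv_mem (simple_mem_par cs ?_)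
    simp [hv]
  · rw [up_not_mem cs ρ w₀ g τ hw, up_not_mem cs ρ w₀ g τ]
    intro h
    apply hw
    have := mul_mem h (inv_mem hs)
    rwa [mul_inv_cancel_right] at this

open Classical in
/-- push a cochain down to the faces -/
noncomputable def down (cs : CoxeterSystem M W) (ρ : Finset B) (w₀ : W)
    (h : Finset B → W → ZMod 2) (s : Finset (CV cs)) : ZMod 2 :=
  if H : ∃ p : Finset B × W, p.1 ⊆ ρ ∧ p.2 ∈ par cs (↑ρ : Set B) ∧ s = cface cs p.1 (w₀ * p.2)
  then h (ρ \ H.choose.1) H.choose.2 else 0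

lemma down_cface [DecidableEq B] (cs : CoxeterSystem M W) (hinj : Function.Injective cs.simple)
    (ρ : Finset B) (w₀ : W) {m : ℕ} {h : Finset B → W → ZMod 2} (hh : Inv cs ρ m h)
    {C : Finset B} (hC : C ⊆ ρ) (hm : m + C.card = ρ.card) {y : W}
    (hy : y ∈ par cs (↑ρ : Set B)) :
    down cs ρ w₀ h (cface cs C (w₀ * y)) = h (ρ \ C) y := by
  classical
  have H : ∃ p : Finset B × W, p.1 ⊆ ρ ∧ p.2 ∈ par cs (↑ρ : Set B) ∧
      cface cs C (w₀ * y) = cface cs p.1 (w₀ * p.2) := ⟨(C, y), hC, hy, rfl⟩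
  unfold down
  rw [dif_pos H]
  obtain ⟨h1, h2, h3⟩ := H.choose_spec
  set p := H.choose with hp
  rw [cface_eq_iff cs hinj] at h3
  obtain ⟨h4, h5⟩ := h3
  have e : (w₀ * y)⁻¹ * (w₀ * p.2) = y⁻¹ * p.2 := by group
  rw [e] at h5
  have h6 : y⁻¹ * p.2 ∈ par cs (↑(ρ \ C) : Set B) := by
    have h7 : y⁻¹ * p.2 ∈ par cs ((↑C : Set B)ᶜ) ⊓ par cs (↑ρ : Set B) :=
      Subgroup.mem_inf.2 ⟨h5, mul_mem (inv_mem hy) h2⟩
    rw [par_inter cs hinj] at h7
    have e2 : ((↑C : Set B)ᶜ ∩ (↑ρ : Set B)) = (↑(ρ \ C) : Set B) := by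
      ext x
      simp [and_comm]
    rwa [e2] at h7
  have hcard : (ρ \ C).card = m := by
    rw [Finset.card_sdiff_of_subset hC]
    omega
  have h8 := inv_par cs hh Finset.sdiff_subset hcard h6 y
  rw [mul_inv_cancel_left] at h8
  rw [← h8, ← h4]
  refine congrArg (fun s => h s p.2) ?_
  ext x
  simp

end G1

open G1

theorem sphere_CG [Fintype B] [Finite W] (cs : CoxeterSystem M W)
    (hinj : Function.Injective cs.simple) : Sphere (CG cs) (Fintype.card B) := by
  classical
  -- faces of the link of a clique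
  have key : ∀ (A : Finset B) (w₀ : W) (s : Finset (CV cs)),
      Link (CG cs) (cface cs A w₀) s ↔ ∃ (C : Finset B) (y : W), C ⊆ Finset.univ \ A ∧
        y ∈ par cs (↑(Finset.univ \ A) : Set B) ∧ s = cface cs C (w₀ * y) := by
    intro A w₀ s
    have e : ((↑A : Set B)ᶜ) = (↑(Finset.univ \ A) : Set B) := by
      ext x; simp
    rw [link_iff cs hinj, e]
    constructor
    · rintro ⟨C, y, h1, h2, h3⟩
      refine ⟨C, y, ?_, h2, h3⟩
      intro x hx
      simp only [Finset.mem_sdiff, Finset.mem_univ, true_and]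
      exact Finset.disjoint_left.1 h1 hx
    · rintro ⟨C, y, h1, h2, h3⟩
      refine ⟨C, y, ?_, h2, h3⟩
      rw [Finset.disjoint_left]
      intro x hx
      have := h1 hx
      simp only [Finset.mem_sdiff, Finset.mem_univ, true_and] at this
      exact this
  have hcardρ : ∀ A : Finset B, (Finset.univ \ A).card + A.card = Fintype.card B := by
    intro A
    rw [Finset.card_sdiff_of_subset (Finset.subset_univ A), Finset.card_univ]
    have := Finset.card_le_univ A
    omega
  refine ⟨?_, ?_, ?_⟩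
  · -- card_le
    intro t ht
    obtain ⟨A, w, rfl⟩ := clique_eq_cface cs hinj ht
    rw [card_cface]
    exact Finset.card_le_univ A
  · -- exact
    intro t ht k hk g hg
    obtain ⟨A, w₀, rfl⟩ := clique_eq_cface cs hinj ht
    rw [card_cface] at hk
    have hρ := hcardρ A
    have key := key A w₀
    set ρ : Finset B := Finset.univ \ A with hρdef
    obtain ⟨m, hm⟩ : ∃ m, m + k = ρ.card := ⟨ρ.card - k, by omega⟩
    have hm1 : 1 ≤ m := by omega
    obtain ⟨h', hh', hh2⟩ := coxeter_exact cs ρ m hm1 (up cs ρ w₀ g) (up_inv cs hinj ρ w₀ g m) (by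
      intro τ hτ hcard w
      by_cases hw : w ∈ par cs (↑ρ : Set B)
      · have hcard2 : (ρ \ τ).card = k + 1 := by
          rw [Finset.card_sdiff_of_subset hτ]
          omega
        have hl : Link (CG cs) (cface cs A w₀) (cface cs (ρ \ τ) (w₀ * w)) :=
          (key _).2 ⟨ρ \ τ, w, Finset.sdiff_subset, hw, rfl⟩
        have := hg _ hl (by rw [card_cface]; exact hcard2)
        rw [cob_cface] at this
        rw [← this]
        refine Finset.sum_congr rfl fun v hv => ?_
        rw [up_mem cs ρ w₀ g _ hw]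
        congr 2
        ext x
        simp only [Finset.mem_sdiff, Finset.mem_insert, Finset.mem_erase]
        tauto
      · refine Finset.sum_eq_zero fun v _ => ?_
        exact up_not_mem cs ρ w₀ g _ hw)
    refine ⟨down cs ρ w₀ h', ?_⟩
    intro s hs hsk
    obtain ⟨C, y, hC, hy, rfl⟩ := (key s).1 hs
    rw [card_cface] at hsk
    rw [cob_cface]
    have h1 := hh2 (ρ \ C) Finset.sdiff_subset (by
      rw [Finset.card_sdiff_of_subset hC]; omega) y
    rw [up_mem cs ρ w₀ g _ hy] at h1
    have e1 : ρ \ (ρ \ C) = C := by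
      ext x
      simp only [Finset.mem_sdiff, not_and, not_not]
      exact ⟨fun h => h.2 h.1, fun h => ⟨hC h, fun _ => h⟩⟩
    rw [e1] at h1
    rw [h1]
    refine Finset.sum_congr rfl fun v hv => ?_
    have hcard3 : (C.erase v).card + 1 = C.card := by
      rw [Finset.card_erase_of_mem hv]
      have := Finset.card_pos.2 ⟨v, hv⟩
      omega
    rw [down_cface cs hinj ρ w₀ hh' ((Finset.erase_subset _ _).trans hC) (by omega) hy]
    congr 1
    ext x
    simp only [Finset.mem_sdiff, Finset.mem_insert, Finset.mem_erase]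
    constructor
    · rintro (rfl | ⟨h3, h4⟩)
      · exact ⟨hC hv, fun h => h.1 rfl⟩
      · exact ⟨h3, fun h => h4 h.2⟩
    · rintro ⟨h3, h4⟩
      by_cases hxv : x = v
      · exact Or.inl hxv
      · exact Or.inr ⟨h3, fun h => h4 ⟨hxv, h⟩⟩
  · -- top
    intro t ht
    obtain ⟨A, w₀, rfl⟩ := clique_eq_cface cs hinj ht
    have hρ := hcardρ A
    have key := key A w₀
    set ρ : Finset B := Finset.univ \ A with hρdef
    refine ⟨ρ.card, by rw [card_cface]; exact hρ, fun s => if s = cface cs ρ w₀ then 1 else 0, ?_, ?_⟩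
    · -- not a coboundary
      rintro ⟨h, hh⟩
      refine coxeter_top_ne cs ρ (up cs ρ w₀ h) (up_inv cs hinj ρ w₀ h 1) ?_
      intro w hw
      have hl : Link (CG cs) (cface cs A w₀) (cface cs ρ (w₀ * w)) :=
        (key _).2 ⟨ρ, w, Finset.Subset.refl _, hw, rfl⟩
      have h1 := hh _ hl (card_cface cs _ _)
      rw [cob_cface] at h1
      have e1 : (∑ v ∈ ρ, up cs ρ w₀ h {v} w) = ∑ v ∈ ρ, h (cface cs (ρ.erase v) (w₀ * w)) := by
        refine Finset.sum_congr rfl fun v hv => ?_
        rw [up_mem cs ρ w₀ h _ hw, Finset.sdiff_singleton_eq_erase]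
      rw [e1, ← h1]
      have e2 : (cface cs ρ (w₀ * w) = cface cs ρ w₀) ↔ w = 1 := by
        constructor
        · intro h2
          rw [cface_eq_iff cs hinj] at h2
          have h3 := h2.2
          have e : (w₀ * w)⁻¹ * w₀ = w⁻¹ := by group
          rw [e] at h3
          have h4 : w⁻¹ ∈ par cs ((↑ρ : Set B)ᶜ) ⊓ par cs (↑ρ : Set B) :=
            Subgroup.mem_inf.2 ⟨h3, inv_mem hw⟩
          rw [par_inter cs hinj, Set.compl_inter_self, par_empty, Subgroup.mem_bot] at h4
          rwa [inv_eq_one] at h4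
        · rintro rfl
          rw [mul_one]
      simp only [e2]
    · intro g'
      obtain ⟨c, h, hh, h1, h2⟩ := coxeter_top cs ρ (fun y => g' (cface cs ρ (w₀ * y)))
      have hred : ∀ s, Link (CG cs) (cface cs A w₀) s → s.card = ρ.card →
          ∃ y ∈ par cs (↑ρ : Set B), s = cface cs ρ (w₀ * y) ∧
            cob (down cs ρ w₀ h) s = ∑ v ∈ ρ, h {v} y := by
        intro s hs hsk
        obtain ⟨C, y, hC, hy, rfl⟩ := (key s).1 hs
        rw [card_cface] at hsk
        have hCρ : C = ρ := Finset.eq_of_subset_of_card_le hC (by omega)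
        subst hCρ
        refine ⟨y, hy, rfl, ?_⟩
        rw [cob_cface]
        refine Finset.sum_congr rfl fun v hv => ?_
        have hcard3 : (ρ.erase v).card + 1 = ρ.card := by
          rw [Finset.card_erase_of_mem hv]
          have := Finset.card_pos.2 ⟨v, hv⟩
          omega
        rw [down_cface cs hinj ρ w₀ hh (Finset.erase_subset _ _) (by omega) hy]
        congr 1
        ext x
        simp only [Finset.mem_sdiff, Finset.mem_singleton, Finset.mem_erase]
        constructor
        · rintro ⟨h3, h4⟩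
          by_contra h5
          exact h4 ⟨h5, h3⟩
        · rintro rfl
          exact ⟨hv, fun h => h.1 rfl⟩
      have hc : c = 0 ∨ c = 1 := by
        fin_cases c
        · exact Or.inl rfl
        · exact Or.inr rfl
      rcases hc with rfl | rfl
      · left
        refine ⟨down cs ρ w₀ h, ?_⟩
        intro s hs hsk
        obtain ⟨y, hy, rfl, h3⟩ := hred s hs hsk
        rw [h3]
        by_cases hy1 : y = 1
        · subst hy1
          rw [← h2, add_zero]
        · exact h1 y hy hy1
      · right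
        refine ⟨down cs ρ w₀ h, ?_⟩
        intro s hs hsk
        obtain ⟨y, hy, rfl, h3⟩ := hred s hs hsk
        rw [h3]
        by_cases hy1 : y = 1
        · subst hy1
          rw [← h2]
          simp only [mul_one, if_true]
        · rw [← h1 y hy hy1]
          have e2 : ¬ (cface cs ρ (w₀ * y) = cface cs ρ w₀) := by
            intro h4
            rw [cface_eq_iff cs hinj] at h4
            have h5 := h4.2
            have e : (w₀ * y)⁻¹ * w₀ = y⁻¹ := by group
            rw [e] at h5
            have h6 : y⁻¹ ∈ par cs ((↑ρ : Set B)ᶜ) ⊓ par cs (↑ρ : Set B) :=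
              Subgroup.mem_inf.2 ⟨h5, inv_mem hy⟩
            rw [par_inter cs hinj, Set.compl_inter_self, par_empty, Subgroup.mem_bot] at h6
            rw [inv_eq_one] at h6
            exact hy1 h6
          simp only [e2, if_false, add_zero]

end Pool.H8.CDW
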