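import Pool.Agent.H8.CDW.Sph

/-!
# [H8 CDW H1] Euler characteristic and Dehn-Sommerville

`eul_eq` (`t` a clique, `N` the rank): rank-nullity for the augmented cochain complex of the link.  Let `C k` be the `ZMod 2`-space of functions on
the faces of the link of `t` with `k` vertices (subtype, `Fintype`), `δ_k : C k → C (k+1)` the linear map `cob`, `r k` the rank of `δ_k`;
`dim C k = r k + dim ker δ_k`; `exact`: `dim ker δ_k = r (k-1)` for `k + |t| < N` (`r (-1) = 0`), `top`: `C K = ker δ_K` (`card_le`: no faces with more vertices) and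
`dim C K = r (K-1) + 1`, `K = N - |t|`.  Alternating sum: `∑ (-1)^k dim C k = (-1)^K`.
(Alternatively with cardinalities `2^dim` of the groups.)
`kap_odd`: `κ = ∑ s, (-1/2)^|s|` over the link of `t`; for a face `s` the link of `s ∪ t` has `eul = (-1)^(N - |t| - |s|)`, and its faces `u` correspond to the faces
`s ∪ u` of the link of `t` containing `s`.  So `κ = ∑_s (-1/2)^|s| (-1)^(K-|s|) ∑_{s ⊆ f} (-1)^(|f|-|s|) = (-1)^K ∑_f (-1)^|f| ∑_{s ⊆ f} (-1/2)^|s| = (-1)^K ∑_f (-1)^|f| (1/2)^|f| = (-1)^K κ`
(signs: `(-1)^(-|s|) (-1)^(-|s|) = 1`; `∑_{s ⊆ f} x^|s| = (1+x)^|f|`: `Finset.sum_pow_mul_eq_add_pow`), hence `κ = 0` for odd `K`.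
-/

set_option autoImplicit false
set_option linter.unusedSectionVars false
set_option linter.unusedVariables false

namespace Pool.H8.CDW

variable {V : Type} [Fintype V] [DecidableEq V]

/-- faces with `k` vertices of the link of `t` -/
abbrev H1F (G : SimpleGraph V) (t : Finset V) (k : ℕ) : Type :=
  {s : Finset V // Link G t s ∧ s.card = k}

/-- `cob` as a linear map -/
def h1_cob (V : Type) [DecidableEq V] : (Finset V → ZMod 2) →ₗ[ZMod 2] (Finset V → ZMod 2) where
  toFun g := cob g
  map_add' g h := by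
    funext s
    simp [cob, Finset.sum_add_distrib]
  map_smul' c g := by
    funext s
    simp [cob, Finset.mul_sum]

/-- restriction to the faces with `k` vertices -/
def h1_res (G : SimpleGraph V) (t : Finset V) (k : ℕ) :
    (Finset V → ZMod 2) →ₗ[ZMod 2] (H1F G t k → ZMod 2) where
  toFun g s := g s.1
  map_add' _ _ := rfl
  map_smul' _ _ := rfl

open Classical in
/-- extension by zero -/
noncomputable def h1_ext (G : SimpleGraph V) (t : Finset V) (k : ℕ) :
    (H1F G t k → ZMod 2) →ₗ[ZMod 2] (Finset V → ZMod 2) where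
  toFun c s := if h : Link G t s ∧ s.card = k then c ⟨s, h⟩ else 0
  map_add' c d := by
    funext s
    by_cases h : Link G t s ∧ s.card = k
    · simp [h]
    · simp [h]
  map_smul' a c := by
    funext s
    by_cases h : Link G t s ∧ s.card = k
    · simp [h]
    · simp [h]

lemma h1_res_ext (G : SimpleGraph V) (t : Finset V) (k : ℕ) (c : H1F G t k → ZMod 2) :
    h1_res G t k (h1_ext G t k c) = c := by
  funext s
  show (h1_ext G t k c) s.1 = c s
  unfold h1_ext
  simp only [LinearMap.coe_mk, AddHom.coe_mk]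
  rw [dif_pos s.2]

lemma h1_ext_res (G : SimpleGraph V) (t : Finset V) (k : ℕ) (g : Finset V → ZMod 2) (s : Finset V)
    (h1 : Link G t s) (h2 : s.card = k) : h1_ext G t k (h1_res G t k g) s = g s := by
  unfold h1_ext h1_res
  simp only [LinearMap.coe_mk, AddHom.coe_mk]
  rw [dif_pos ⟨h1, h2⟩]

lemma h1_link_erase {G : SimpleGraph V} {t s : Finset V} (h : Link G t s) (v : V) :
    Link G t (s.erase v) := by
  refine ⟨Finset.disjoint_of_subset_left (Finset.erase_subset _ _) h.1, ?_⟩
  refine SimpleGraph.IsClique.subset ?_ h.2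
  intro x hx
  rcases hx with hx | hx
  · left
    exact Finset.mem_coe.2 (Finset.mem_of_mem_erase (Finset.mem_coe.1 hx))
  · right
    exact hx

lemma h1_cob_congr {G : SimpleGraph V} {t : Finset V} {k : ℕ} (g : Finset V → ZMod 2)
    {s : Finset V} (hs : Link G t s) (hc : s.card = k + 1) :
    cob (h1_ext G t k (h1_res G t k g)) s = cob g s := by
  unfold cob
  refine Finset.sum_congr rfl (fun v hv => ?_)
  refine h1_ext_res G t k g _ (h1_link_erase hs v) ?_
  rw [Finset.card_erase_of_mem hv, hc]
  rfl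

/-- the differential -/
noncomputable def h1_d (G : SimpleGraph V) (t : Finset V) (k : ℕ) :
    (H1F G t k → ZMod 2) →ₗ[ZMod 2] (H1F G t (k + 1) → ZMod 2) :=
  (h1_res G t (k + 1)).comp ((h1_cob V).comp (h1_ext G t k))

/-- the coboundaries -/
noncomputable def h1_B (G : SimpleGraph V) (t : Finset V) (k : ℕ) :
    Submodule (ZMod 2) (H1F G t k → ZMod 2) :=
  LinearMap.range ((h1_res G t k).comp (h1_cob V))

lemma h1_mem_B {G : SimpleGraph V} {t : Finset V} {k : ℕ} (g : Finset V → ZMod 2) :
    h1_res G t k g ∈ h1_B G t k ↔ IsCob G t k g := by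
  unfold h1_B IsCob
  rw [LinearMap.mem_range]
  constructor
  · rintro ⟨h, hh⟩
    refine ⟨h, fun s hs hc => ?_⟩
    have := congrFun hh ⟨s, hs, hc⟩
    exact this.symm
  · rintro ⟨h, hh⟩
    refine ⟨h, ?_⟩
    funext s
    exact (hh s.1 s.2.1 s.2.2).symm

lemma h1_B_zero (G : SimpleGraph V) (t : Finset V) : h1_B G t 0 = ⊥ := by
  rw [eq_bot_iff]
  rintro c ⟨h, rfl⟩
  rw [Submodule.mem_bot]
  funext s
  show cob h s.1 = 0
  have : s.1 = ∅ := Finset.card_eq_zero.1 s.2.2
  rw [this]
  simp [cob]

lemma h1_range_d (G : SimpleGraph V) (t : Finset V) (k : ℕ) :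
    LinearMap.range (h1_d G t k) = h1_B G t (k + 1) := by
  apply le_antisymm
  · rintro c ⟨x, rfl⟩
    exact ⟨h1_ext G t k x, rfl⟩
  · rintro c ⟨h, rfl⟩
    refine ⟨h1_res G t k h, ?_⟩
    funext s
    exact h1_cob_congr h s.2.1 s.2.2

lemma h1_cob_cob (g : Finset V → ZMod 2) (s : Finset V) : cob (cob g) s = 0 := by
  unfold cob
  rw [Finset.sum_sigma']
  refine Finset.sum_involution (fun p _ => ⟨p.2, p.1⟩) ?_ ?_ ?_ ?_
  · rintro ⟨a, b⟩ h
    simp only
    rw [Finset.erase_right_comm]
    exact CharTwo.add_self_eq_zero _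
  · rintro ⟨a, b⟩ h _ he
    simp only [Finset.mem_sigma, Finset.mem_erase] at h
    simp only [Sigma.mk.injEq] at he
    exact h.2.1 he.1
  · rintro ⟨a, b⟩ h
    simp only [Finset.mem_sigma, Finset.mem_erase] at h ⊢
    exact ⟨h.2.2, fun e => h.2.1 e.symm, h.1⟩
  · rintro ⟨a, b⟩ h
    rfl

lemma h1_ker_d {G : SimpleGraph V} {N : ℕ} (hS : Sphere G N) {t : Finset V}
    (ht : G.IsClique (↑t : Set V)) {k : ℕ} (hk : k + t.card < N) :
    LinearMap.ker (h1_d G t k) = h1_B G t k := by
  apply le_antisymm
  · intro c hc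
    rw [LinearMap.mem_ker] at hc
    have h1 : IsCob G t k (h1_ext G t k c) := by
      refine hS.exact t ht k hk _ (fun s hs hcard => ?_)
      exact congrFun hc ⟨s, hs, hcard⟩
    have h2 := (h1_mem_B (h1_ext G t k c)).2 h1
    rwa [h1_res_ext] at h2
  · rintro c ⟨h, rfl⟩
    rw [LinearMap.mem_ker]
    funext s
    show cob (h1_ext G t k (h1_res G t k (cob h))) s.1 = 0
    rw [h1_cob_congr _ s.2.1 s.2.2, h1_cob_cob]

open Classical in
/-- number of faces -/
noncomputable def h1_f (G : SimpleGraph V) (t : Finset V) (k : ℕ) : ℕ :=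
  Fintype.card (H1F G t k)

lemma h1_finrank (G : SimpleGraph V) (t : Finset V) (k : ℕ) :
    Module.finrank (ZMod 2) (H1F G t k → ZMod 2) = h1_f G t k := by
  classical
  unfold h1_f
  rw [Module.finrank_fintype_fun_eq_card]

lemma h1_low {G : SimpleGraph V} {N : ℕ} (hS : Sphere G N) {t : Finset V}
    (ht : G.IsClique (↑t : Set V)) {k : ℕ} (hk : k + t.card < N) :
    h1_f G t k = Module.finrank (ZMod 2) (h1_B G t k)
      + Module.finrank (ZMod 2) (h1_B G t (k + 1)) := by
  have h := LinearMap.finrank_range_add_finrank_ker (h1_d G t k)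
  rw [h1_range_d, h1_ker_d hS ht hk, h1_finrank] at h
  omega

lemma h1_top {G : SimpleGraph V} {N : ℕ} (hS : Sphere G N) {t : Finset V}
    (ht : G.IsClique (↑t : Set V)) {K : ℕ} (hK : K + t.card = N) :
    h1_f G t K = Module.finrank (ZMod 2) (h1_B G t K) + 1 := by
  obtain ⟨k, hk, g, hg1, hg2⟩ := hS.top t ht
  have : k = K := by omega
  subst this
  have h1 := Submodule.finrank_quotient_add_finrank (h1_B G t k)
  rw [h1_finrank] at h1
  have h2 : Module.finrank (ZMod 2) ((H1F G t k → ZMod 2) ⧸ h1_B G t k) = 1 := by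
    refine finrank_eq_one (Submodule.Quotient.mk (h1_res G t k g)) ?_ ?_
    · intro h
      rw [Submodule.Quotient.mk_eq_zero] at h
      exact hg1 ((h1_mem_B g).1 h)
    · intro w
      obtain ⟨c, rfl⟩ := Submodule.Quotient.mk_surjective _ w
      rcases hg2 (h1_ext G t k c) with h | h
      · refine ⟨0, ?_⟩
        rw [zero_smul]
        symm
        rw [Submodule.Quotient.mk_eq_zero]
        have := (h1_mem_B (h1_ext G t k c)).2 h
        rwa [h1_res_ext] at this
      · refine ⟨1, ?_⟩
        rw [one_smul]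
        rw [Submodule.Quotient.eq]
        have h3 := (h1_mem_B (fun s => h1_ext G t k c s + g s)).2 h
        have h4 : h1_res G t k (fun s => h1_ext G t k c s + g s) = h1_res G t k g - c := by
          have : (fun s => h1_ext G t k c s + g s) = h1_ext G t k c + g := rfl
          rw [this, map_add, h1_res_ext]
          funext s
          simp only [Pi.add_apply, Pi.sub_apply]
          rw [CharTwo.sub_eq_add, add_comm]
        rwa [h4] at h3
  omega

lemma h1_card_le {G : SimpleGraph V} {N : ℕ} (hS : Sphere G N) {t s : Finset V}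
    (hs : Link G t s) : s.card + t.card ≤ N := by
  have := hS.card_le (s ∪ t) (by rw [Finset.coe_union]; exact hs.2)
  rwa [Finset.card_union_of_disjoint hs.1] at this

lemma h1_tel (b f : ℕ → ℕ) (hb : b 0 = 0) (n : ℕ) (h : ∀ k < n, f k = b k + b (k + 1)) :
    ∑ k ∈ Finset.range n, (-1 : ℚ) ^ k * f k = - (-1) ^ n * b n := by
  induction n with
  | zero => simp [hb]
  | succ n ih =>
    rw [Finset.sum_range_succ, ih (fun k hk => h k (by omega)), h n (by omega)]
    push_cast
    ring

theorem eul_eq {G : SimpleGraph V} {N : ℕ} (hS : Sphere G N) {t : Finset V}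
    (ht : G.IsClique (↑t : Set V)) : eul G t = (-1) ^ (N + t.card) := by
  classical
  obtain ⟨K, hK⟩ : ∃ K, K + t.card = N := ⟨N - t.card, by have := hS.card_le t ht; omega⟩
  have h1 : eul G t = ∑ k ∈ Finset.range (K + 1), (-1 : ℚ) ^ k * (h1_f G t k : ℚ) := by
    unfold eul
    rw [← Finset.sum_fiberwise_of_maps_to (s := Finset.univ.filter (fun s : Finset V => Link G t s))
      (t := Finset.range (K + 1)) (g := fun s => s.card)]
    · refine Finset.sum_congr rfl (fun k _ => ?_)
      rw [Finset.sum_congr rfl (g := fun _ => (-1 : ℚ) ^ k)]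
      · rw [Finset.sum_const, nsmul_eq_mul, mul_comm]
        congr 2
        unfold h1_f
        rw [Fintype.card_subtype, Finset.filter_filter]
      · intro s hs
        rw [(Finset.mem_filter.1 hs).2]
    · intro s hs
      have := h1_card_le hS (Finset.mem_filter.1 hs).2
      rw [Finset.mem_range]
      omega
  have h2 := h1_tel (fun k => Module.finrank (ZMod 2) (h1_B G t k)) (h1_f G t)
    (by
      show Module.finrank (ZMod 2) (h1_B G t 0) = 0
      rw [h1_B_zero]
      exact finrank_bot _ _) K (fun k hk => h1_low hS ht (by omega))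
  rw [h1, Finset.sum_range_succ, h2, h1_top hS ht hK]
  push_cast
  have h3 : (-1 : ℚ) ^ (N + t.card) = (-1) ^ K := by
    rw [← hK, show K + t.card + t.card = K + 2 * t.card by ring, pow_add, pow_mul]
    simp
  rw [h3]
  ring

lemma h1_link_union {G : SimpleGraph V} {t s : Finset V} (hs : Link G t s) (u : Finset V) :
    Link G (s ∪ t) u ↔ Disjoint s u ∧ Link G t (s ∪ u) := by
  unfold Link
  rw [Finset.disjoint_union_right, Finset.disjoint_union_left, Finset.coe_union, Finset.coe_union]
  have h : (↑u ∪ (↑s ∪ ↑t) : Set V) = ↑s ∪ ↑u ∪ ↑t := by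
    rw [← Set.union_assoc, Set.union_comm (↑u : Set V) ↑s]
  rw [h]
  constructor
  · rintro ⟨⟨h1, h2⟩, h3⟩
    exact ⟨h1.symm, ⟨hs.1, h2⟩, h3⟩
  · rintro ⟨h1, ⟨_, h2⟩, h3⟩
    exact ⟨⟨h1.symm, h2⟩, h3⟩

lemma h1_link_subset {G : SimpleGraph V} {t s f : Finset V} (hf : Link G t f) (h : s ⊆ f) :
    Link G t s := by
  refine ⟨Finset.disjoint_of_subset_left h hf.1, SimpleGraph.IsClique.subset ?_ hf.2⟩
  exact Set.union_subset_union_left _ (Finset.coe_subset.2 h)

open Classical in
lemma h1_eul_union {G : SimpleGraph V} {t s : Finset V} (hs : Link G t s) :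
    eul G (s ∪ t) = ∑ f ∈ (Finset.univ.filter (fun f : Finset V => Link G t f)).filter (fun f => s ⊆ f),
      (-1 : ℚ) ^ (f.card + s.card) := by
  unfold eul
  refine Finset.sum_bij' (fun u _ => s ∪ u) (fun f _ => f \ s) ?_ ?_ ?_ ?_ ?_
  · intro u hu
    have := (h1_link_union hs u).1 (Finset.mem_filter.1 hu).2
    simp only [Finset.mem_filter, Finset.mem_univ, true_and]
    exact ⟨this.2, Finset.subset_union_left⟩
  · intro f hf
    simp only [Finset.mem_filter, Finset.mem_univ, true_and] at hf ⊢
    rw [h1_link_union hs]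
    refine ⟨Finset.disjoint_sdiff, ?_⟩
    rw [Finset.union_sdiff_of_subset hf.2]
    exact hf.1
  · intro u hu
    have := (h1_link_union hs u).1 (Finset.mem_filter.1 hu).2
    exact Finset.union_sdiff_cancel_left this.1
  · intro f hf
    simp only [Finset.mem_filter, Finset.mem_univ, true_and] at hf
    exact Finset.union_sdiff_of_subset hf.2
  · intro u hu
    have := (h1_link_union hs u).1 (Finset.mem_filter.1 hu).2
    rw [Finset.card_union_of_disjoint this.1]
    rw [show s.card + u.card + s.card = u.card + 2 * s.card by ring, pow_add, pow_mul]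
    simp

lemma h1_sum_subsets (f : Finset V) : ∑ s ∈ f.powerset, (-1 / 2 : ℚ) ^ s.card = (1 / 2) ^ f.card := by
  have h := Finset.sum_pow_mul_eq_add_pow (-1 / 2 : ℚ) 1 f
  simp only [one_pow, mul_one] at h
  rw [h]
  norm_num

theorem kap_odd {G : SimpleGraph V} {N : ℕ} (hS : Sphere G N) {t : Finset V}
    (ht : G.IsClique (↑t : Set V)) (hodd : Odd (N + t.card)) : kap G t = 0 := by
  classical
  have hkey : kap G t = - kap G t := by
    have h1 : kap G t = - ∑ s ∈ Finset.univ.filter (fun s : Finset V => Link G t s),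
        ∑ f ∈ (Finset.univ.filter (fun f : Finset V => Link G t f)).filter (fun f => s ⊆ f),
          (-1 : ℚ) ^ f.card * (-1 / 2) ^ s.card := by
      unfold kap
      rw [← Finset.sum_neg_distrib]
      refine Finset.sum_congr rfl (fun s hs => ?_)
      have hs' := (Finset.mem_filter.1 hs).2
      have h2 := eul_eq hS (t := s ∪ t) (by rw [Finset.coe_union]; exact hs'.2)
      rw [h1_eul_union hs', Finset.card_union_of_disjoint hs'.1] at h2
      have h3 : (-1 : ℚ) ^ (N + (s.card + t.card)) = - (-1) ^ s.card := by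
        rw [show N + (s.card + t.card) = (N + t.card) + s.card by ring, pow_add, hodd.neg_one_pow]
        ring
      rw [h3] at h2
      have h4 : ∑ f ∈ (Finset.univ.filter (fun f : Finset V => Link G t f)).filter (fun f => s ⊆ f),
          (-1 : ℚ) ^ f.card * (-1 / 2) ^ s.card = (-1/2) ^ s.card * (-1) ^ s.card *
          ∑ f ∈ (Finset.univ.filter (fun f : Finset V => Link G t f)).filter (fun f => s ⊆ f),
            (-1 : ℚ) ^ (f.card + s.card) := by
        rw [Finset.mul_sum]
        refine Finset.sum_congr rfl (fun f _ => ?_)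
        rw [pow_add]
        have h5 : (-1 : ℚ) ^ s.card * (-1) ^ s.card = 1 := by
          rw [← pow_add, ← two_mul, pow_mul]
          simp
        linear_combination (-(-1 : ℚ) ^ f.card * (-1 / 2) ^ s.card) * h5
      rw [h4, h2]
      have h5 : (-1 : ℚ) ^ s.card * (-1) ^ s.card = 1 := by
        rw [← pow_add, ← two_mul, pow_mul]
        simp
      linear_combination (-(-1 / 2 : ℚ) ^ s.card) * h5
    have h6 : ∑ s ∈ Finset.univ.filter (fun s : Finset V => Link G t s),
        ∑ f ∈ (Finset.univ.filter (fun f : Finset V => Link G t f)).filter (fun f => s ⊆ f),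
          (-1 : ℚ) ^ f.card * (-1 / 2) ^ s.card =
        ∑ f ∈ Finset.univ.filter (fun f : Finset V => Link G t f), ∑ s ∈ f.powerset,
          (-1 : ℚ) ^ f.card * (-1 / 2) ^ s.card := by
      refine Finset.sum_comm' (fun s f => ?_)
      simp only [Finset.mem_filter, Finset.mem_univ, true_and, Finset.mem_powerset]
      constructor
      · rintro ⟨_, h2, h3⟩
        exact ⟨h3, h2⟩
      · rintro ⟨h3, h2⟩
        exact ⟨h1_link_subset h2 h3, h2, h3⟩
    rw [h6] at h1
    rw [h1]
    congr 1
    rw [← h1]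
    unfold kap
    refine Finset.sum_congr rfl (fun f _ => ?_)
    rw [← Finset.mul_sum, h1_sum_subsets, ← mul_pow]
    norm_num
  linarith

end Pool.H8.CDW
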