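import Pool.Agent.H8.CDW.Sph

/-!
# [H8 CDW H2] links as graphs

`lkG G t` is the graph induced on the common neighbours of `t` (a vertex of `t` is not its own neighbour, so these lie outside `t`).
Faces `s'` of the link of `t'` in `lkG G t` correspond to faces `s = s'.map val` of the link of `t ∪ t'.map val` in `G`.
-/

set_option autoImplicit false

namespace Pool.H8.CDW

variable {V : Type}

/-- the graph induced on the common neighbours of `t` -/
def lkG (G : SimpleGraph V) (t : Finset V) : SimpleGraph {v : V // ∀ u ∈ t, G.Adj u v} :=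
  G.comap Subtype.val

/-- the inclusion of the common neighbours -/
def h2_emb (G : SimpleGraph V) (t : Finset V) : {v : V // ∀ u ∈ t, G.Adj u v} ↪ V :=
  Function.Embedding.subtype _

theorem h2_mem {G : SimpleGraph V} {t : Finset V} {s : Finset {v : V // ∀ u ∈ t, G.Adj u v}} {x : V} :
    x ∈ s.map (h2_emb G t) ↔ ∃ a ∈ s, a.val = x := by
  rw [Finset.mem_map]
  exact Iff.rfl

theorem h2_val {G : SimpleGraph V} {t : Finset V} {s : Finset {v : V // ∀ u ∈ t, G.Adj u v}}
    {a : {v : V // ∀ u ∈ t, G.Adj u v}} : a.val ∈ s.map (h2_emb G t) ↔ a ∈ s := by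
  rw [h2_mem]
  constructor
  · rintro ⟨b, hb, e⟩
    rw [← Subtype.ext e]
    exact hb
  · intro h
    exact ⟨a, h, rfl⟩

theorem h2_link [DecidableEq V] {G : SimpleGraph V} {t : Finset V} (ht : G.IsClique (↑t : Set V))
    (t' s' : Finset {v : V // ∀ u ∈ t, G.Adj u v}) :
    Link (lkG G t) t' s' ↔ Link G (t ∪ t'.map (h2_emb G t)) (s'.map (h2_emb G t)) := by
  constructor
  · rintro ⟨h1, h2⟩
    refine ⟨?_, ?_⟩
    · rw [Finset.disjoint_left]
      intro x hx hx2
      obtain ⟨a, ha, rfl⟩ := h2_mem.1 hx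
      rcases Finset.mem_union.1 hx2 with h | h
      · exact (a.2 _ h).ne rfl
      · exact Finset.disjoint_left.1 h1 ha (h2_val.1 h)
    · have key : ∀ x, x ∈ (↑(s'.map (h2_emb G t)) ∪ ↑(t ∪ t'.map (h2_emb G t)) : Set V) →
          x ∈ t ∨ ∃ a : {v : V // ∀ u ∈ t, G.Adj u v}, a ∈ (↑s' ∪ ↑t' : Set _) ∧ a.val = x := by
        intro x hx
        rcases hx with h | h
        · obtain ⟨a, ha, rfl⟩ := h2_mem.1 (Finset.mem_coe.1 h)
          exact Or.inr ⟨a, Or.inl (Finset.mem_coe.2 ha), rfl⟩
        · rcases Finset.mem_union.1 (Finset.mem_coe.1 h) with h | h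
          · exact Or.inl h
          · obtain ⟨a, ha, rfl⟩ := h2_mem.1 h
            exact Or.inr ⟨a, Or.inr (Finset.mem_coe.2 ha), rfl⟩
      intro x hx y hy hne
      rcases key x hx with h | ⟨a, ha, rfl⟩ <;> rcases key y hy with h' | ⟨b, hb, rfl⟩
      · exact ht (Finset.mem_coe.2 h) (Finset.mem_coe.2 h') hne
      · exact b.2 _ h
      · exact (a.2 _ h').symm
      · exact h2 ha hb (fun e => hne (congrArg _ e))
  · rintro ⟨h1, h2⟩
    refine ⟨?_, ?_⟩
    · rw [Finset.disjoint_left]
      intro a ha ha2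
      exact Finset.disjoint_left.1 h1 (h2_val.2 ha) (Finset.mem_union_right _ (h2_val.2 ha2))
    · have key : ∀ a : {v : V // ∀ u ∈ t, G.Adj u v}, a ∈ (↑s' ∪ ↑t' : Set _) →
          a.val ∈ (↑(s'.map (h2_emb G t)) ∪ ↑(t ∪ t'.map (h2_emb G t)) : Set V) := by
        intro a ha
        rcases ha with h | h
        · exact Or.inl (Finset.mem_coe.2 (h2_val.2 (Finset.mem_coe.1 h)))
        · exact Or.inr (Finset.mem_coe.2 (Finset.mem_union_right _ (h2_val.2 (Finset.mem_coe.1 h))))
      intro a ha b hb hne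
      exact h2 (key a ha) (key b hb) (fun e => hne (Subtype.ext e))

/-- the part of `s` in the common neighbours -/
noncomputable def h2_pre (G : SimpleGraph V) (t s : Finset V) :
    Finset {v : V // ∀ u ∈ t, G.Adj u v} :=
  s.preimage Subtype.val Subtype.val_injective.injOn

theorem h2_pre_map {G : SimpleGraph V} {t : Finset V}
    (s' : Finset {v : V // ∀ u ∈ t, G.Adj u v}) : h2_pre G t (s'.map (h2_emb G t)) = s' := by
  ext a
  unfold h2_pre
  rw [Finset.mem_preimage, h2_val]

theorem h2_map_pre {G : SimpleGraph V} {t T s : Finset V} (h : Link G T s) (hT : t ⊆ T) :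
    (h2_pre G t s).map (h2_emb G t) = s := by
  ext x
  rw [h2_mem]
  unfold h2_pre
  constructor
  · rintro ⟨a, ha, rfl⟩
    exact Finset.mem_preimage.1 ha
  · intro hx
    refine ⟨⟨x, fun u hu => ?_⟩, Finset.mem_preimage.2 hx, rfl⟩
    refine h.2 (Or.inr (Finset.mem_coe.2 (hT hu))) (Or.inl (Finset.mem_coe.2 hx)) ?_
    rintro rfl
    exact Finset.disjoint_left.1 h.1 hx (hT hu)

theorem h2_cob [DecidableEq V] {G : SimpleGraph V} {t : Finset V} (g : Finset V → ZMod 2)
    (s' : Finset {v : V // ∀ u ∈ t, G.Adj u v}) :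
    cob g (s'.map (h2_emb G t)) = cob (fun u => g (u.map (h2_emb G t))) s' := by
  unfold cob
  rw [Finset.sum_map]
  refine Finset.sum_congr rfl fun a _ => ?_
  show _ = g ((s'.erase a).map (h2_emb G t))
  rw [Finset.map_erase]

theorem h2_isCob [DecidableEq V] {G : SimpleGraph V} {t : Finset V} (ht : G.IsClique (↑t : Set V))
    (t' : Finset {v : V // ∀ u ∈ t, G.Adj u v}) (k : ℕ) (g : Finset V → ZMod 2) :
    IsCob G (t ∪ t'.map (h2_emb G t)) k g ↔
      IsCob (lkG G t) t' k (fun u => g (u.map (h2_emb G t))) := by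
  constructor
  · rintro ⟨h, hh⟩
    refine ⟨fun u => h (u.map (h2_emb G t)), fun s' hs' hk => ?_⟩
    rw [← h2_cob]
    exact hh _ ((h2_link ht t' s').1 hs') (by rw [Finset.card_map]; exact hk)
  · rintro ⟨h, hh⟩
    refine ⟨fun s => h (h2_pre G t s), fun s hs hk => ?_⟩
    have e := h2_map_pre hs Finset.subset_union_left
    have hs' : Link (lkG G t) t' (h2_pre G t s) := by
      rw [h2_link ht, e]
      exact hs
    have hk' : (h2_pre G t s).card = k := by
      rw [← hk, ← Finset.card_map (h2_emb G t), e]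
    have h3 := hh _ hs' hk'
    simp only [e] at h3
    rw [h3]
    conv_rhs => rw [← e]
    rw [h2_cob]
    simp only [h2_pre_map]

theorem h2_clique [DecidableEq V] {G : SimpleGraph V} {t : Finset V} (ht : G.IsClique (↑t : Set V))
    {t' : Finset {v : V // ∀ u ∈ t, G.Adj u v}} (ht' : (lkG G t).IsClique (↑t' : Set _)) :
    G.IsClique (↑(t ∪ t'.map (h2_emb G t)) : Set V) ∧
      (t ∪ t'.map (h2_emb G t)).card = t.card + t'.card := by
  constructor
  · have h : Link (lkG G t) t' ∅ := ⟨Finset.disjoint_empty_left _, by simpa using ht'⟩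
    have h2 := ((h2_link ht t' ∅).1 h).2
    simpa using h2
  · rw [Finset.card_union_of_disjoint, Finset.card_map]
    rw [Finset.disjoint_left]
    intro x hx hx2
    obtain ⟨a, _, rfl⟩ := h2_mem.1 hx2
    exact (a.2 _ hx).ne rfl

theorem sphere_lkG [DecidableEq V] {G : SimpleGraph V} {N : ℕ} (hS : Sphere G N) {t : Finset V}
    (ht : G.IsClique (↑t : Set V)) : Sphere (lkG G t) (N - t.card) := by
  refine ⟨fun t' ht' => ?_, fun t' ht' k hk g hg => ?_, fun t' ht' => ?_⟩
  · obtain ⟨h1, h2⟩ := h2_clique ht ht'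
    have := hS.card_le _ h1
    omega
  · obtain ⟨h1, h2⟩ := h2_clique ht ht'
    have h3 := hS.exact _ h1 k (by omega) (fun s => g (h2_pre G t s)) (fun s hs hc => by
      have e := h2_map_pre hs Finset.subset_union_left
      have hs' : Link (lkG G t) t' (h2_pre G t s) := by
        rw [h2_link ht, e]
        exact hs
      have hk' : (h2_pre G t s).card = k + 1 := by
        rw [← hc, ← Finset.card_map (h2_emb G t), e]
      have h4 := hg _ hs' hk'
      rw [← e, h2_cob]
      simp only [h2_pre_map]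
      exact h4)
    rw [h2_isCob ht] at h3
    simpa only [h2_pre_map] using h3
  · obtain ⟨h1, h2⟩ := h2_clique ht ht'
    obtain ⟨k, hk, g, hg1, hg2⟩ := hS.top _ h1
    refine ⟨k, by omega, fun u => g (u.map (h2_emb G t)), ?_, fun g' => ?_⟩
    · rwa [h2_isCob ht] at hg1
    · have := hg2 (fun s => g' (h2_pre G t s))
      rw [h2_isCob ht, h2_isCob ht] at this
      simpa only [h2_pre_map] using this

open Classical in
theorem kap_lkG [Fintype V] [DecidableEq V] (G : SimpleGraph V) {t : Finset V}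
    (ht : G.IsClique (↑t : Set V)) : kap (lkG G t) ∅ = kap G t := by
  have hL : ∀ s', Link (lkG G t) ∅ s' ↔ Link G t (s'.map (h2_emb G t)) := by
    intro s'
    rw [h2_link ht, Finset.map_empty, Finset.union_empty]
  unfold kap
  refine Finset.sum_nbij' (fun s' => s'.map (h2_emb G t)) (fun s => h2_pre G t s) ?_ ?_ ?_ ?_ ?_
  · intro s' hs'
    rw [Finset.mem_filter] at hs' ⊢
    exact ⟨Finset.mem_univ _, (hL s').1 hs'.2⟩
  · intro s hs
    rw [Finset.mem_filter] at hs ⊢
    refine ⟨Finset.mem_univ _, ?_⟩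
    rw [hL, h2_map_pre hs.2 (Finset.Subset.refl t)]
    exact hs.2
  · intro s' _
    exact h2_pre_map s'
  · intro s hs
    rw [Finset.mem_filter] at hs
    exact h2_map_pre hs.2 (Finset.Subset.refl t)
  · intro s' _
    rw [Finset.card_map]

end Pool.H8.CDW
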