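import Pool.Agent.H8.CDW.Sph

/-!
# [H8 CDW H3] the combinatorial identity

For every function `a` on finite sets, if `eul G ρ = (-1)^|ρ|` for all cliques `ρ` then
`∑_σ (-1)^|σ| a σ = ∑_σ κ(lk σ) ∑_{ρ ⊆ σ} (-1/2)^|σ \ ρ| a ρ` (sums over the cliques).
PROOF. Right side `= ∑_σ ∑_{s ∈ lk σ} ∑_{ρ ⊆ σ} (-1/2)^(|s| + |σ \ ρ|) a ρ = ∑_ρ a ρ ∑_{π ⊇ ρ} ∑_{ρ ⊆ σ ⊆ π} (-1/2)^|π \ ρ|`
(`π = σ ∪ s` a clique) `= ∑_ρ a ρ ∑_{π ⊇ ρ} (-1)^|π \ ρ| = ∑_ρ a ρ eul G ρ`.
-/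

set_option autoImplicit false

namespace Pool.H8.CDW

variable {V : Type} [Fintype V] [DecidableEq V]

open Classical in
theorem h3_link_sum (G : SimpleGraph V) (q : ℚ) (t : Finset V) :
    ∑ s ∈ Finset.univ.filter (fun s : Finset V => Link G t s), q ^ s.card =
    ∑ π ∈ (Finset.univ.filter (fun σ : Finset V => G.IsClique (↑σ : Set V))).filter (fun π => t ⊆ π),
      q ^ (π \ t).card := by
  refine Finset.sum_bij' (fun s _ => s ∪ t) (fun π _ => π \ t) ?_ ?_ ?_ ?_ ?_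
  · intro s hs
    rw [Finset.mem_filter] at hs
    rw [Finset.mem_filter, Finset.mem_filter]
    refine ⟨⟨Finset.mem_univ _, ?_⟩, Finset.subset_union_right⟩
    rw [Finset.coe_union]
    exact hs.2.2
  · intro π hπ
    rw [Finset.mem_filter, Finset.mem_filter] at hπ
    rw [Finset.mem_filter]
    refine ⟨Finset.mem_univ _, Finset.sdiff_disjoint, ?_⟩
    rw [← Finset.coe_union, Finset.sdiff_union_of_subset hπ.2]
    exact hπ.1.2
  · intro s hs
    rw [Finset.mem_filter] at hs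
    exact Finset.union_sdiff_cancel_right hs.2.1
  · intro π hπ
    rw [Finset.mem_filter, Finset.mem_filter] at hπ
    exact Finset.sdiff_union_of_subset hπ.2
  · intro s hs
    rw [Finset.mem_filter] at hs
    rw [Finset.union_sdiff_cancel_right hs.2.1]

theorem h3_card {ρ σ π : Finset V} (h1 : ρ ⊆ σ) (h2 : σ ⊆ π) :
    (π \ σ).card + (σ \ ρ).card = (π \ ρ).card := by
  rw [Finset.card_sdiff_of_subset h1, Finset.card_sdiff_of_subset h2,
    Finset.card_sdiff_of_subset (h1.trans h2)]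
  have := Finset.card_le_card h1
  have := Finset.card_le_card h2
  omega

theorem h3_inner (a : Finset V → ℚ) (π : Finset V) :
    ∑ σ ∈ π.powerset, (-1 / 2 : ℚ) ^ (π \ σ).card * ∑ ρ ∈ σ.powerset, (-1 / 2 : ℚ) ^ (σ \ ρ).card * a ρ =
    ∑ ρ ∈ π.powerset, (-1 : ℚ) ^ (π \ ρ).card * a ρ := by
  simp_rw [Finset.mul_sum]
  rw [Finset.sum_comm' (s' := fun ρ => Finset.Icc ρ π) (t' := π.powerset)]
  · refine Finset.sum_congr rfl fun ρ hρ => ?_
    rw [Finset.mem_powerset] at hρ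
    have h1 : ∀ σ ∈ Finset.Icc ρ π, (-1 / 2 : ℚ) ^ (π \ σ).card * ((-1 / 2 : ℚ) ^ (σ \ ρ).card * a ρ) =
        (-1 / 2 : ℚ) ^ (π \ ρ).card * a ρ := by
      intro σ hσ
      rw [Finset.mem_Icc] at hσ
      rw [← h3_card hσ.1 hσ.2, pow_add, mul_assoc]
    rw [Finset.sum_congr rfl h1, Finset.sum_const, Finset.card_Icc_finset hρ,
      Finset.card_sdiff_of_subset hρ, nsmul_eq_mul, ← mul_assoc]
    congr 1
    push_cast
    rw [← mul_pow]
    norm_num
  · intro σ ρ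
    rw [Finset.mem_powerset, Finset.mem_powerset, Finset.mem_Icc, Finset.mem_powerset]
    constructor
    · rintro ⟨h1, h2⟩
      exact ⟨⟨h2, h1⟩, h2.trans h1⟩
    · rintro ⟨⟨h1, h2⟩, _⟩
      exact ⟨h2, h1⟩

open Classical in
theorem identity (G : SimpleGraph V) (a : Finset V → ℚ)
    (he : ∀ ρ : Finset V, G.IsClique (↑ρ : Set V) → eul G ρ = (-1) ^ ρ.card) :
    ∑ σ ∈ Finset.univ.filter (fun σ : Finset V => G.IsClique (↑σ : Set V)), (-1 : ℚ) ^ σ.card * a σ =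
    ∑ σ ∈ Finset.univ.filter (fun σ : Finset V => G.IsClique (↑σ : Set V)),
      kap G σ * ∑ ρ ∈ σ.powerset, (-1 / 2 : ℚ) ^ (σ \ ρ).card * a ρ := by
  symm
  have hswap : ∀ f : Finset V → Finset V → ℚ,
      ∑ σ ∈ Finset.univ.filter (fun σ : Finset V => G.IsClique (↑σ : Set V)),
        ∑ π ∈ (Finset.univ.filter (fun σ : Finset V => G.IsClique (↑σ : Set V))).filter (fun π => σ ⊆ π),
          f σ π =
      ∑ π ∈ Finset.univ.filter (fun σ : Finset V => G.IsClique (↑σ : Set V)),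
        ∑ σ ∈ π.powerset, f σ π := by
    intro f
    refine Finset.sum_comm' ?_
    intro σ π
    rw [Finset.mem_filter, Finset.mem_filter, Finset.mem_filter, Finset.mem_powerset]
    constructor
    · rintro ⟨_, h2, h3⟩
      exact ⟨h3, h2⟩
    · rintro ⟨h3, h2⟩
      exact ⟨⟨Finset.mem_univ _, h2.2.subset (Finset.coe_subset.2 h3)⟩, h2, h3⟩
  have h1 : ∀ σ ∈ Finset.univ.filter (fun σ : Finset V => G.IsClique (↑σ : Set V)),
      kap G σ * ∑ ρ ∈ σ.powerset, (-1 / 2 : ℚ) ^ (σ \ ρ).card * a ρ =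
      ∑ π ∈ (Finset.univ.filter (fun σ : Finset V => G.IsClique (↑σ : Set V))).filter (fun π => σ ⊆ π),
        (-1 / 2 : ℚ) ^ (π \ σ).card * ∑ ρ ∈ σ.powerset, (-1 / 2 : ℚ) ^ (σ \ ρ).card * a ρ := by
    intro σ _
    rw [← Finset.sum_mul]
    congr 1
    exact h3_link_sum G (-1 / 2) σ
  rw [Finset.sum_congr rfl h1, hswap, Finset.sum_congr rfl (fun π _ => h3_inner a π),
    ← hswap (fun ρ π => (-1 : ℚ) ^ (π \ ρ).card * a ρ)]
  refine Finset.sum_congr rfl fun ρ hρ => ?_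
  rw [Finset.mem_filter] at hρ
  rw [← Finset.sum_mul, ← h3_link_sum G (-1) ρ]
  congr 1
  exact he ρ hρ.2

end Pool.H8.CDW
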