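import Pool.Agent.H8.CDW.D3
import Pool.Agent.H8.CDW.E2
import Pool.Agent.H8.CDW.G1
import Pool.Agent.H8.CDW.H1
import Pool.Agent.H8.CDW.H2
import Pool.Agent.H8.CDW.H3

/-!
# Weighted inequality from the right-angled one (assembly)
-/

set_option autoImplicit false

namespace Pool.H8.CDW

open CoxeterSystem

/-- the graph of the finite entries of a Coxeter matrix -/
def nerve {V : Type} (M : CoxeterMatrix V) : SimpleGraph V where
  Adj u v := u ≠ v ∧ M u v ≠ 0
  symm := ⟨fun u v h => ⟨h.1.symm, by rw [M.symmetric]; exact h.2⟩⟩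
  loopless := ⟨fun u h => h.1 rfl⟩

lemma nerve_clique {V : Type} {M : CoxeterMatrix V} {σ : Finset V}
    (h : (nerve M).IsClique (↑σ : Set V)) : ∀ i ∈ (↑σ : Set V), ∀ j ∈ (↑σ : Set V), M i j ≠ 0 := by
  intro i hi j hj
  by_cases hij : i = j
  · subst hij; rw [M.diagonal]; exact one_ne_zero
  · exact (h hi hj hij).2

open Classical in
/-- `ω` of the flag complex of a Coxeter matrix -/
noncomputable def omegaW {V : Type} [Fintype V] (M : CoxeterMatrix V) : ℚ :=
  ∑ σ ∈ Finset.univ.filter (fun σ : Finset V => (nerve M).IsClique (↑σ : Set V)),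
    (-1 : ℚ) ^ σ.card / (Nat.card (resM M (↑σ : Set V)).Group : ℚ)

lemma kap_congr_aux {V : Type} [Fintype V] [DecidableEq V] (M : CoxeterMatrix V) {σ : Finset V}
    (hσ : (nerve M).IsClique (↑σ : Set V)) [Finite (resM M (↑σ : Set V)).Group] :
    (1 / (Nat.card (resM M (↑σ : Set V)).Group : ℚ)) *
      kap (CG (resM M (↑σ : Set V)).toCoxeterSystem) ∅ =
    ∑ ρ ∈ σ.powerset, (-1 / 2 : ℚ) ^ (σ \ ρ).card *
      (1 / (Nat.card (resM M (↑ρ : Set V)).Group : ℚ)) := by
  classical
  have hM := nerve_clique hσ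
  have hM' : ∀ i j : (↑σ : Set V), resM M (↑σ : Set V) i j ≠ 0 := fun i j => hM i i.2 j j.2
  rw [kap_CG _ (simple_injective _ hM'), Finset.mul_sum]
  have hW : (Nat.card (resM M (↑σ : Set V)).Group : ℚ) ≠ 0 := by
    have : 0 < Nat.card (resM M (↑σ : Set V)).Group := Nat.card_pos
    positivity
  refine Finset.sum_bij (fun A _ => σ \ A.map (Function.Embedding.subtype _)) ?_ ?_ ?_ ?_
  · intro A _
    exact Finset.mem_powerset.2 Finset.sdiff_subset
  · intro A _ A' _ h
    have h1 : A.map (Function.Embedding.subtype _) = A'.map (Function.Embedding.subtype _) := by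
      have e1 : ∀ C : Finset (↑σ : Set V), C.map (Function.Embedding.subtype _) ⊆ σ := by
        intro C x hx
        obtain ⟨y, -, rfl⟩ := Finset.mem_map.1 hx
        exact y.2
      have h2 := congrArg (fun t => σ \ t) h
      simp only [Finset.sdiff_sdiff_eq_self (e1 A), Finset.sdiff_sdiff_eq_self (e1 A')] at h2
      exact h2
    exact Finset.map_injective _ h1
  · intro ρ hρ
    rw [Finset.mem_powerset] at hρ
    refine ⟨(Finset.univ : Finset (↑σ : Set V)).filter (fun x => (x : V) ∉ ρ), Finset.mem_univ _, ?_⟩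
    ext x
    simp only [Finset.mem_sdiff, Finset.mem_map, Finset.mem_filter, Finset.mem_univ, true_and,
      Function.Embedding.coe_subtype]
    constructor
    · rintro ⟨h1, h2⟩
      by_contra h3
      exact h2 ⟨⟨x, h1⟩, h3, rfl⟩
    · intro h
      refine ⟨hρ h, ?_⟩
      rintro ⟨y, h1, rfl⟩
      exact h1 h
  · intro A _
    have e0 : A.map (Function.Embedding.subtype _) ⊆ σ := by
      intro x hx
      obtain ⟨y, -, rfl⟩ := Finset.mem_map.1 hx
      exact y.2
    have e1 : (σ \ (σ \ A.map (Function.Embedding.subtype _))).card = A.card := by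
      rw [Finset.sdiff_sdiff_eq_self e0, Finset.card_map]
    rw [e1]
    set ρ : Finset V := σ \ A.map (Function.Embedding.subtype _) with hρ
    have e2 : ((↑A : Set (↑σ : Set V))ᶜ) = {x : (↑σ : Set V) | (x : V) ∈ (↑ρ : Set V)} := by
      ext x
      simp only [Set.mem_compl_iff, Finset.mem_coe, Set.mem_ofPred_eq, hρ, Finset.mem_sdiff,
        Finset.mem_map, Function.Embedding.coe_subtype]
      constructor
      · intro h
        refine ⟨x.2, ?_⟩
        rintro ⟨y, hy, he⟩
        exact h (Subtype.ext he ▸ hy)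
      · rintro ⟨-, h⟩ hx
        exact h ⟨x, hx, rfl⟩
    have e3 : (↑ρ : Set V) ⊆ (↑σ : Set V) := by
      intro x hx
      exact (Finset.mem_sdiff.1 hx).1
    have e4 := card_res_res M e3 hM
    rw [e4, ← e2]
    have e5 := Subgroup.card_mul_index (par (resM M (↑σ : Set V)).toCoxeterSystem ((↑A : Set (↑σ : Set V))ᶜ))
    have e6 : (Nat.card (par (resM M (↑σ : Set V)).toCoxeterSystem ((↑A : Set (↑σ : Set V))ᶜ)) : ℚ) ≠ 0 := by
      have : 0 < Nat.card (par (resM M (↑σ : Set V)).toCoxeterSystem ((↑A : Set (↑σ : Set V))ᶜ)) :=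
        Nat.card_pos
      positivity
    have e7 : (Nat.card (par (resM M (↑σ : Set V)).toCoxeterSystem ((↑A : Set (↑σ : Set V))ᶜ)) : ℚ) *
        ((par (resM M (↑σ : Set V)).toCoxeterSystem ((↑A : Set (↑σ : Set V))ᶜ)).index : ℚ) =
        (Nat.card (resM M (↑σ : Set V)).Group : ℚ) := by
      exact_mod_cast e5
    field_simp
    rw [← e7]
    ring

/-- The weighted inequality, from the right-angled one. -/
theorem weighted (RA : ∀ (V : Type) [Fintype V] [DecidableEq V] (G : SimpleGraph V) (n : ℕ),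
      Sphere G (2 * n) → 0 ≤ (-1 : ℚ) ^ n * kap G ∅)
    {V : Type} [Fintype V] [DecidableEq V] (M : CoxeterMatrix V) (n : ℕ)
    (hfin : ∀ σ : Finset V, (nerve M).IsClique (↑σ : Set V) → Finite (resM M (↑σ : Set V)).Group)
    (hS : Sphere (nerve M) (2 * n)) : 0 ≤ (-1 : ℚ) ^ n * omegaW M := by
  classical
  have h1 := identity (nerve M) (fun σ => 1 / (Nat.card (resM M (↑σ : Set V)).Group : ℚ))
    (fun ρ hρ => by rw [eul_eq hS hρ, pow_add, pow_mul]; simp)
  have h2 : omegaW M = ∑ σ ∈ Finset.univ.filter (fun σ : Finset V => (nerve M).IsClique (↑σ : Set V)),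
      kap (nerve M) σ * ∑ ρ ∈ σ.powerset, (-1 / 2 : ℚ) ^ (σ \ ρ).card *
        (1 / (Nat.card (resM M (↑ρ : Set V)).Group : ℚ)) := by
    rw [← h1]
    unfold omegaW
    refine Finset.sum_congr (by ext σ; simp) fun σ _ => ?_
    rw [mul_one_div]
  rw [h2, Finset.mul_sum]
  refine Finset.sum_nonneg fun σ hσ => ?_
  have hσ' := (Finset.mem_filter.1 hσ).2
  haveI := hfin σ hσ'
  rw [← kap_congr_aux M hσ']
  by_cases hodd : Odd σ.card
  · have : Odd (2 * n + σ.card) := by
      rcases hodd with ⟨k, hk⟩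
      exact ⟨n + k, by omega⟩
    rw [kap_odd hS hσ' this]
    simp
  · rw [Nat.not_odd_iff_even] at hodd
    obtain ⟨k, hk⟩ := hodd
    have hle := hS.card_le σ hσ'
    have hM := nerve_clique hσ'
    have hM' : ∀ i j : (↑σ : Set V), resM M (↑σ : Set V) i j ≠ 0 := fun i j => hM i i.2 j j.2
    have hc : Fintype.card (↑σ : Set V) = 2 * k := by
      simp; omega
    have h3 : 0 ≤ (-1 : ℚ) ^ k * kap (CG (resM M (↑σ : Set V)).toCoxeterSystem) ∅ := by
      refine RA _ _ k ?_
      rw [← hc]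
      exact sphere_CG _ (simple_injective _ hM')
    have h4 : 0 ≤ (-1 : ℚ) ^ (n - k) * kap (nerve M) σ := by
      have := RA _ (lkG (nerve M) σ) (n - k) (by
        have := sphere_lkG hS hσ'
        rwa [hk, show 2 * n - (k + k) = 2 * (n - k) by omega] at this)
      rwa [kap_lkG _ hσ'] at this
    have h5 : (-1 : ℚ) ^ n = (-1) ^ (n - k) * (-1) ^ k := by
      rw [← pow_add]; congr 1; omega
    have h6 : (0 : ℚ) ≤ 1 / (Nat.card (resM M (↑σ : Set V)).Group : ℚ) := by positivity
    rw [h5]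
    calc (0 : ℚ) ≤ ((-1 : ℚ) ^ (n - k) * kap (nerve M) σ) *
        ((-1 : ℚ) ^ k * kap (CG (resM M (↑σ : Set V)).toCoxeterSystem) ∅) *
        (1 / (Nat.card (resM M (↑σ : Set V)).Group : ℚ)) := mul_nonneg (mul_nonneg h4 h3) h6
      _ = _ := by ring

end Pool.H8.CDW
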