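import Mathlib

/-!
# [H8 CDW Z0] transposing an exact sequence over a field

`f : (β → K) → (α → K)`, `f x a = ∑ b, A a b * x b` etc.  If `ker f ⊆ range g` then `ker gᵀ ⊆ range fᵀ`.
PROOF.  `y ∈ ker gᵀ` is orthogonal to `range g`, hence to `ker f`; the orthogonal of `ker f` is `range fᵀ` in finite dimension.
-/

set_option autoImplicit false

namespace Pool.H8.CDW

variable {K : Type*} [Field K] {α β γ : Type*} [Fintype α] [Fintype β] [Fintype γ]

/-- a functional that vanishes on the kernel of `A` is a combination of the rows of `A` -/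
lemma z0_orth (A : α → β → K) (y : β → K)
    (h : ∀ x : β → K, (∀ a, ∑ b, A a b * x b = 0) → ∑ b, y b * x b = 0) :
    ∃ w : α → K, ∀ b, y b = ∑ a, w a * A a b := by
  classical
  let f : (β → K) →ₗ[K] (α → K) :=
    { toFun := fun x a => ∑ b, A a b * x b
      map_add' := fun x x' => by
        funext a
        simp [mul_add, Finset.sum_add_distrib]
      map_smul' := fun c x => by
        funext a
        simp only [Pi.smul_apply, smul_eq_mul, RingHom.id_apply, Finset.mul_sum]
        exact Finset.sum_congr rfl fun b _ => by ring }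
  let φ : Module.Dual K (β → K) :=
    { toFun := fun x => ∑ b, y b * x b
      map_add' := fun x x' => by simp [mul_add, Finset.sum_add_distrib]
      map_smul' := fun c x => by
        simp only [Pi.smul_apply, smul_eq_mul, RingHom.id_apply, Finset.mul_sum]
        exact Finset.sum_congr rfl fun b _ => by ring }
  have hφ : φ ∈ (LinearMap.ker f).dualAnnihilator := by
    rw [Submodule.mem_dualAnnihilator]
    intro x hx
    exact h x fun a => congrFun (LinearMap.mem_ker.1 hx) a
  rw [← LinearMap.range_dualMap_eq_dualAnnihilator_ker] at hφ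
  obtain ⟨ψ, hψ⟩ := hφ
  refine ⟨fun a => ψ (Pi.single a 1), fun b => ?_⟩
  have h1 : φ (Pi.single b 1) = y b := by
    change ∑ b', y b' * (Pi.single b (1 : K) : β → K) b' = y b
    simp [Pi.single_apply]
  rw [← h1, ← hψ]
  change ψ (f (Pi.single b 1)) = _
  have h2 : f (Pi.single b 1) = fun a => A a b := by
    funext a
    change ∑ b', A a b' * (Pi.single b (1 : K) : β → K) b' = A a b
    simp [Pi.single_apply]
  rw [h2]
  have h3 : (fun a => A a b) = ∑ a, A a b • (Pi.single a (1 : K) : α → K) := by
    funext a'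
    simp [Finset.sum_apply, Pi.single_apply]
  rw [h3, map_sum]
  refine Finset.sum_congr rfl fun a _ => ?_
  rw [map_smul, smul_eq_mul, mul_comm]

theorem transpose_exact (A : α → β → K) (C : β → γ → K)
    (h : ∀ x : β → K, (∀ a, ∑ b, A a b * x b = 0) → ∃ u : γ → K, ∀ b, x b = ∑ c, C b c * u c)
    (y : β → K) (hy : ∀ c, ∑ b, y b * C b c = 0) : ∃ w : α → K, ∀ b, y b = ∑ a, w a * A a b := by
  refine z0_orth A y fun x hx => ?_
  obtain ⟨u, hu⟩ := h x hx
  calc ∑ b, y b * x b = ∑ b, ∑ c, y b * C b c * u c := by
        refine Finset.sum_congr rfl fun b _ => ?_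
        rw [hu b, Finset.mul_sum]
        exact Finset.sum_congr rfl fun c _ => by ring
    _ = ∑ c, (∑ b, y b * C b c) * u c := by
        rw [Finset.sum_comm]
        refine Finset.sum_congr rfl fun c _ => ?_
        rw [Finset.sum_mul]
    _ = 0 := by simp [hy]

theorem transpose_one (A : α → β → K) (z : β → K)
    (h : ∀ x : β → K, (∀ a, ∑ b, A a b * x b = 0) → ∃ c : K, ∀ b, x b = c * z b)
    (y : β → K) (hy : ∑ b, y b * z b = 0) : ∃ w : α → K, ∀ b, y b = ∑ a, w a * A a b := by
  refine z0_orth A y fun x hx => ?_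
  obtain ⟨c, hc⟩ := h x hx
  calc ∑ b, y b * x b = c * ∑ b, y b * z b := by
        rw [Finset.mul_sum]
        refine Finset.sum_congr rfl fun b _ => ?_
        rw [hc b]
        ring
    _ = 0 := by rw [hy, mul_zero]

end Pool.H8.CDW
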