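import Pool.Agent.H8.CDW.Sph
import Pool.Agent.H8.CDW.Z0
import Pool.Agent.H85.UC

/-!
# [H8 CDW Z1] cohomological spheres are homological spheres (mod 2)

`Sphere G N` (cohomology of all links) implies `GHS (ZMod 2)` for the clique complex.  In characteristic two the signs `sg` are `1`.  For a clique `τ` and
`p` let the finite types be the faces of the link of `τ` with `p - 1`, `p`, `p + 1` vertices; `bd` and `cob` are transposes of each other for the
incidence matrix (`1` if the smaller face is contained in the bigger one).  `acyc`: `transpose_exact` applied to `exact` (read backwards: `K = ZMod 2`,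
cochains exact implies chains exact; `p + |τ| < N`).  `top`: `k + |τ| = N`, `g₀` not a coboundary and every `g` is a coboundary modulo `g₀`: the
cycles on the top faces are the `z` orthogonal to all coboundaries (there are no faces with more vertices, `card_le`), so they are determined by
`∑ z g₀`, and there is one with `∑ z g₀ = 1` (otherwise all cycles are orthogonal to `g₀`, so `g₀` is a coboundary by duality: the orthogonal
of the cycles `= ker bd` is the range of the transpose).
-/

set_option autoImplicit false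

namespace Pool.H8.CDW

open Pool.Agent.H85.UC Finset

variable {V : Type} [Fintype V] [LinearOrder V]

/-- faces of the link of `τ` with `j - 1` vertices -/
def Z1Fc (G : SimpleGraph V) (τ : Finset V) (j : ℕ) : Type :=
  {s : Finset V // Link G τ s ∧ s.card + 1 = j}

noncomputable instance z1_fintype (G : SimpleGraph V) (τ : Finset V) (j : ℕ) :
    Fintype (Z1Fc G τ j) := by
  classical
  unfold Z1Fc
  infer_instance

/-- the incidence matrix -/
def z1inc (s r : Finset V) : ZMod 2 := if s ⊆ r then 1 else 0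

omit [Fintype V] in
theorem z1_sg (v : V) (ρ : Finset V) (x : ZMod 2) : sg v ρ • x = x := by
  have h : ∀ n : ℕ, ((-1 : ℤ) ^ n) • x = x := by
    intro n
    rcases neg_one_pow_eq_or ℤ n with h | h
    · rw [h, one_smul]
    · rw [h, neg_smul, one_smul]
      revert x
      decide
  exact h _

theorem z1_bd (b : Finset V → ZMod 2) (ρ : Finset V) :
    bd b ρ = ∑ v ∈ ρᶜ, b (insert v ρ) := by
  unfold bd
  exact Finset.sum_congr rfl (fun v _ => z1_sg v ρ _)

omit [Fintype V] [LinearOrder V] in
theorem z1_link_mono {G : SimpleGraph V} {τ s r : Finset V} (h : Link G τ r) (hs : s ⊆ r) :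
    Link G τ s := by
  refine ⟨h.1.mono_left hs, ?_⟩
  refine h.2.subset ?_
  exact Set.union_subset_union_left _ (by exact_mod_cast hs)

/-- the coboundary as a matrix -/
theorem z1_cob {G : SimpleGraph V} {τ : Finset V} {j : ℕ} (g : Finset V → ZMod 2)
    (r : Finset V) (hr : Link G τ r) (hj : r.card = j) :
    cob g r = ∑ s : Z1Fc G τ j, z1inc s.1 r * g s.1 := by
  classical
  unfold cob
  symm
  rw [← Finset.sum_filter_add_sum_filter_not univ (fun s : Z1Fc G τ j => s.1 ⊆ r)]
  have h2 : ∑ s ∈ univ.filter (fun s : Z1Fc G τ j => ¬ s.1 ⊆ r), z1inc s.1 r * g s.1 = 0 := by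
    refine Finset.sum_eq_zero (fun s hs => ?_)
    rw [mem_filter] at hs
    unfold z1inc
    rw [if_neg hs.2, zero_mul]
  rw [h2, add_zero]
  symm
  refine Finset.sum_bij (fun v hv => (⟨r.erase v, z1_link_mono hr (erase_subset v r), by
    rw [card_erase_of_mem hv]
    have := card_pos.2 ⟨v, hv⟩
    omega⟩ : Z1Fc G τ j)) ?_ ?_ ?_ ?_
  · intro v hv
    rw [mem_filter]
    exact ⟨mem_univ _, erase_subset v r⟩
  · intro v hv w hw h
    have h1 : r.erase v = r.erase w := congrArg Subtype.val h
    by_contra hne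
    have h3 : w ∈ r.erase v := mem_erase.2 ⟨fun h => hne h.symm, hw⟩
    rw [h1] at h3
    exact notMem_erase w r h3
  · rintro ⟨s, hs, hsj⟩ h
    rw [mem_filter] at h
    have h3 : s ⊆ r := h.2
    have h4 : (r \ s).card = 1 := by
      rw [card_sdiff_of_subset h3]
      omega
    obtain ⟨v, hv⟩ := card_eq_one.1 h4
    have hv1 : v ∈ r \ s := by rw [hv]; exact mem_singleton_self v
    rw [mem_sdiff] at hv1
    refine ⟨v, hv1.1, ?_⟩
    apply Subtype.ext
    show r.erase v = s
    rw [← sdiff_singleton_eq_erase, ← hv, Finset.sdiff_sdiff_eq_self h3]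
  · intro v hv
    show g (r.erase v) = z1inc (r.erase v) r * g (r.erase v)
    unfold z1inc
    rw [if_pos (erase_subset v r), one_mul]

/-- the boundary as a matrix -/
theorem z1_bd' {G : SimpleGraph V} {τ : Finset V} {p : ℕ} (b : Finset V → ZMod 2)
    (hb : LkSupp (fun s : Finset V => G.IsClique (↑s : Set V)) τ p b)
    (ρ : Finset V) (hρ : ρ.card + 1 = p) :
    bd b ρ = ∑ r : Z1Fc G τ (p + 1), z1inc ρ r.1 * b r.1 := by
  classical
  rw [z1_bd]
  have e1 : ∑ v ∈ ρᶜ, b (insert v ρ) = ∑ v ∈ ρᶜ.filter (fun v => b (insert v ρ) ≠ 0),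
      b (insert v ρ) := by
    rw [Finset.sum_filter_ne_zero]
  have e2 : ∑ r : Z1Fc G τ (p + 1), z1inc ρ r.1 * b r.1 =
      ∑ r ∈ univ.filter (fun r : Z1Fc G τ (p + 1) => z1inc ρ r.1 * b r.1 ≠ 0),
        z1inc ρ r.1 * b r.1 := by
    rw [Finset.sum_filter_ne_zero]
  rw [e1, e2]
  have hl : ∀ r : Finset V, b r ≠ 0 → Link G τ r ∧ r.card = p := by
    intro r hr
    obtain ⟨h1, h2, h3⟩ := hb r hr
    refine ⟨⟨h2, ?_⟩, h1⟩
    have h4 : G.IsClique (↑(r ∪ τ) : Set V) := h3
    rwa [coe_union] at h4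
  refine Finset.sum_bij (fun v hv => (⟨insert v ρ, by
    have h := (mem_filter.1 hv).2
    exact ⟨(hl _ h).1, by rw [(hl _ h).2]⟩⟩ : Z1Fc G τ (p + 1))) ?_ ?_ ?_ ?_
  · intro v hv
    rw [mem_filter] at hv ⊢
    refine ⟨mem_univ _, ?_⟩
    show z1inc ρ (insert v ρ) * b (insert v ρ) ≠ 0
    unfold z1inc
    rw [if_pos (subset_insert v ρ), one_mul]
    exact hv.2
  · intro v hv w hw h
    have h1 : insert v ρ = insert w ρ := congrArg Subtype.val h
    rw [mem_filter, mem_compl] at hv hw
    have h3 : v ∈ insert w ρ := by rw [← h1]; exact mem_insert_self v ρ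
    rcases mem_insert.1 h3 with h4 | h4
    · exact h4
    · exact absurd h4 hv.1
  · rintro ⟨r, hr, hrp⟩ h
    rw [mem_filter] at h
    have h1 : z1inc ρ r * b r ≠ 0 := h.2
    have h2 : b r ≠ 0 := right_ne_zero_of_mul h1
    have h3 : ρ ⊆ r := by
      by_contra h3
      apply h1
      unfold z1inc
      rw [if_neg h3, zero_mul]
    have h4 : (r \ ρ).card = 1 := by
      rw [card_sdiff_of_subset h3]
      omega
    obtain ⟨v, hv⟩ := card_eq_one.1 h4
    have hv1 : v ∈ r \ ρ := by rw [hv]; exact mem_singleton_self v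
    rw [mem_sdiff] at hv1
    have h5 : insert v ρ = r := by
      rw [insert_eq, ← hv, sdiff_union_of_subset h3]
    refine ⟨v, ?_, ?_⟩
    · rw [mem_filter, mem_compl, h5]
      exact ⟨hv1.2, h2⟩
    · exact Subtype.ext h5
  · intro v hv
    show b (insert v ρ) = z1inc ρ (insert v ρ) * b (insert v ρ)
    unfold z1inc
    rw [if_pos (subset_insert v ρ), one_mul]

/-- off the faces with `p - 1` vertices the boundary of a chain on faces with `p` vertices vanishes -/
theorem z1_bd_supp {G : SimpleGraph V} {τ : Finset V} {p : ℕ} (b : Finset V → ZMod 2)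
    (hb : LkSupp (fun s : Finset V => G.IsClique (↑s : Set V)) τ p b)
    (ρ : Finset V) (h : bd b ρ ≠ 0) : Link G τ ρ ∧ ρ.card + 1 = p := by
  rw [z1_bd] at h
  obtain ⟨v, hv, hne⟩ := Finset.exists_ne_zero_of_sum_ne_zero h
  rw [mem_compl] at hv
  obtain ⟨h1, h2, h3⟩ := hb _ hne
  rw [card_insert_of_notMem hv] at h1
  have h4 : G.IsClique (↑(insert v ρ ∪ τ) : Set V) := h3
  rw [coe_union] at h4
  exact ⟨z1_link_mono (r := insert v ρ) ⟨h2, h4⟩ (subset_insert v ρ), h1⟩

/-- extension by zero -/
noncomputable def z1ext {G : SimpleGraph V} {τ : Finset V} {j : ℕ} (x : Z1Fc G τ j → ZMod 2)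
    (s : Finset V) : ZMod 2 := by
  classical
  exact if h : Link G τ s ∧ s.card + 1 = j then x ⟨s, h⟩ else 0

omit [Fintype V] [LinearOrder V] in
theorem z1ext_apply {G : SimpleGraph V} {τ : Finset V} {j : ℕ} (x : Z1Fc G τ j → ZMod 2)
    (s : Z1Fc G τ j) : z1ext x s.1 = x s := by
  unfold z1ext
  rw [dif_pos s.2]
  rfl

omit [Fintype V] in
theorem z1ext_supp {G : SimpleGraph V} {τ : Finset V} {p : ℕ} (x : Z1Fc G τ (p + 1) → ZMod 2) :
    LkSupp (fun s : Finset V => G.IsClique (↑s : Set V)) τ p (z1ext x) := by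
  intro ρ hρ
  by_cases h : Link G τ ρ ∧ ρ.card + 1 = p + 1
  · refine ⟨by omega, h.1.1, ?_⟩
    show G.IsClique (↑(ρ ∪ τ) : Set V)
    rw [coe_union]
    exact h.1.2
  · exfalso
    apply hρ
    unfold z1ext
    rw [dif_neg h]

theorem ghs_of_sphere {V : Type} [Fintype V] [LinearOrder V] {G : SimpleGraph V} {N : ℕ}
    (h : Sphere G N) : GHS (ZMod 2) (fun s : Finset V => G.IsClique (↑s : Set V)) N := by
  classical
  refine ⟨⟨?_, ?_⟩, ?_, ?_, ?_⟩
  · simp
  · intro σ τ hσ hτ
    have h1 : G.IsClique (↑σ : Set V) := hσ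
    exact h1.subset (by exact_mod_cast hτ)
  · intro σ hσ
    exact h.card_le σ hσ
  · -- acyclicity
    intro τ hτ p hp c hc hc0
    have hex := h.exact τ hτ p hp
    obtain ⟨w, hw⟩ := transpose_exact (K := ZMod 2) (α := Z1Fc G τ (p + 2))
      (β := Z1Fc G τ (p + 1)) (γ := Z1Fc G τ p)
      (fun r s => z1inc s.1 r.1) (fun s q => z1inc q.1 s.1) (by
        intro x hx
        obtain ⟨u, hu⟩ := hex (z1ext x) (by
          intro r hr hrc
          rw [z1_cob (j := p + 1) _ r hr hrc]
          have h1 := hx ⟨r, hr, by omega⟩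
          simp only [z1ext_apply]
          exact h1)
        refine ⟨fun q => u q.1, fun s => ?_⟩
        rw [← z1ext_apply x s, hu s.1 s.2.1 (by have := s.2.2; omega),
          z1_cob (j := p) u s.1 s.2.1 (by have := s.2.2; omega)])
      (fun s => c s.1) (by
        intro q
        have h1 := hc0 q.1
        rw [z1_bd' c hc q.1 q.2.2] at h1
        rw [← h1]
        exact Finset.sum_congr rfl (fun s _ => mul_comm _ _))
    refine ⟨z1ext w, z1ext_supp (p := p + 1) w, fun ρ => ?_⟩
    by_cases hρ : Link G τ ρ ∧ ρ.card = p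
    · rw [z1_bd' (z1ext w) (z1ext_supp (p := p + 1) w) ρ (by rw [hρ.2])]
      have h1 := hw ⟨ρ, hρ.1, by rw [hρ.2]⟩
      have h2 : c ρ = ∑ r : Z1Fc G τ (p + 1 + 1), w r * z1inc ρ r.1 := h1
      rw [h2]
      refine Finset.sum_congr rfl (fun r _ => ?_)
      rw [z1ext_apply, mul_comm]
    · have h1 : c ρ = 0 := by
        by_contra h1
        apply hρ
        obtain ⟨h2, h3, h4⟩ := hc ρ h1
        refine ⟨⟨h3, ?_⟩, h2⟩
        have h5 : G.IsClique (↑(ρ ∪ τ) : Set V) := h4
        rwa [coe_union] at h5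
      rw [h1]
      by_contra h2
      have h3 := z1_bd_supp _ (z1ext_supp (p := p + 1) w) ρ h2
      exact hρ ⟨h3.1, by omega⟩
  · -- the top class
    intro τ hτ
    obtain ⟨k, hk, g, hg, hall⟩ := h.top τ hτ
    have hk' : N - τ.card = k := by omega
    rw [hk']
    -- a function on the `k`-faces which is orthogonal to the cycles is a coboundary
    have hdual : ∀ y : Finset V → ZMod 2,
        (∀ x : Z1Fc G τ (k + 1) → ZMod 2,
          (∀ q : Z1Fc G τ k, ∑ s : Z1Fc G τ (k + 1), z1inc q.1 s.1 * x s = 0) →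
          ∑ s : Z1Fc G τ (k + 1), y s.1 * x s = 0) → IsCob G τ k y := by
      intro y hy
      obtain ⟨w, hw⟩ := transpose_exact (K := ZMod 2) (α := Z1Fc G τ k)
        (β := Z1Fc G τ (k + 1))
        (γ := {x : Z1Fc G τ (k + 1) → ZMod 2 //
          ∀ q : Z1Fc G τ k, ∑ s : Z1Fc G τ (k + 1), z1inc q.1 s.1 * x s = 0})
        (fun q s => z1inc q.1 s.1) (fun s x => x.1 s) (by
          intro x hx
          refine ⟨fun x' => if x' = ⟨x, hx⟩ then 1 else 0, fun s => ?_⟩
          simp)
        (fun s => y s.1) (by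
          rintro ⟨x, hx⟩
          exact hy x hx)
      refine ⟨z1ext w, fun s hs hsk => ?_⟩
      rw [z1_cob (j := k) (z1ext w) s hs hsk]
      have h1 : y s = ∑ q : Z1Fc G τ k, w q * z1inc q.1 s := hw ⟨s, hs, by omega⟩
      rw [h1]
      refine Finset.sum_congr rfl (fun q _ => ?_)
      rw [z1ext_apply, mul_comm]
    -- there is a cycle which is not orthogonal to `g`
    have hz : ∃ x : Z1Fc G τ (k + 1) → ZMod 2,
        (∀ q : Z1Fc G τ k, ∑ s : Z1Fc G τ (k + 1), z1inc q.1 s.1 * x s = 0) ∧
        ∑ s : Z1Fc G τ (k + 1), g s.1 * x s = 1 := by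
      by_contra hno
      push Not at hno
      apply hg
      apply hdual
      intro x hx
      have h1 := hno x hx
      generalize ∑ s : Z1Fc G τ (k + 1), g s.1 * x s = t at h1
      revert h1
      revert t
      decide
    obtain ⟨x, hx, hxg⟩ := hz
    -- cycles are orthogonal to coboundaries
    have hcyc : ∀ c : Finset V → ZMod 2,
        LkSupp (fun s : Finset V => G.IsClique (↑s : Set V)) τ k c → (∀ ρ, bd c ρ = 0) →
        ∀ y : Finset V → ZMod 2, IsCob G τ k y →
          ∑ s : Z1Fc G τ (k + 1), y s.1 * c s.1 = 0 := by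
      intro c hc hc0 y hy
      obtain ⟨u, hu⟩ := hy
      have h1 : ∀ s : Z1Fc G τ (k + 1), y s.1 * c s.1 =
          ∑ q : Z1Fc G τ k, u q.1 * (z1inc q.1 s.1 * c s.1) := by
        intro s
        rw [hu s.1 s.2.1 (by have := s.2.2; omega),
          z1_cob (j := k) u s.1 s.2.1 (by have := s.2.2; omega), Finset.sum_mul]
        refine Finset.sum_congr rfl (fun q _ => ?_)
        ring
      rw [Finset.sum_congr rfl (fun s _ => h1 s), Finset.sum_comm]
      refine Finset.sum_eq_zero (fun q _ => ?_)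
      rw [← Finset.mul_sum, ← z1_bd' c hc q.1 q.2.2, hc0, mul_zero]
    have hz0 : ∀ ρ, bd (z1ext x) ρ = 0 := by
      intro ρ
      by_contra h1
      obtain ⟨h2, h3⟩ := z1_bd_supp _ (z1ext_supp x) ρ h1
      apply h1
      rw [z1_bd' _ (z1ext_supp x) ρ h3]
      have h4 := hx ⟨ρ, h2, h3⟩
      rw [← h4]
      refine Finset.sum_congr rfl (fun s _ => ?_)
      rw [z1ext_apply]
    have hzg : ∑ s : Z1Fc G τ (k + 1), g s.1 * z1ext x s.1 = 1 := by
      rw [← hxg]
      refine Finset.sum_congr rfl (fun s _ => ?_)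
      rw [z1ext_apply]
    refine ⟨z1ext x, z1ext_supp x, hz0, ?_, ?_⟩
    · intro n hn
      have h1 : ∑ s : Z1Fc G τ (k + 1), g s.1 * (n • z1ext x) s.1 = n := by
        have h2 : ∀ s : Z1Fc G τ (k + 1), g s.1 * (n • z1ext x) s.1 =
            n * (g s.1 * z1ext x s.1) := by
          intro s
          rw [Pi.smul_apply, smul_eq_mul]
          ring
        rw [Finset.sum_congr rfl (fun s _ => h2 s), ← Finset.mul_sum, hzg, mul_one]
      rw [← h1, hn]
      simp
    · intro c hc hc0
      refine ⟨∑ s : Z1Fc G τ (k + 1), g s.1 * c s.1, ?_⟩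
      set n := ∑ s : Z1Fc G τ (k + 1), g s.1 * c s.1 with hn
      -- the difference is orthogonal to everything
      have hort : ∀ y : Finset V → ZMod 2, ∑ s : Z1Fc G τ (k + 1), y s.1 * c s.1 =
          n * ∑ s : Z1Fc G τ (k + 1), y s.1 * z1ext x s.1 := by
        intro y
        rcases hall y with h1 | h1
        · rw [hcyc c hc hc0 y h1, hcyc (z1ext x) (z1ext_supp x) hz0 y h1, mul_zero]
        · have h2 := hcyc c hc hc0 _ h1
          have h3 := hcyc (z1ext x) (z1ext_supp x) hz0 _ h1
          simp only [add_mul, Finset.sum_add_distrib] at h2 h3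
          rw [hzg] at h3
          rw [← hn] at h2
          have e : ∀ A B n : ZMod 2, A + n = 0 → B + 1 = 0 → A = n * B := by decide
          exact e _ _ _ h2 h3
      funext ρ
      by_cases hρ : Link G τ ρ ∧ ρ.card + 1 = k + 1
      · have h1 := hort (fun s => if s = ρ then 1 else 0)
        have h2 : ∀ d : Finset V → ZMod 2, ∑ s : Z1Fc G τ (k + 1),
            (if s.1 = ρ then (1 : ZMod 2) else 0) * d s.1 = d ρ := by
          intro d
          refine (Finset.sum_eq_single (⟨ρ, hρ⟩ : Z1Fc G τ (k + 1)) ?_ ?_).trans ?_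
          · intro s _ hs
            rw [if_neg (fun h => hs (Subtype.ext h)), zero_mul]
          · intro hh
            exact absurd (mem_univ _) hh
          · show (if ρ = ρ then (1 : ZMod 2) else 0) * d ρ = d ρ
            rw [if_pos rfl, one_mul]
        rw [h2 c, h2 (z1ext x)] at h1
        rw [h1, Pi.smul_apply, smul_eq_mul]
      · have h1 : c ρ = 0 := by
          by_contra h1
          apply hρ
          obtain ⟨h2, h3, h4⟩ := hc ρ h1
          refine ⟨⟨h3, ?_⟩, by omega⟩
          have h5 : G.IsClique (↑(ρ ∪ τ) : Set V) := h4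
          rwa [coe_union] at h5
        have h2 : z1ext x ρ = 0 := by
          unfold z1ext
          rw [dif_neg hρ]
        rw [h1, Pi.smul_apply, h2, smul_zero]

end Pool.H8.CDW
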