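import Pool.Agent.H8.CDW.Sph
import Pool.Agent.H8.CDW.Z0
import Pool.Agent.H85.UC
import Pool.Agent.H85.UC2

/-!
# [H8 CDW Z2] homological spheres are cohomological spheres (mod 2)

The converse of Z1, by the same transposition.  `exact`: `transpose_exact` applied to `acyc` for the faces of the link of `t` with `k - 1`, `k`, `k + 1`
vertices.  `top`: `k = N - |t|`; `z` from `GHS.top`, `z ≠ 0` (`(1 : ZMod 2) • z = 0 → 1 = 0`), choose a face `s₀` with `z s₀ = 1` and `g` = indicator of
`s₀`; a coboundary `cob h` is orthogonal to the cycle `z` (`∑_s z s * cob h s = ∑_r h r * bd z r = 0`), so `g` is not one; for `g'` either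
`∑ g' z = 0`, and `g'` is a coboundary by `transpose_one`, or `∑ g' z = 1` and `g' + g` is.
(Both are in helper85's UC2.lean, which is used here.)
-/

set_option autoImplicit false

namespace Pool.H8.CDW

open Pool.Agent.H85.UC

theorem z2_lk {V : Type} [LinearOrder V] {G : SimpleGraph V} {t s : Finset V} :
    Lk (fun s : Finset V => G.IsClique (↑s : Set V)) t s ↔ Link G t s := by
  show Disjoint s t ∧ G.IsClique (↑(s ∪ t) : Set V) ↔ Disjoint s t ∧ G.IsClique (↑s ∪ ↑t : Set V)
  rw [Finset.coe_union]

theorem sphere_of_ghs {V : Type} [Fintype V] [LinearOrder V] {G : SimpleGraph V} {N : ℕ}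
    (h : GHS (ZMod 2) (fun s : Finset V => G.IsClique (↑s : Set V)) N) : Sphere G N where
  card_le := h.dim
  exact := by
    intro t ht k hk g hg
    have hS := GHS.sph h (τ := t) ht
    obtain ⟨b, -, hb⟩ := hS.cohom (p := k) (by omega) g
      (fun s hs hc => hg s (z2_lk.1 hs) hc)
    exact ⟨b, fun s hs hc => (hb s (z2_lk.2 hs) hc).symm⟩
  top := by
    intro t ht
    have hS := GHS.sph h (τ := t) ht
    have hle : N - t.card + t.card = N := Nat.sub_add_cancel (h.dim t ht)
    obtain ⟨z, hz1, hz2, ⟨s₀, hs0, hs1, hs2⟩, hz4⟩ := hS.cohom_top (A := ZMod 2)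
    refine ⟨N - t.card, hle, Pi.single s₀ 1, ?_, ?_⟩
    · rintro ⟨b, hb⟩
      have h1 : ∑ s, z s • (Pi.single s₀ (1 : ZMod 2) : Finset V → ZMod 2) s
          = ∑ s, z s • ucb b s := by
        refine Finset.sum_congr rfl (fun s _ => ?_)
        by_cases h2 : z s = 0
        · rw [h2, zero_smul, zero_smul]
        · rw [hb s (z2_lk.1 (hz1 s h2).2) (hz1 s h2).1]
          rfl
      rw [← adj] at h1
      have h3 : ∑ s, ubd z s • b s = 0 := by
        refine Finset.sum_eq_zero (fun s _ => ?_)
        rw [hz2 s, zero_smul]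
      rw [h3, Finset.sum_eq_single s₀, Pi.single_eq_same, hs2] at h1
      · exact absurd h1 (by decide)
      · intro s _ hne
        rw [Pi.single_eq_of_ne hne, smul_zero]
      · intro h4
        exact absurd (Finset.mem_univ _) h4
    · intro g'
      have h5 : ∀ k : ZMod 2, k = 0 ∨ k = 1 := by decide
      rcases h5 (∑ s, z s • g' s) with h6 | h6
      · left
        obtain ⟨b, -, hb⟩ := (hz4 g').1 h6
        exact ⟨b, fun s hs hc => (hb s (z2_lk.2 hs) hc).symm⟩
      · right
        have h7 : ∑ s, z s • (g' s + (Pi.single s₀ (1 : ZMod 2) : Finset V → ZMod 2) s) = 0 := by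
          simp only [smul_add, Finset.sum_add_distrib]
          rw [h6, Finset.sum_eq_single s₀, Pi.single_eq_same, hs2]
          · decide
          · intro s _ hne
            rw [Pi.single_eq_of_ne hne, smul_zero]
          · intro h4
            exact absurd (Finset.mem_univ _) h4
        obtain ⟨b, -, hb⟩ := (hz4 (fun s => g' s
          + (Pi.single s₀ (1 : ZMod 2) : Finset V → ZMod 2) s)).1 h7
        exact ⟨b, fun s hs hc => (hb s (z2_lk.2 hs) hc).symm⟩

end Pool.H8.CDW
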