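import Pool.Agent.H8.CDW.Main
import Pool.Agent.H8.CDW.Z1
import Pool.Agent.H8.CDW.Z2

/-!
# Weighted inequality from the right-angled one, hypotheses in the form of `GHS`
-/

set_option autoImplicit false

namespace Pool.H8.CDW

open Pool.Agent.H85.UC CoxeterSystem

lemma sphere_congr {V : Type} {D1 D2 : DecidableEq V} {G : SimpleGraph V} {N : ℕ}
    (h : @Sphere V D1 G N) : @Sphere V D2 G N := by
  have : D1 = D2 := Subsingleton.elim _ _
  subst this
  exact h

open Classical in
/-- `∑ (-1/2)^|s|` over the cliques of a graph -/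
noncomputable def kapC {V : Type} [Fintype V] (G : SimpleGraph V) : ℚ :=
  ∑ s ∈ Finset.univ.filter (fun s : Finset V => G.IsClique (↑s : Set V)), (-1 / 2 : ℚ) ^ s.card

lemma kap_empty {V : Type} [Fintype V] (G : SimpleGraph V) : kap G ∅ = kapC G := by
  unfold kap kapC
  refine Finset.sum_congr ?_ fun _ _ => rfl
  ext s
  simp [Link]

lemma exists_linearOrder (V : Type) [Finite V] : Nonempty (LinearOrder V) := by
  obtain ⟨n, ⟨e⟩⟩ := Finite.exists_equiv_fin V
  exact ⟨LinearOrder.lift' e e.injective⟩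

lemma ra_aux {V : Type} [Fintype V] (L : LinearOrder V) (G : SimpleGraph V) (n : ℕ)
    (RA : ∀ (V : Type) [Fintype V] [LinearOrder V] (G : SimpleGraph V) (n : ℕ),
      GHS (ZMod 2) (fun s : Finset V => G.IsClique (↑s : Set V)) (2 * n) →
      0 ≤ (-1 : ℚ) ^ n * kapC G)
    {D : DecidableEq V} (hG : @Sphere V D G (2 * n)) : 0 ≤ (-1 : ℚ) ^ n * kap G ∅ := by
  rw [kap_empty]
  exact RA V G n (ghs_of_sphere (sphere_congr hG))

/-- The weighted inequality from the right-angled one. -/
theorem weighted_ghs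
    (RA : ∀ (V : Type) [Fintype V] [LinearOrder V] (G : SimpleGraph V) (n : ℕ),
      GHS (ZMod 2) (fun s : Finset V => G.IsClique (↑s : Set V)) (2 * n) →
      0 ≤ (-1 : ℚ) ^ n * kapC G)
    {V : Type} [Fintype V] [LinearOrder V] (M : CoxeterMatrix V) (n : ℕ)
    (hfin : ∀ σ : Finset V, (nerve M).IsClique (↑σ : Set V) → Finite (resM M (↑σ : Set V)).Group)
    (hS : GHS (ZMod 2) (fun s : Finset V => (nerve M).IsClique (↑s : Set V)) (2 * n)) :
    0 ≤ (-1 : ℚ) ^ n * omegaW M := by
  refine weighted ?_ M n hfin (sphere_of_ghs hS)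
  intro V' _ hD G m hG
  obtain ⟨L⟩ := exists_linearOrder V'
  exact ra_aux L G m RA hG

end Pool.H8.CDW
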