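import Mathlib

/-!
# Weighted form of the flag complex inequality (helper8): definitions

PLAN (weighted Q1 from the right-angled case).
`M` a Coxeter matrix on a finite set `V` (`M u v = 0` means infinity), simplices = finite sets `σ` with
`M u v ≠ 0` for all `u, v` in `σ`, `W_σ` = Coxeter group of `M` restricted to `σ`, finite.
(1) `∑ σ, (-1)^|σ| / |W_σ| = ∑ σ, (1/|W_σ|) κ(lk σ) κ(Cox W_σ)`, `κ(L) = ∑ s in L, (-1/2)^|s|`,
    `Cox W` the Coxeter complex (simplices of dimension `i - 1` are the cosets `w W_ρ`, `|σ - ρ| = i`),
    because `κ(Cox W_σ) = ∑ ρ ⊆ σ, (-1/2)^|σ-ρ| |W_σ|/|W_ρ|`, `∑_{ρ ⊆ σ ⊆ π} (-1/2)^|π-ρ| = (-1)^|π-ρ|` and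
    `∑ τ in lk ρ, (-1)^|τ| = (-1)^|ρ|` (links are spheres).
(2) `Cox W` (`W` a finite Coxeter group) is a flag complex and a mod 2 sphere with spherical links.
(3) `κ` of an odd dimensional ... even rank `2k` has sign `(-1)^k` by the right-angled theorem, and `κ = 0` for odd rank.

GROUP THEORY NEEDED: exchange condition (A), parabolic subgroups and shortest coset representatives (B), the order of
`s_i s_j` is exactly `M i j` (C), Matsumoto's theorem and `W_J` = Coxeter group of the restricted matrix (D).
-/

set_option autoImplicit false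

namespace Pool.H8.CDW

open CoxeterSystem

variable {B : Type*} {W : Type*} [Group W] {M : CoxeterMatrix B}

/-- the standard parabolic subgroup generated by `J` -/
def par (cs : CoxeterSystem M W) (J : Set B) : Subgroup W := Subgroup.closure (cs.simple '' J)

/-- the Coxeter matrix restricted to a set of generators -/
def resM (M : CoxeterMatrix B) (J : Set B) : CoxeterMatrix J where
  M := fun i j => M i j
  isSymm := by
    ext i j
    exact M.symmetric _ _
  diagonal i := M.diagonal _
  off_diagonal i j h := M.off_diagonal _ _ (fun e => h (Subtype.ext e))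

lemma resM_apply (M : CoxeterMatrix B) (J : Set B) (i j : J) : resM M J i j = M i j := rfl

lemma simple_mem_par (cs : CoxeterSystem M W) {J : Set B} {i : B} (hi : i ∈ J) :
    cs.simple i ∈ par cs J := Subgroup.subset_closure ⟨i, hi, rfl⟩

lemma par_mono (cs : CoxeterSystem M W) {I J : Set B} (h : I ⊆ J) : par cs I ≤ par cs J :=
  Subgroup.closure_mono (Set.image_mono h)

lemma par_univ (cs : CoxeterSystem M W) : par cs Set.univ = ⊤ := by
  unfold par
  rw [Set.image_univ, cs.subgroup_closure_range_simple]

lemma par_empty (cs : CoxeterSystem M W) : par cs ∅ = ⊥ := by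
  unfold par
  rw [Set.image_empty, Subgroup.closure_empty]

end Pool.H8.CDW
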