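import Pool.Agent.H8.CDW.Main
import Pool.Agent.H8.CDW.Z2

/-!
# Q1 exactly as posed, from the right-angled theorem in the form `Sphere G (2 n) → 0 ≤ (-1)^n κ`
-/

set_option autoImplicit false

namespace Pool.H8.CDW

open Pool.Agent.H85.UC CoxeterSystem

/-- Q1 with integral generalized homology spheres and Coxeter weights, from the right-angled
inequality `RA`. -/
theorem q1_of_RA (RA : ∀ (V : Type) [Fintype V] [DecidableEq V] (G : SimpleGraph V) (n : ℕ),
      Sphere G (2 * n) → 0 ≤ (-1 : ℚ) ^ n * kap G ∅)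
    {V : Type} [Fintype V] [LinearOrder V] (M : CoxeterMatrix V) (n : ℕ)
    (hS : GHS ℤ (fun s : Finset V => (nerve M).IsClique (↑s : Set V)) (2 * n))
    (hfin : ∀ σ : Finset V, (nerve M).IsClique (↑σ : Set V) → Finite (resM M (↑σ : Set V)).Group) :
    0 ≤ (-1 : ℚ) ^ n * omegaW M :=
  weighted RA M n hfin (sphere_of_ghs (GHS.mod_two hS))

end Pool.H8.CDW
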